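import Pool.Agent.W882.Nip3.Den

open TensorProduct Topology

namespace Pool.Agent.W882.Nip3

/-- `(R ⊗ A) ⊗ B ≃ (R ⊗ B) ⊗ A` over `R` -/
noncomputable def swapEquiv (K R A B : Type) [CommRing K] [CommRing R] [Algebra K R] [CommRing A]
    [Algebra K A] [CommRing B] [Algebra K B] :
    ((R ⊗[K] A) ⊗[K] B) ≃ₐ[R] ((R ⊗[K] B) ⊗[K] A) :=
  (Algebra.TensorProduct.assoc K K R R A B).trans
    ((Algebra.TensorProduct.congr (AlgEquiv.refl : R ≃ₐ[R] R) (Algebra.TensorProduct.comm K A B)).trans
      (Algebra.TensorProduct.assoc K K R R B A).symm)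

theorem norm_tower {K R A B : Type} [CommRing K] [CommRing R] [Algebra K R] [CommRing A]
    [Algebra K A] [CommRing B] [Algebra K B] [Module.Finite K A] [Module.Finite K B]
    [Module.Free K A] [Module.Free K B]
    (z : (R ⊗[K] A) ⊗[K] B) :
    ∃ w : R ⊗[K] B, Algebra.norm R (Algebra.norm (R ⊗[K] A) z) = Algebra.norm R w := by
  classical
  refine ⟨Algebra.norm (R ⊗[K] B) (swapEquiv K R A B z), ?_⟩
  rw [Algebra.norm_norm (R := R) (S := R ⊗[K] A), Algebra.norm_norm (R := R) (S := R ⊗[K] B)]
  exact (Algebra.norm_eq_of_algEquiv (swapEquiv K R A B) z).symm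

variable {K F : Type} [CommRing K] [Field F] [TopologicalSpace F] [IsTopologicalRing F] [Algebra K F]

theorem approx_norms (hK : DenseRange (algebraMap K F)) {J : Type} (A : J → Type)
    [∀ j, CommRing (A j)] [∀ j, Algebra K (A j)] (l : List J) (hl : ∀ j ∈ l, SplitAt K F (A j)) :
    ∀ (R : Type) [CommRing R] [Algebra K R] (ι : Type) [Fintype ι] (σ : ι → (R →ₐ[K] F))
      (_ : DenseRange (fun (r : R) (k : ι) => σ k r)) (τ : ι → F) (U : Set (ι → F)) (_ : U ∈ 𝓝 τ),
      ∃ β : R, (fun k => σ k β) ∈ U ∧ ∀ j ∈ l, ∃ z : R ⊗[K] A j, Algebra.norm R z = β := by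
  classical
  induction l with
  | nil =>
    intro R _ _ ι _ σ hσ τ U hU
    obtain ⟨r, hr⟩ := hσ.exists_mem_open isOpen_interior ⟨τ, mem_interior_iff_mem_nhds.mpr hU⟩
    exact ⟨r, interior_subset hr, by simp⟩
  | cons j l ih =>
    intro R _ _ ι _ σ hσ τ U hU
    obtain ⟨d, b, ρ, hd, hV⟩ := hl j (by simp)
    have : Module.Finite K (A j) := Module.Finite.of_basis b
    have : Module.Free K (A j) := Module.Free.of_basis b
    have hρ := dense_of_split hK b ρ hV
    have hσ' := dense_tensor σ hσ ρ hρ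
    -- the product map
    set Pr : (ι × Fin d → F) → (ι → F) := fun t k => ∏ a, t (k, a) with hPr
    have hcont : Continuous Pr := by
      refine continuous_pi fun k => ?_
      simp only [hPr]
      exact continuous_finsetProd _ fun a _ => continuous_apply (k, a)
    set τ' : ι × Fin d → F := fun p => if p.2 = ⟨0, hd⟩ then τ p.1 else 1 with hτ'
    have hPrτ : Pr τ' = τ := by
      funext k
      simp [hPr, hτ']
    have hU' : Pr ⁻¹' U ∈ 𝓝 τ' := hcont.continuousAt.preimage_mem_nhds (by rw [hPrτ]; exact hU)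
    obtain ⟨β', hβ'U, hβ'⟩ := ih (fun i hi => hl i (by simp [hi])) (R ⊗[K] A j) (ι × Fin d)
      (fun p => Algebra.TensorProduct.productMap (σ p.1) (ρ p.2)) hσ' τ' _ hU'
    refine ⟨Algebra.norm R β', ?_, ?_⟩
    · have hnorm : ∀ k, σ k (Algebra.norm R β') =
          ∏ a, Algebra.TensorProduct.productMap (σ k) (ρ a) β' := by
        intro k
        have := map_norm_eq_prod (Algebra.TensorProduct.basis R b) (σ k : R →+* F)
          (fun a => (Algebra.TensorProduct.productMap (σ k) (ρ a) : (R ⊗[K] A j) →+* F))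
          (by
            intro a r
            simp [Algebra.TensorProduct.algebraMap_apply])
          (by
            have : (Matrix.of fun a k_1 => ((Algebra.TensorProduct.productMap (σ k) (ρ a) :
                (R ⊗[K] A j) →ₐ[K] F) : (R ⊗[K] A j) →+* F)
                ((Algebra.TensorProduct.basis R b) k_1)) = Matrix.of fun a k => ρ a (b k) := by
              ext a k'
              simp
            rw [this]
            exact hV) β'
        simpa using this
      have : (fun k => σ k (Algebra.norm R β')) = Pr (fun p =>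
          Algebra.TensorProduct.productMap (σ p.1) (ρ p.2) β') := by
        funext k
        rw [hnorm k]
      rw [this]
      exact hβ'U
    · intro i hi
      rcases List.mem_cons.mp hi with rfl | hi
      · exact ⟨β', rfl⟩
      · obtain ⟨z, hz⟩ := hβ' i hi
        obtain ⟨di, bi, -, -, -⟩ := hl i (by simp [hi])
        have : Module.Finite K (A i) := Module.Finite.of_basis bi
        have : Module.Free K (A i) := Module.Free.of_basis bi
        obtain ⟨w, hw⟩ := norm_tower (K := K) (R := R) (A := A j) (B := A i) z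
        exact ⟨w, by rw [← hw, hz]⟩

/-- simultaneous norms from split algebras are dense -/
theorem exists_norms (hK : DenseRange (algebraMap K F)) {J : Type} (A : J → Type)
    [∀ j, CommRing (A j)] [∀ j, Algebra K (A j)] (l : List J) (hl : ∀ j ∈ l, SplitAt K F (A j))
    (ξ : F) (U : Set F) (hU : U ∈ 𝓝 ξ) :
    ∃ x : K, algebraMap K F x ∈ U ∧ ∀ j ∈ l, ∃ z : A j, Algebra.norm K z = x := by
  classical
  have hσ : DenseRange (fun (r : K) (_ : Unit) => (Algebra.ofId K F) r) := by
    have h1 := DenseRange.piMap (fun _ : Unit => hK)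
    refine h1.mono ?_
    rintro _ ⟨c, rfl⟩
    refine ⟨c (), ?_⟩
    funext k
    rfl
  obtain ⟨β, hβ, hz⟩ := approx_norms hK A l hl K Unit (fun _ => Algebra.ofId K F) hσ
    (fun _ => ξ) ((fun t : Unit → F => t ()) ⁻¹' U)
    ((continuous_apply ()).continuousAt.preimage_mem_nhds hU)
  refine ⟨β, hβ, fun j hj => ?_⟩
  obtain ⟨z, hz⟩ := hz j hj
  refine ⟨Algebra.TensorProduct.lid K (A j) z, ?_⟩
  rw [← hz]
  exact Algebra.norm_eq_of_algEquiv (Algebra.TensorProduct.lid K (A j)) z

end Pool.Agent.W882.Nip3
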