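import Pool.Agent.W882.Nip3.Final

open Topology Filter Polynomial TensorProduct

namespace Pool.Agent.W882.Nip3

theorem exists_bad {F : Type} [Field F] {D : ℕ} (h : ¬ DimLeOneUpTo F D) :
    ∃ e : Fin D, ∃ d : Fin (D+1), BadE F (e+1) d := by
  unfold DimLeOneUpTo at h
  push Not at h
  obtain ⟨M, _, _, h1, h2, h3, L, _, _, h4, h5, h6, h7⟩ := h
  have hpos : 0 < Module.finrank F M := Module.finrank_pos
  refine ⟨⟨Module.finrank F M - 1, by omega⟩, ⟨Module.finrank M L, by omega⟩, M, _, _, h1, h2,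
    by simp only []; omega, L, _, _, h4, h5, rfl, ?_⟩
  rw [Function.Surjective] at h7
  push Not at h7
  obtain ⟨ξ, hξ⟩ := h7
  refine ⟨ξ, ?_, fun ⟨z, hz⟩ => hξ z hz⟩
  rintro rfl
  exact hξ 0 (Algebra.norm_zero)

theorem nip_one {K : Type} [Field K] [FirstOrder.Ring.CompatibleRing K] (h : NIPField K) :
    NIPnField 1 K := by
  classical
  intro p q φ hφ
  obtain ⟨n, hn⟩ := h q p (φ.relabel (Sum.elim Sum.inr (fun jl => Sum.inl jl.2) :
    Fin p ⊕ (Fin 1 × Fin q) → Fin q ⊕ Fin p))
  obtain ⟨b, hb⟩ := hφ n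
  choose a ha using hb
  obtain ⟨i, J, hiJ⟩ := hn (fun i => b 0 i) (fun J => a {s | s 0 ∈ J})
  apply hiJ
  rw [FirstOrder.Language.Formula.realize_relabel]
  have h1 := ha {s : Fin 1 → Fin n | s 0 ∈ J} (fun _ => i)
  have h2 : (Sum.elim (b 0 i) (a {s | s 0 ∈ J})) ∘ (Sum.elim Sum.inr (fun jl => Sum.inl jl.2) :
      Fin p ⊕ (Fin 1 × Fin q) → Fin q ⊕ Fin p) =
      Sum.elim (a {s | s 0 ∈ J}) (fun jl : Fin 1 × Fin q => b jl.1 i jl.2) := by
    funext t
    rcases t with t | ⟨t, l⟩
    · rfl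
    · have : t = 0 := Subsingleton.elim _ _
      subst this
      rfl
  rw [h2]
  exact h1

/-- bounded number of bad places, uniformly in the elementary class of `K`, for places with
values in arbitrary complete fields -/
def BoundedBadG (K : Type) [Field K] [FirstOrder.Ring.CompatibleRing K] (e d : ℕ) : Prop :=
  ∃ N : ℕ, ∀ (K' : Type) [Field K'] [FirstOrder.Ring.CompatibleRing K'],
    FirstOrder.Language.ring.ElementarilyEquivalent K K' →
    ∀ (O : Fin N → ValuationSubring K') (F : Fin N → Type)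
      [∀ i, NontriviallyNormedField (F i)] [∀ i, CompleteSpace (F i)] (ψ : ∀ i, O i →+* F i),
      (∀ i x, ψ i x ≠ 0 → IsUnit x) → (∀ i, DenseRange (ψ i)) →
      (∀ i, ∃ A : K', A ≠ 0 ∧ mu (O i) (ψ i) A < 1) →
      (∀ j i, i ≠ j → ∃ A : K', A ≠ 0 ∧ mu (O j) (ψ j) A < 1 ∧ 1 < mu (O i) (ψ i) A) →
      ∃ i, ¬ BadE (F i) (e+1) d

theorem boundedG_of_nipn {K : Type} [Field K] [FirstOrder.Ring.CompatibleRing K] {n : ℕ}
    (hK : NIPnField n K) (e d : ℕ) : BoundedBadG K e d := by
  classical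
  obtain ⟨m, hm⟩ : ∃ m, ¬ PatN K (fE n d e) m := by
    have := hK ((e+1)+(e+1)) (d*(e+1)) (fE n d e)
    by_contra hcon
    push Not at hcon
    exact this hcon
  refine ⟨Fintype.card (Fin n → Fin m), fun K' _ _ hKK' O F _ _ ψ hψ hden hnt hsep => ?_⟩
  rw [patN_congr hKK'] at hm
  by_contra hbad
  push Not at hbad
  let emb : (Fin n → Fin m) → Fin (Fintype.card (Fin n → Fin m)) := Fintype.equivFin _
  have hemb : Function.Injective emb := (Fintype.equivFin _).injective
  have hdense := dense_inter (fun J => O (emb J)) (fun J => F (emb J))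
    (fun J => ψ (emb J)) (fun J => hψ (emb J)) (fun J => hden (emb J)) (fun J => hnt (emb J))
    (fun j i hij => hsep _ _ (hemb.ne hij))
  obtain ⟨g, c, x, H, h1, h2, h3⟩ := main_places (fun J => O (emb J)) (fun J => F (emb J))
    (fun J => ψ (emb J)) (fun J => hψ (emb J)) (interO fun J => O (emb J))
    (fun J x hx => hx J) hdense (fun J => hbad (emb J)) (Y := Fin n × Fin m)
    (fun y => {J | J y.1 = y.2})
  refine no_pattern_of hm g (fun r i => c (r, i)) x H ?_ ?_ h3
  · intro J r i hJ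
    exact h1 J (r, i) hJ
  · intro J r u hu
    exact h2 J (r, J r) rfl u hu

theorem boundedG_of_ntp2 {K : Type} [Field K] [FirstOrder.Ring.CompatibleRing K]
    (hK : NTP2Field K) (e d : ℕ) : BoundedBadG K e d := by
  classical
  obtain ⟨m, hm⟩ : ∃ m, ¬ PatT K (fT' d e) m := by
    obtain ⟨m, hm⟩ := hK (e+1) (Fintype.card (QT d e)) (fT' d e)
    refine ⟨m, ?_⟩
    rintro ⟨a, ha, hb⟩
    obtain ⟨η, hη⟩ := hm a ha
    exact hη (hb η)
  refine ⟨Fintype.card (Fin m × Fin m), fun K' _ _ hKK' O F _ _ ψ hψ hden hnt hsep => ?_⟩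
  rw [patT_congr hKK'] at hm
  by_contra hbad
  push Not at hbad
  let emb : (Fin m × Fin m) → Fin (Fintype.card (Fin m × Fin m)) := Fintype.equivFin _
  have hemb : Function.Injective emb := (Fintype.equivFin _).injective
  have hdense := dense_inter (fun J => O (emb J)) (fun J => F (emb J))
    (fun J => ψ (emb J)) (fun J => hψ (emb J)) (fun J => hden (emb J)) (fun J => hnt (emb J))
    (fun j i hij => hsep _ _ (hemb.ne hij))
  obtain ⟨g, c, x, H, h1, h2, h3⟩ := main_places (fun J => O (emb J)) (fun J => F (emb J))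
    (fun J => ψ (emb J)) (fun J => hψ (emb J)) (interO fun J => O (emb J))
    (fun J x hx => hx J) hdense (fun J => hbad (emb J)) (Y := Fin m ⊕ (Fin m × Fin m))
    (fun y => Sum.elim (fun i => {J | J.1 = i}) (fun J' => {J | J = J'}) y)
  refine no_pattern2_of hm g c x H ?_ ?_ ?_ ?_ h3
  · intro J i hJ
    exact h1 J (Sum.inl i) hJ
  · intro J J' hJ
    exact h1 J (Sum.inr J') hJ
  · intro J u hu
    exact h2 J (Sum.inl J.1) rfl u hu
  · intro J u hu
    exact h2 J (Sum.inr J) rfl u hu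

/-- bounded number of bad places, uniformly in the elementary class of `K` -/
def BoundedBad (K : Type) [Field K] [FirstOrder.Ring.CompatibleRing K] (e d : ℕ) : Prop :=
  ∃ N : ℕ, ∀ (K' : Type) [Field K'] [FirstOrder.Ring.CompatibleRing K'],
    FirstOrder.Language.ring.ElementarilyEquivalent K K' →
    ∀ P : Fin N → AbsPlace K', (Pairwise fun i j => (P i).Incomparable (P j)) →
      ∃ i, ¬ BadE (P i).v.Completion (e+1) d

theorem bounded_of_G {K : Type} [Field K] [FirstOrder.Ring.CompatibleRing K] {e d : ℕ}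
    (hK : BoundedBadG K e d) : BoundedBad K e d := by
  obtain ⟨N, hN⟩ := hK
  refine ⟨N, fun K' _ _ hKK' P hP => ?_⟩
  let _ : ∀ J, NontriviallyNormedField (P J).v.Completion := fun J => nnf (P J).v (P J).nontriv
  exact hN K' hKK' (fun J => (P J).O) (fun J => (P J).v.Completion)
    (fun J => (P J).psi) (fun J => (P J).psi_unit) (fun J => (P J).psi_dense)
    (by
      intro J
      obtain ⟨x, hx, hs⟩ := (P J).exists_small
      exact ⟨x, hx, ((P J).mu_lt_one_iff x).mpr hs⟩)
    (by
      intro j i hij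
      obtain ⟨x, hx, h1, h2⟩ := hP hij.symm
      exact ⟨x, hx, ((P j).mu_lt_one_iff x).mpr h1, ((P i).one_lt_mu_iff hx).mpr h2⟩)

/-- The main theorem. -/
theorem dim_le_one {K : Type} [Field K] [FirstOrder.Ring.CompatibleRing K]
    (hK : ∀ e d, BoundedBad K e d) (D : ℕ) :
    ∃ N : ℕ, ∀ (K' : Type) [Field K'] [FirstOrder.Ring.CompatibleRing K'],
      FirstOrder.Language.ring.ElementarilyEquivalent K K' →
      ∀ P : Fin N → AbsPlace K', (Pairwise fun i j => (P i).Incomparable (P j)) →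
        ∃ i, DimLeOneUpTo (P i).v.Completion D := by
  classical
  choose N hN using fun p : Fin D × Fin (D+1) => hK p.1 p.2
  refine ⟨(∑ p, N p) + 1, fun K' _ _ hKK' P hpw => ?_⟩
  by_contra hbad
  push Not at hbad
  choose e d hed using fun i => exists_bad (hbad i)
  -- pigeonhole
  obtain ⟨p, hp⟩ : ∃ p : Fin D × Fin (D+1),
      N p ≤ (Finset.univ.filter (fun i => (e i, d i) = p)).card := by
    by_contra hlt
    push Not at hlt
    have h1 : ∑ p : Fin D × Fin (D+1), (Finset.univ.filter (fun i => (e i, d i) = p)).card =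
        (∑ p, N p) + 1 := by
      rw [← Finset.card_eq_sum_card_fiberwise (f := fun i => (e i, d i)) (s := Finset.univ)
        (t := Finset.univ) (fun _ _ => Finset.mem_coe.mpr (Finset.mem_univ _))]
      simp
    have h2 : ∑ p : Fin D × Fin (D+1), (Finset.univ.filter (fun i => (e i, d i) = p)).card ≤
        ∑ p, N p := Finset.sum_le_sum fun p _ => (hlt p).le
    omega
  obtain ⟨s, hs, hcard⟩ := Finset.exists_subset_card_eq hp
  let emb : Fin (N p) → Fin ((∑ p, N p) + 1) := fun i => (s.orderEmbOfFin hcard i)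
  have hemb : Function.Injective emb := (s.orderEmbOfFin hcard).injective
  obtain ⟨i, hi⟩ := hN p K' hKK' (fun i => P (emb i)) (fun i j hij => hpw (hemb.ne hij))
  have hmem : (e (emb i), d (emb i)) = p := by
    have := hs (Finset.orderEmbOfFin_mem s hcard i)
    simpa using this
  apply hi
  have h5 := hed (emb i)
  have h6 : e (emb i) = p.1 := congrArg Prod.fst hmem
  have h7 : d (emb i) = p.2 := congrArg Prod.snd hmem
  rw [h6, h7] at h5
  exact h5

end Pool.Agent.W882.Nip3
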