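import Pool.Agent.W882.Nip3.Unram

open Polynomial

namespace Pool.Agent.W882.Nip3

/-- the unit ball of an ultrametric field -/
def ballRing {F : Type} [NormedField F] (hu : ∀ x y : F, ‖x + y‖ ≤ max ‖x‖ ‖y‖) :
    ValuationSubring F where
  carrier := {x | ‖x‖ ≤ 1}
  mul_mem' := by
    intro a b ha hb
    simp only [Set.mem_ofPred_eq, norm_mul] at *
    exact mul_le_one₀ ha (norm_nonneg _) hb
  one_mem' := by simp
  add_mem' := fun {a b} ha hb => (hu a b).trans (max_le ha hb)
  zero_mem' := by simp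
  neg_mem' := by
    intro a ha
    simpa using ha
  mem_or_inv_mem' := by
    intro x
    by_cases h : ‖x‖ ≤ 1
    · exact Or.inl h
    · right
      push Not at h
      show ‖x⁻¹‖ ≤ 1
      rw [norm_inv]
      exact inv_le_one_of_one_le₀ h.le

section

variable {κ : Type} [Field κ] {R : Type} [CommRing R] [IsDedekindDomain R] [Algebra R κ]
  [IsFractionRing R κ] (P : IsDedekindDomain.HeightOneSpectrum R)

/-- the absolute value attached to a maximal ideal -/
noncomputable def pv (κ : Type) [Field κ] [Algebra R κ] [IsFractionRing R κ]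
    (P : IsDedekindDomain.HeightOneSpectrum R) : AbsoluteValue κ ℝ :=
  P.adicAbv (K := κ) (b := 2) one_lt_two

theorem pv_nonarch (x y : κ) : pv κ P (x + y) ≤ max (pv κ P x) (pv κ P y) :=
  P.isNonarchimedean_adicAbv one_lt_two x y

theorem pv_val (y : κ) : pv κ P y = WithZeroMulInt.toNNReal (e := 2) two_ne_zero
    (P.valuation κ y) := rfl

theorem toNNReal_exp (n : ℤ) : ((WithZeroMulInt.toNNReal (e := 2) two_ne_zero
    (WithZero.exp n) : NNReal) : ℝ) = (2 : ℝ) ^ n := by
  rw [WithZeroMulInt.toNNReal_neg_apply _ WithZero.exp_ne_zero]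
  push_cast
  rfl

theorem pv_eq_zpow {y : κ} (hy : y ≠ 0) : ∃ n : ℤ, pv κ P y = (2 : ℝ) ^ n := by
  have h0 : P.valuation κ y ≠ 0 := (Valuation.ne_zero_iff _).mpr hy
  refine ⟨WithZero.log (P.valuation κ y), ?_⟩
  rw [pv_val, ← toNNReal_exp, WithZero.exp_log h0]

theorem pv_lt_one_iff (r : R) : pv κ P (algebraMap R κ r) < 1 ↔ r ∈ P.asIdeal :=
  P.adicAbv_coe_lt_one_iff one_lt_two r

theorem pv_le_one (r : R) : pv κ P (algebraMap R κ r) ≤ 1 :=
  P.adicAbv_coe_le_one one_lt_two r

theorem pv_lt_iff (x y : κ) : pv κ P x < pv κ P y ↔ P.valuation κ x < P.valuation κ y := by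
  rw [pv_val, pv_val, NNReal.coe_lt_coe]
  exact (WithZeroMulInt.toNNReal_strictMono one_lt_two).lt_iff_lt

theorem pv_le_iff (x y : κ) : pv κ P x ≤ pv κ P y ↔ P.valuation κ x ≤ P.valuation κ y := by
  rw [pv_val, pv_val, NNReal.coe_le_coe]
  exact (WithZeroMulInt.toNNReal_strictMono one_lt_two).le_iff_le

theorem exists_unif : ∃ π : κ, π ≠ 0 ∧ pv κ P π = (2 : ℝ)⁻¹ := by
  obtain ⟨π, hπ⟩ := P.valuation_exists_uniformizer κ
  have h0 : π ≠ 0 := by
    rintro rfl
    rw [map_zero] at hπ
    exact WithZero.exp_ne_zero hπ.symm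
  refine ⟨π, h0, ?_⟩
  rw [pv_val, hπ, toNNReal_exp]
  simp

theorem pv_nontrivial : (pv κ P).IsNontrivial := by
  obtain ⟨π, h0, hπ⟩ := exists_unif (κ := κ) P
  refine ⟨π, h0, ?_⟩
  rw [hπ]
  norm_num

/-- the ultrametric inequality in the completion -/
theorem compl_nonarch (x y : (pv κ P).Completion) : ‖x + y‖ ≤ max ‖x‖ ‖y‖ := by
  refine UniformSpace.Completion.induction_on₂ x y ?_ ?_
  · exact isClosed_le (by fun_prop) (by fun_prop)
  · intro a b
    rw [← UniformSpace.Completion.coe_add, UniformSpace.Completion.norm_coe,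
      UniformSpace.Completion.norm_coe, UniformSpace.Completion.norm_coe]
    exact pv_nonarch P (WithAbs.ofAbs a) (WithAbs.ofAbs b)

/-- the integers of the completion -/
noncomputable def cInt (κ : Type) [Field κ] [Algebra R κ] [IsFractionRing R κ]
    (P : IsDedekindDomain.HeightOneSpectrum R) : ValuationSubring (pv κ P).Completion :=
  ballRing (compl_nonarch P)

theorem mem_cInt {x : (pv κ P).Completion} : x ∈ cInt κ P ↔ ‖x‖ ≤ 1 := Iff.rfl

theorem exists_close (x : (pv κ P).Completion) {ε : ℝ} (hε : 0 < ε) :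
    ∃ y : κ, ‖x - algebraMap κ (pv κ P).Completion y‖ < ε := by
  obtain ⟨_, ⟨y, rfl⟩, hy⟩ := Metric.mem_closure_iff.mp
    (denseRange_algebraMap_completion (pv κ P) x) ε hε
  exact ⟨y, by rwa [dist_eq_norm] at hy⟩

theorem norm_eq_of_close {x : (pv κ P).Completion} {y : κ}
    (h : ‖x - algebraMap κ (pv κ P).Completion y‖ < ‖x‖) : ‖x‖ = pv κ P y := by
  rw [← norm_algebraMap_completion]
  have h1 := compl_nonarch P (x - algebraMap κ (pv κ P).Completion y)
    (algebraMap κ (pv κ P).Completion y)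
  rw [sub_add_cancel] at h1
  have h2 : ‖x‖ ≤ ‖algebraMap κ (pv κ P).Completion y‖ := by
    rcases le_max_iff.mp h1 with h3 | h3
    · exact absurd h3 (not_le.mpr h)
    · exact h3
  refine le_antisymm h2 ?_
  have h4 := compl_nonarch P (-(x - algebraMap κ (pv κ P).Completion y)) x
  rw [neg_sub, sub_add_cancel] at h4
  rw [norm_sub_rev] at h
  exact h4.trans (max_le h.le le_rfl)

theorem norm_zpow {x : (pv κ P).Completion} (hx : x ≠ 0) : ∃ n : ℤ, ‖x‖ = (2 : ℝ) ^ n := by
  obtain ⟨y, hy⟩ := exists_close P x (norm_pos_iff.mpr hx)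
  have h1 := norm_eq_of_close P hy
  have hy0 : y ≠ 0 := by
    rintro rfl
    rw [map_zero] at h1
    exact hx (norm_eq_zero.mp h1)
  obtain ⟨n, hn⟩ := pv_eq_zpow P hy0
  exact ⟨n, by rw [h1, hn]⟩

theorem isUnit_cInt (x : cInt κ P) : IsUnit x ↔ ‖(x : (pv κ P).Completion)‖ = 1 := by
  constructor
  · rintro ⟨u, rfl⟩
    have h1 : ‖((u : cInt κ P) : (pv κ P).Completion)‖ ≤ 1 := (mem_cInt P).mp (u : cInt κ P).2
    have h2 : ‖(((u⁻¹ : (cInt κ P)ˣ) : cInt κ P) : (pv κ P).Completion)‖ ≤ 1 :=
      (mem_cInt P).mp ((u⁻¹ : (cInt κ P)ˣ) : cInt κ P).2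
    have h3 : ((u : cInt κ P) : (pv κ P).Completion) *
        (((u⁻¹ : (cInt κ P)ˣ) : cInt κ P) : (pv κ P).Completion) = 1 := by
      exact congrArg (fun t : cInt κ P => (t : (pv κ P).Completion)) (Units.mul_inv u)
    have h4 := congrArg norm h3
    rw [norm_mul, norm_one] at h4
    refine le_antisymm h1 ?_
    nlinarith [norm_nonneg ((u : cInt κ P) : (pv κ P).Completion)]
  · intro h
    have hx0 : (x : (pv κ P).Completion) ≠ 0 := by
      intro h0
      rw [h0, norm_zero] at h
      exact zero_ne_one h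
    have hinv : (x : (pv κ P).Completion)⁻¹ ∈ cInt κ P := by
      rw [mem_cInt, norm_inv, h, inv_one]
    refine IsUnit.of_mul_eq_one (⟨_, hinv⟩ : cInt κ P) ?_
    ext
    exact mul_inv_cancel₀ hx0

/-- elements of `R` in the integers of the completion -/
noncomputable def toInt (κ : Type) [Field κ] [Algebra R κ] [IsFractionRing R κ]
    (P : IsDedekindDomain.HeightOneSpectrum R) : R →+* cInt κ P :=
  ((algebraMap κ (pv κ P).Completion).comp (algebraMap R κ)).codRestrict (cInt κ P).toSubring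
    (by
      intro r
      show ‖algebraMap κ (pv κ P).Completion (algebraMap R κ r)‖ ≤ 1
      rw [norm_algebraMap_completion]
      exact pv_le_one P r)

theorem norm_toInt (r : R) : ‖(toInt κ P r : (pv κ P).Completion)‖ = pv κ P (algebraMap R κ r) :=
  norm_algebraMap_completion _ _

theorem residue_eq_zero_iff' (x : cInt κ P) : IsLocalRing.residue (cInt κ P) x = 0 ↔
    ‖(x : (pv κ P).Completion)‖ < 1 := by
  rw [IsLocalRing.residue_eq_zero_iff, IsLocalRing.mem_maximalIdeal, mem_nonunits_iff,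
    isUnit_cInt]
  exact ⟨fun h => lt_of_le_of_ne ((mem_cInt P).mp x.2) h, fun h => h.ne⟩

theorem residue_toInt_surj : Function.Surjective
    ((IsLocalRing.residue (cInt κ P)).comp (toInt κ P)) := by
  intro t
  obtain ⟨x, rfl⟩ := IsLocalRing.residue_surjective t
  obtain ⟨y, hy⟩ := exists_close P (x : (pv κ P).Completion) one_pos
  have hy1 : pv κ P y ≤ 1 := by
    rw [← norm_algebraMap_completion]
    have h1 := compl_nonarch P (-((x : (pv κ P).Completion) -
      algebraMap κ (pv κ P).Completion y)) (x : (pv κ P).Completion)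
    rw [neg_sub, sub_add_cancel] at h1
    rw [norm_sub_rev] at hy
    exact h1.trans (max_le hy.le ((mem_cInt P).mp x.2))
  have hy2 : P.valuation κ y ≤ 1 := by
    have := (pv_le_iff P y 1).mp (by rwa [map_one])
    rwa [map_one] at this
  obtain ⟨r, hr⟩ := P.exists_valuation_sub_lt_of_integer hy2 1
  have hr1 : pv κ P (algebraMap R κ r - y) < 1 := by
    have := (pv_lt_iff P (algebraMap R κ r - y) 1).mpr (by rw [map_one]; exact hr)
    rwa [map_one] at this
  refine ⟨r, ?_⟩
  rw [RingHom.comp_apply, ← sub_eq_zero, ← map_sub, residue_eq_zero_iff']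
  have h3 : ((toInt κ P r - x : cInt κ P) : (pv κ P).Completion) =
      algebraMap κ (pv κ P).Completion (algebraMap R κ r - y) +
        -((x : (pv κ P).Completion) - algebraMap κ (pv κ P).Completion y) := by
    have h4 : ((toInt κ P r - x : cInt κ P) : (pv κ P).Completion) =
      algebraMap κ (pv κ P).Completion (algebraMap R κ r) - x := rfl
    rw [h4, map_sub]
    ring
  rw [h3]
  refine (compl_nonarch P _ _).trans_lt (max_lt ?_ ?_)
  · rw [norm_algebraMap_completion]
    exact hr1
  · rw [norm_neg]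
    exact hy

theorem residue_toInt_ker : RingHom.ker ((IsLocalRing.residue (cInt κ P)).comp (toInt κ P)) =
    P.asIdeal := by
  ext r
  rw [RingHom.mem_ker, RingHom.comp_apply, residue_eq_zero_iff', norm_toInt, pv_lt_one_iff]

/-- the residue field of the completion -/
noncomputable def resEquiv (κ : Type) [Field κ] [Algebra R κ] [IsFractionRing R κ]
    (P : IsDedekindDomain.HeightOneSpectrum R) :
    (R ⧸ P.asIdeal) ≃+* IsLocalRing.ResidueField (cInt κ P) :=
  (Ideal.quotEquivOfEq (residue_toInt_ker (κ := κ) P).symm).trans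
    (RingHom.quotientKerEquivOfSurjective (residue_toInt_surj (κ := κ) P))

/-- completions at maximal ideals whose residue field has a separable extension of degree `d` are
bad -/
theorem bad_of_residue {h : (R ⧸ P.asIdeal)[X]} (hm : h.Monic) (hi : Irreducible h)
    (hsep : h.Separable) (hd : 2 ≤ h.natDegree) : Bad (pv κ P).Completion h.natDegree := by
  set h' := h.map (resEquiv κ P : (R ⧸ P.asIdeal) →+* IsLocalRing.ResidueField (cInt κ P))
    with hh'
  have hdeg : h'.natDegree = h.natDegree := hm.natDegree_map _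
  have hi' : Irreducible h' :=
    (MulEquiv.irreducible_iff (Polynomial.mapEquiv (resEquiv κ P))).mpr hi
  rw [← hdeg]
  obtain ⟨π, hπ0, hπ⟩ := exists_unif (κ := κ) P
  refine bad_of_unramified (cInt κ P) _ (IsLocalRing.residue (cInt κ P))
    IsLocalRing.residue_surjective
    (fun x hx => (IsLocalRing.residue_ne_zero_iff_isUnit x).mp hx) h' (hm.map _) hi'
    (hsep.map) (algebraMap κ (pv κ P).Completion π) ?_ ?_
  · rw [Ne, map_eq_zero]
    exact hπ0
  · intro a ha u hu h1
    have h2 := congrArg norm h1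
    rw [norm_algebraMap_completion, hπ, norm_mul, norm_pow, (isUnit_cInt P u).mp hu, mul_one,
      hdeg] at h2
    obtain ⟨n, hn⟩ := norm_zpow P ha
    rw [hn, ← zpow_natCast, ← zpow_mul, ← zpow_neg_one] at h2
    have h3 : (-1 : ℤ) = n * h.natDegree := zpow_right_injective₀ two_pos (by norm_num) h2
    have h4 : (h.natDegree : ℤ) ∣ 1 := ⟨-n, by linarith [mul_comm n (h.natDegree : ℤ)]⟩
    have h5 := Int.le_of_dvd one_pos h4
    omega

end

end Pool.Agent.W882.Nip3
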