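import Pool.Agent.W882.Nip3.Ded
import Pool.Agent.W882.Nip3.Bound

open Polynomial IsDedekindDomain

namespace Pool.Agent.W882.Nip3

theorem exists_mem_not_mem {R : Type} [CommRing R] [IsDedekindDomain R]
    {P Q : HeightOneSpectrum R} (h : P ≠ Q) : ∃ a ∈ P.asIdeal, a ∉ Q.asIdeal := by
  by_contra hcon
  push Not at hcon
  apply h
  ext1
  exact P.isMaximal.eq_of_le Q.isPrime.ne_top hcon

/-- the place attached to a maximal ideal -/
noncomputable def dplc {K : Type} [Field K] (O : ValuationSubring K) {R : Type} [CommRing R]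
    [IsDedekindDomain R] [Algebra R (IsLocalRing.ResidueField O)]
    [IsFractionRing R (IsLocalRing.ResidueField O)] (P : HeightOneSpectrum R) : AbsPlace K where
  O := O
  v := pv (IsLocalRing.ResidueField O) P
  nontriv := pv_nontrivial P

theorem dplc_incomp {K : Type} [Field K] (O : ValuationSubring K) {R : Type} [CommRing R]
    [IsDedekindDomain R] [Algebra R (IsLocalRing.ResidueField O)]
    [IsFractionRing R (IsLocalRing.ResidueField O)] {P Q : HeightOneSpectrum R} (h : P ≠ Q) :
    (dplc O P).Incomparable (dplc O Q) := by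
  obtain ⟨a, haP, haQ⟩ := exists_mem_not_mem h
  obtain ⟨b, hbQ, hbP⟩ := exists_mem_not_mem (Ne.symm h)
  have hv1 : ∀ (P : HeightOneSpectrum R) (r : R), r ∉ P.asIdeal →
      pv (IsLocalRing.ResidueField O) P (algebraMap R _ r) = 1 := by
    intro P r hr
    refine le_antisymm (pv_le_one P r) ?_
    by_contra h1
    push Not at h1
    exact hr ((pv_lt_one_iff P r).mp h1)
  have ha0 : algebraMap R (IsLocalRing.ResidueField O) a ≠ 0 := by
    intro h0
    have := hv1 Q a haQ
    rw [h0, map_zero] at this
    exact zero_ne_one this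
  have hb0 : algebraMap R (IsLocalRing.ResidueField O) b ≠ 0 := by
    intro h0
    have := hv1 P b hbP
    rw [h0, map_zero] at this
    exact zero_ne_one this
  obtain ⟨x, hx⟩ := IsLocalRing.residue_surjective
    (algebraMap R (IsLocalRing.ResidueField O) a / algebraMap R (IsLocalRing.ResidueField O) b)
  have hxu : IsUnit x := by
    rw [← IsLocalRing.residue_ne_zero_iff_isUnit, hx]
    exact div_ne_zero ha0 hb0
  obtain ⟨u, hu⟩ := hxu
  have hinv : ((x : K))⁻¹ = (((u⁻¹ : Oˣ) : O) : K) := by
    rw [← hu]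
    refine inv_eq_of_mul_eq_one_right ?_
    exact congrArg (fun t : O => (t : K)) (Units.mul_inv u)
  refine ⟨x, ?_, ⟨x.2, ?_⟩, ?_⟩
  · intro h0
    have h1 : x = 0 := Subtype.ext h0
    rw [h1, map_zero] at hx
    exact div_ne_zero ha0 hb0 hx.symm
  · show pv (IsLocalRing.ResidueField O) P (IsLocalRing.residue O x) < 1
    rw [hx, map_div₀, hv1 P b hbP, div_one]
    exact (pv_lt_one_iff P a).mpr haP
  · rw [hinv]
    refine ⟨((u⁻¹ : Oˣ) : O).2, ?_⟩
    show pv (IsLocalRing.ResidueField O) Q (IsLocalRing.residue O ((u⁻¹ : Oˣ) : O)) < 1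
    have h2 : IsLocalRing.residue O ((u⁻¹ : Oˣ) : O) =
        (algebraMap R (IsLocalRing.ResidueField O) a /
          algebraMap R (IsLocalRing.ResidueField O) b)⁻¹ := by
      rw [← hx, ← hu]
      refine (inv_eq_of_mul_eq_one_right ?_).symm
      rw [← map_mul, Units.mul_inv, map_one]
    rw [h2, map_inv₀, map_div₀, hv1 Q a haQ, one_div, inv_inv]
    exact (pv_lt_one_iff Q b).mpr hbQ

theorem badE_one {F : Type} [Field F] {d : ℕ} (h : Bad F d) : BadE F (0+1) d :=
  ⟨F, inferInstance, Algebra.id F, inferInstance, inferInstance, Module.finrank_self F, h⟩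

/-- only boundedly many maximal ideals of a Dedekind domain have residue fields with a separable
extension of degree `d` -/
theorem dedekind_bound {K : Type} [Field K] [FirstOrder.Ring.CompatibleRing K]
    (hK : ∀ e d, BoundedBad K e d) (d : ℕ) (hd : 2 ≤ d) :
    ∃ N : ℕ, ∀ (K' : Type) [Field K'] [FirstOrder.Ring.CompatibleRing K'],
      FirstOrder.Language.ring.ElementarilyEquivalent K K' →
      ∀ (O : ValuationSubring K') (R : Type) [CommRing R] [IsDedekindDomain R]
      [Algebra R (IsLocalRing.ResidueField O)] [IsFractionRing R (IsLocalRing.ResidueField O)],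
      Set.encard {P : HeightOneSpectrum R | ∃ h : (R ⧸ P.asIdeal)[X], h.Monic ∧ Irreducible h ∧
        h.Separable ∧ h.natDegree = d} < N := by
  obtain ⟨N, hN⟩ := hK 0 d
  refine ⟨N, fun K' _ _ hKK' O R _ _ _ _ => ?_⟩
  by_contra hcon
  push Not at hcon
  obtain ⟨T, hT, hTc⟩ := Set.exists_subset_encard_eq hcon
  have hfin : T.Finite := Set.finite_of_encard_eq_coe hTc
  have hcard : hfin.toFinset.card = N := by
    have := hfin.encard_eq_coe_toFinset_card
    rw [hTc] at this
    exact_mod_cast this.symm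
  let em : Fin N ≃ hfin.toFinset := (finCongr hcard.symm).trans hfin.toFinset.equivFin.symm
  obtain ⟨i, hi⟩ := hN K' hKK' (fun i => dplc O (em i : HeightOneSpectrum R))
    (fun i j hij => dplc_incomp O (fun h => hij (em.injective (Subtype.ext h))))
  apply hi
  have hmem : (em i : HeightOneSpectrum R) ∈ T := hfin.mem_toFinset.mp (em i).2
  obtain ⟨h, h1, h2, h3, h4⟩ := hT hmem
  refine badE_one ?_
  rw [← h4]
  exact bad_of_residue (κ := IsLocalRing.ResidueField O) _ h1 h2 h3 (by omega)

end Pool.Agent.W882.Nip3
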