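import Mathlib

namespace Pool.Agent.W882.Nip3

/-- `K` is NIP: no ring formula has the independence property in `K` (the hypothesis of
`S14569`). -/
def NIPField (K : Type) [Field K] [FirstOrder.Ring.CompatibleRing K] : Prop :=
  ∀ (m k : ℕ) (φ : FirstOrder.Language.ring.Formula (Fin m ⊕ Fin k)),
    ∃ n : ℕ, ∀ (a : Fin n → Fin m → K) (b : Finset (Fin n) → Fin k → K),
      ∃ (i : Fin n) (J : Finset (Fin n)),
        ¬ (φ.Realize (Sum.elim (a i) (b J)) ↔ i ∈ J)

/-- `K` is `NIP_n` (`n`-dependent): no ring formula has the `n`-independence property in `K`
(the hypothesis of `S14967`). -/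
def NIPnField (n : ℕ) (K : Type) [Field K] [FirstOrder.Ring.CompatibleRing K] : Prop :=
  ∀ (p q : ℕ) (φ : FirstOrder.Language.ring.Formula (Fin p ⊕ (Fin n × Fin q))),
    ¬ ∀ m : ℕ, ∃ b : Fin n → Fin m → Fin q → K, ∀ S : Set (Fin n → Fin m),
      ∃ a : Fin p → K, ∀ i : Fin n → Fin m,
        (φ.Realize (Sum.elim a (fun jl : Fin n × Fin q => b jl.1 (i jl.1) jl.2)) ↔ i ∈ S)

/-- `K` is `NTP2`: no ring formula has the tree property of the second kind in `K`. (For every
formula there is `m` such that there is no `m` by `m` array of parameters, with pairwise
inconsistent instances of the formula in each row and consistent instances along each path.) -/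
def NTP2Field (K : Type) [Field K] [FirstOrder.Ring.CompatibleRing K] : Prop :=
  ∀ (p q : ℕ) (φ : FirstOrder.Language.ring.Formula (Fin p ⊕ Fin q)),
    ∃ m : ℕ, ∀ a : Fin m → Fin m → Fin q → K,
      (∀ i j j', j ≠ j' → ¬ ∃ x : Fin p → K,
        φ.Realize (Sum.elim x (a i j)) ∧ φ.Realize (Sum.elim x (a i j'))) →
      ∃ η : Fin m → Fin m, ¬ ∃ x : Fin p → K, ∀ i, φ.Realize (Sum.elim x (a i (η i)))

/-- `F` has dimension at most one up to degree `D`: for every separable extension `M` of `F` of
degree at most `D` and every separable extension `L` of `M` of degree at most `D`, the norm map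
from `L` to `M` is surjective. -/
def DimLeOneUpTo (F : Type) [Field F] (D : ℕ) : Prop :=
  ∀ (M : Type) [Field M] [Algebra F M], FiniteDimensional F M → Algebra.IsSeparable F M →
    Module.finrank F M ≤ D →
    ∀ (L : Type) [Field L] [Algebra M L], FiniteDimensional M L → Algebra.IsSeparable M L →
      Module.finrank M L ≤ D → Function.Surjective (Algebra.norm M : L →* M)

/-- A place of `K` with values in a complete field: a valuation ring `O` of `K` (possibly `K`
itself), a field `F` which is complete with respect to a nontrivial absolute value, and a ring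
homomorphism from `O` to `F` with dense image whose kernel is the maximal ideal of `O`. (Thus `F`
is a completion of the residue field of `O`.) -/
structure Place (K : Type) [Field K] where
  O : ValuationSubring K
  F : Type
  normedField : NontriviallyNormedField F
  complete : CompleteSpace F
  res : O →+* F
  isUnit_of_res_ne_zero : ∀ x, res x ≠ 0 → IsUnit x
  denseRange : DenseRange res

attribute [instance] Place.normedField Place.complete

/-- `x` is small at the place: `x` lies in the valuation ring and the absolute value of its image
in the complete field is less than one. -/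
def Place.Small {K : Type} [Field K] (P : Place K) (x : K) : Prop :=
  ∃ h : x ∈ P.O, ‖P.res ⟨x, h⟩‖ < 1

/-- Two places are incomparable: some nonzero `x` is small at one of them and its inverse is small
at the other one. -/
def Place.Incomparable {K : Type} [Field K] (P Q : Place K) : Prop :=
  ∃ x : K, x ≠ 0 ∧ P.Small x ∧ Q.Small x⁻¹

end Pool.Agent.W882.Nip3
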