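import Mathlib

open TensorProduct

namespace Pool.Agent.W882.Nip3

/-- norm of an element of a free algebra, seen through enough homomorphisms to a field -/
theorem map_norm_eq_prod {R A F ι : Type*} [CommRing R] [CommRing A] [Algebra R A] [Field F]
    [Fintype ι] [DecidableEq ι] (b : Module.Basis ι R A) (σ : R →+* F) (τ : ι → (A →+* F))
    (hτ : ∀ a r, τ a (algebraMap R A r) = σ r)
    (hV : (Matrix.of fun a k => τ a (b k)).det ≠ 0) (z : A) :
    σ (Algebra.norm R z) = ∏ a, τ a z := by
  classical
  rw [Algebra.norm_eq_matrix_det b]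
  set M := Algebra.leftMulMatrix b z with hM
  set V : Matrix ι ι F := Matrix.of fun a k => τ a (b k) with hVdef
  have key : V * (M.map σ) = Matrix.diagonal (fun a => τ a z) * V := by
    ext a k
    rw [Matrix.mul_apply, Matrix.diagonal_mul]
    have h1 : z * b k = ∑ l, M l k • b l := by
      rw [hM]
      simp only [Algebra.leftMulMatrix_eq_repr_mul]
      exact (b.sum_repr (z * b k)).symm
    have h2 : τ a (z * b k) = ∑ l, τ a (b l) * σ (M l k) := by
      rw [h1, map_sum]
      refine Finset.sum_congr rfl fun l _ => ?_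
      rw [Algebra.smul_def, map_mul, hτ, mul_comm]
    simp only [hVdef, Matrix.of_apply, Matrix.map_apply]
    rw [← h2, map_mul]
  have hdet := congrArg Matrix.det key
  rw [Matrix.det_mul, Matrix.det_mul, Matrix.det_diagonal] at hdet
  have h3 : (M.map σ).det = σ M.det := by
    rw [← RingHom.mapMatrix_apply, RingHom.map_det]
  rw [h3, mul_comm] at hdet
  exact mul_right_cancel₀ hV hdet

/-- `A` is a `K`-algebra that splits over `F` -/
def SplitAt (K F A : Type) [CommRing K] [Field F] [Algebra K F] [CommRing A] [Algebra K A] : Prop :=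
  ∃ (d : ℕ) (b : Module.Basis (Fin d) K A) (ρ : Fin d → (A →ₐ[K] F)), 0 < d ∧
    (Matrix.of fun a k => ρ a (b k)).det ≠ 0

section Dense

variable {K F : Type} [CommRing K] [Field F] [TopologicalSpace F] [IsTopologicalRing F] [Algebra K F]

theorem dense_of_split {A : Type} [CommRing A] [Algebra K A] {d : ℕ}
    (hK : DenseRange (algebraMap K F))
    (b : Module.Basis (Fin d) K A) (ρ : Fin d → (A →ₐ[K] F))
    (hV : (Matrix.of fun a k => ρ a (b k)).det ≠ 0) :
    DenseRange (fun (z : A) (a : Fin d) => ρ a z) := by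
  classical
  set V : Matrix (Fin d) (Fin d) F := Matrix.of fun a k => ρ a (b k) with hVdef
  have h1 : DenseRange (fun (c : Fin d → K) (k : Fin d) => algebraMap K F (c k)) := by
    have := DenseRange.piMap (fun _ : Fin d => hK)
    exact this
  have hcont : Continuous (fun (w : Fin d → F) => V.mulVec w) := by
    refine continuous_pi fun a => ?_
    simp only [Matrix.mulVec, dotProduct]
    fun_prop
  have hsurj : Function.Surjective (fun (w : Fin d → F) => V.mulVec w) := by
    intro w
    refine ⟨V⁻¹.mulVec w, ?_⟩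
    simp only [Matrix.mulVec_mulVec]
    rw [Matrix.mul_nonsing_inv _ (isUnit_iff_ne_zero.mpr hV), Matrix.one_mulVec]
  have h2 := hsurj.denseRange.comp h1 hcont
  refine h2.mono ?_
  rintro _ ⟨c, rfl⟩
  refine ⟨∑ k, c k • b k, ?_⟩
  funext a
  simp only [map_sum, map_smul, Function.comp_apply, Matrix.mulVec, dotProduct, hVdef,
    Matrix.of_apply]
  refine Finset.sum_congr rfl fun k _ => ?_
  rw [Algebra.smul_def, mul_comm]

theorem dense_tensor {R A ι : Type} [CommRing R] [Algebra K R] [CommRing A] [Algebra K A] {d : ℕ}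
    (σ : ι → (R →ₐ[K] F)) (hσ : DenseRange (fun (r : R) (k : ι) => σ k r))
    (ρ : Fin d → (A →ₐ[K] F)) (hρ : DenseRange (fun (z : A) (a : Fin d) => ρ a z)) :
    DenseRange (fun (w : R ⊗[K] A) (p : ι × Fin d) =>
      Algebra.TensorProduct.productMap (σ p.1) (ρ p.2) w) := by
  classical
  have h1 : DenseRange (Pi.map (fun _ : Fin d => (fun (r : R) (k : ι) => σ k r))) :=
    DenseRange.piMap (fun _ : Fin d => hσ)
  have h2 : DenseRange (Pi.map (fun _ : Fin d => (fun (z : A) (a : Fin d) => ρ a z))) :=
    DenseRange.piMap (fun _ : Fin d => hρ)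
  have h3 := h1.prodMap h2
  set Φ : ((Fin d → (ι → F)) × (Fin d → (Fin d → F))) → (ι × Fin d → F) :=
    fun st p => ∑ a, st.1 a p.1 * st.2 a p.2 with hΦ
  have hcont : Continuous Φ := by
    refine continuous_pi fun p => ?_
    simp only [hΦ]
    fun_prop
  have hsurj : Function.Surjective Φ := by
    intro w
    refine ⟨(fun a k => w (k, a), fun a c => if a = c then 1 else 0), ?_⟩
    funext p
    simp [hΦ]
  have h4 := hsurj.denseRange.comp h3 hcont
  refine h4.mono ?_
  rintro _ ⟨⟨r, e⟩, rfl⟩
  refine ⟨∑ a, r a ⊗ₜ e a, ?_⟩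
  funext p
  simp [hΦ, Function.comp_apply, Pi.map_apply, Prod.map]

end Dense

end Pool.Agent.W882.Nip3
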