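import Pool.Agent.W882.Nip3.Wa

open Topology Filter ENNReal

namespace Pool.Agent.W882.Nip3

/-- weak approximation for pairwise separated places -/
theorem dense_inter {K : Type} [Field K] {I : Type} [Finite I] (O : I → ValuationSubring K)
    (F : I → Type) [∀ i, NormedField (F i)] (ψ : ∀ i, O i →+* F i)
    (hψ : ∀ i x, ψ i x ≠ 0 → IsUnit x) (hden : ∀ i, DenseRange (ψ i))
    (hnt : ∀ i, ∃ A : K, A ≠ 0 ∧ mu (O i) (ψ i) A < 1)
    (hsep : ∀ j i, i ≠ j → ∃ A : K, A ≠ 0 ∧ mu (O j) (ψ j) A < 1 ∧ 1 < mu (O i) (ψ i) A) :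
    DenseRange (fun (x : interO O) (i : I) => ψ i ⟨x, x.2 i⟩) := by
  classical
  have := Fintype.ofFinite I
  let inc : ∀ i, interO O →+* O i := fun i =>
    { toFun := fun x => ⟨x, x.2 i⟩
      map_one' := rfl
      map_mul' := fun _ _ => rfl
      map_zero' := rfl
      map_add' := fun _ _ => rfl }
  let ρ : interO O →+* (∀ i, F i) := RingHom.pi (fun i => (ψ i).comp (inc i))
  have hρ : ∀ x i, ρ x i = ψ i ⟨x, x.2 i⟩ := fun x i => rfl
  have hsingle : ∀ (j : I) (f : F j), (Pi.single j f : ∀ i, F i) ∈ closure (Set.range ρ) := by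
    intro j f
    rw [Metric.mem_closure_iff]
    intro ε hε
    obtain ⟨A, hA0, hAj, hA⟩ := exists_sep O F ψ j (Finset.univ.erase j) (hnt j)
      (fun i hi => hsep j i (Finset.ne_of_mem_erase hi))
    have hA' : ∀ i, i ≠ j → 1 < mu (O i) (ψ i) A := fun i hi =>
      hA i (Finset.mem_erase.mpr ⟨hi, Finset.mem_univ i⟩)
    -- approximation in `O j`
    obtain ⟨_, ⟨x, rfl⟩, hx⟩ := Metric.mem_closure_iff.mp (hden j f) (ε/3) (by positivity)
    obtain ⟨x', hx'O, hx'⟩ := approx_elt O F ψ hψ j A hAj hA' (x : K) x.2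
      (ε := ENNReal.ofReal (ε/3)) (by simpa using hε)
    have hx'j : ‖ψ j ⟨x', hx'O j⟩ - ψ j x‖ < ε/3 := by
      rw [← map_sub]
      rw [mu_of_mem (O j) (ψ j) (sub_mem (hx'O j) x.2)] at hx'
      have h1 : ‖ψ j ⟨x' - x, sub_mem (hx'O j) x.2⟩‖ < ε / 3 := by
        rw [ENNReal.lt_ofReal_iff_toReal_lt ENNReal.coe_ne_top] at hx'
        simpa using hx'
      exact h1
    set Mx : ℝ := 1 + ∑ i, ‖ψ i ⟨x', hx'O i⟩‖ with hMx
    have hM0 : ∀ i, 0 ≤ ‖ψ i ⟨x', hx'O i⟩‖ := fun i => norm_nonneg _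
    have hMpos : 0 < Mx := by
      have := Finset.sum_nonneg (fun i (_ : i ∈ Finset.univ) => hM0 i)
      linarith
    have hMi : ∀ i, ‖ψ i ⟨x', hx'O i⟩‖ ≤ Mx := by
      intro i
      have := Finset.single_le_sum (fun i _ => hM0 i) (Finset.mem_univ i)
      simp only [hMx]
      linarith
    have hδ : 0 < ε / (3 * Mx) := by positivity
    obtain ⟨r, hr1, hr2, hr3⟩ := (approx_idem O F ψ hψ j A hAj hA'
      (ε := ENNReal.ofReal (ε / (3 * Mx))) (by simpa using hδ)).exists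
    set u := (1 + A ^ r)⁻¹ with hu
    have huj : ‖ψ j ⟨u, hr1 j⟩ - 1‖ < ε / (3 * Mx) := by
      have hmem : u - 1 ∈ O j := sub_mem (hr1 j) (O j).one_mem
      rw [mu_of_mem (O j) (ψ j) hmem, ENNReal.lt_ofReal_iff_toReal_lt ENNReal.coe_ne_top] at hr2
      have h2 : ψ j ⟨u, hr1 j⟩ - 1 = ψ j ⟨u - 1, hmem⟩ := by
        rw [← map_one (ψ j), ← map_sub]
        rfl
      rw [h2]
      simpa using hr2
    have hui : ∀ i, i ≠ j → ‖ψ i ⟨u, hr1 i⟩‖ < ε / (3 * Mx) := by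
      intro i hi
      have h3 := hr3 i hi
      rw [mu_of_mem (O i) (ψ i) (hr1 i),
        ENNReal.lt_ofReal_iff_toReal_lt ENNReal.coe_ne_top] at h3
      simpa using h3
    refine ⟨ρ ⟨u * x', fun i => (O i).mul_mem _ _ (hr1 i) (hx'O i)⟩, ⟨_, rfl⟩, ?_⟩
    have hval : ∀ i, ρ ⟨u * x', fun i => (O i).mul_mem _ _ (hr1 i) (hx'O i)⟩ i =
        ψ i ⟨u, hr1 i⟩ * ψ i ⟨x', hx'O i⟩ := by
      intro i
      rw [hρ, ← map_mul]
      rfl
    rw [dist_pi_lt_iff hε]
    intro i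
    rw [hval, dist_comm, dist_eq_norm]
    by_cases hij : i = j
    · subst hij
      rw [Pi.single_eq_same]
      have hx2 : ‖ψ i x - f‖ < ε/3 := by
        rw [dist_comm, dist_eq_norm] at hx
        exact hx
      have h5 : ‖(ψ i ⟨u, hr1 i⟩ - 1) * ψ i ⟨x', hx'O i⟩‖ ≤ ε/3 := by
        rw [norm_mul]
        calc _ ≤ ε / (3 * Mx) * Mx := by
              gcongr
              exact hMi i
          _ = ε/3 := by field_simp
      calc ‖ψ i ⟨u, hr1 i⟩ * ψ i ⟨x', hx'O i⟩ - f‖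
          = ‖(ψ i ⟨u, hr1 i⟩ - 1) * ψ i ⟨x', hx'O i⟩ + (ψ i ⟨x', hx'O i⟩ - ψ i x) +
            (ψ i x - f)‖ := by
              congr 1
              ring
        _ ≤ ‖(ψ i ⟨u, hr1 i⟩ - 1) * ψ i ⟨x', hx'O i⟩‖ + ‖ψ i ⟨x', hx'O i⟩ - ψ i x‖ +
            ‖ψ i x - f‖ := norm_add₃_le
        _ < ε := by linarith
    · rw [Pi.single_eq_of_ne hij, sub_zero, norm_mul]
      calc _ ≤ ε / (3 * Mx) * Mx := by
            gcongr
            · exact (hui i hij).le
            · exact hMi i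
        _ = ε/3 := by field_simp
        _ < ε := by linarith
  intro ξ
  have h1 : ξ ∈ (ρ.range.topologicalClosure : Set (∀ i, F i)) := by
    rw [← Finset.univ_sum_single ξ]
    refine sum_mem fun j _ => ?_
    show Pi.single j (ξ j) ∈ closure (ρ.range : Set (∀ i, F i))
    rw [RingHom.coe_range]
    exact hsingle j (ξ j)
  have h2 : ξ ∈ closure (ρ.range : Set (∀ i, F i)) := h1
  rw [RingHom.coe_range] at h2
  exact h2

end Pool.Agent.W882.Nip3
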