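import Mathlib

open FirstOrder FirstOrder.Language

namespace Pool.Agent.W882.Nip3

section

variable {L : FirstOrder.Language.{0, 0}}

/-- an `n`-independence pattern of size `m` for the formula `φ` -/
def PatN (M : Type) [L.Structure M] {p q n : ℕ} (φ : L.Formula (Fin p ⊕ (Fin n × Fin q)))
    (m : ℕ) : Prop :=
  ∃ b : Fin n → Fin m → Fin q → M, ∀ S : Set (Fin n → Fin m),
    ∃ a : Fin p → M, ∀ i : Fin n → Fin m,
      (φ.Realize (Sum.elim a (fun jl : Fin n × Fin q => b jl.1 (i jl.1) jl.2)) ↔ i ∈ S)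

open Classical in
/-- a sentence expressing `PatN` -/
noncomputable def sN {p q n : ℕ} (φ : L.Formula (Fin p ⊕ (Fin n × Fin q))) (m : ℕ) :
    L.Sentence :=
  Formula.iExs (Fin n × Fin m × Fin q) (Formula.iInf (fun S : Set (Fin n → Fin m) =>
    Formula.iExs (Fin p) (Formula.iInf (fun i : Fin n → Fin m =>
      if i ∈ S then (φ.relabel (Sum.elim Sum.inr (fun jl => Sum.inl (Sum.inr (jl.1, i jl.1, jl.2)))) :
        L.Formula ((Empty ⊕ (Fin n × Fin m × Fin q)) ⊕ Fin p))
      else Formula.not (φ.relabel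
        (Sum.elim Sum.inr (fun jl => Sum.inl (Sum.inr (jl.1, i jl.1, jl.2)))) :
        L.Formula ((Empty ⊕ (Fin n × Fin m × Fin q)) ⊕ Fin p))))))

theorem realize_sN (M : Type) [L.Structure M] {p q n : ℕ}
    (φ : L.Formula (Fin p ⊕ (Fin n × Fin q))) (m : ℕ) : M ⊨ sN φ m ↔ PatN M φ m := by
  classical
  have key : ∀ (b : Fin n × Fin m × Fin q → M) (a : Fin p → M) (i : Fin n → Fin m),
      (φ.relabel (Sum.elim Sum.inr (fun jl => Sum.inl (Sum.inr (jl.1, i jl.1, jl.2)))) :
        L.Formula ((Empty ⊕ (Fin n × Fin m × Fin q)) ⊕ Fin p)).Realize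
        (Sum.elim (Sum.elim default b) a) ↔
      φ.Realize (Sum.elim a (fun jl : Fin n × Fin q => b (jl.1, i jl.1, jl.2))) := by
    intro b a i
    rw [Formula.realize_relabel]
    have : (Sum.elim (Sum.elim (default : Empty → M) b) a) ∘
        (Sum.elim Sum.inr (fun jl => Sum.inl (Sum.inr (jl.1, i jl.1, jl.2)))) =
        Sum.elim a (fun jl : Fin n × Fin q => b (jl.1, i jl.1, jl.2)) := by
      funext t
      rcases t with t | t <;> rfl
    rw [this]
  rw [Sentence.Realize, sN, Formula.realize_iExs]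
  simp only [Formula.realize_iInf, Formula.realize_iExs]
  constructor
  · rintro ⟨b, hb⟩
    refine ⟨fun j i l => b (j, i, l), fun S => ?_⟩
    obtain ⟨a, ha⟩ := hb S
    refine ⟨a, fun i => ?_⟩
    have h1 := ha i
    by_cases hi : i ∈ S
    · rw [if_pos hi, key] at h1
      exact ⟨fun _ => hi, fun _ => h1⟩
    · rw [if_neg hi, Formula.realize_not, key] at h1
      exact ⟨fun h => absurd h h1, fun h => absurd h hi⟩
  · rintro ⟨b, hb⟩
    refine ⟨fun t => b t.1 t.2.1 t.2.2, fun S => ?_⟩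
    obtain ⟨a, ha⟩ := hb S
    refine ⟨a, fun i => ?_⟩
    by_cases hi : i ∈ S
    · rw [if_pos hi, key]
      exact (ha i).mpr hi
    · rw [if_neg hi, Formula.realize_not, key]
      exact fun h => hi ((ha i).mp h)

/-- an array of size `m` for the tree property of the second kind -/
def PatT (M : Type) [L.Structure M] {p q : ℕ} (φ : L.Formula (Fin p ⊕ Fin q)) (m : ℕ) : Prop :=
  ∃ a : Fin m → Fin m → Fin q → M,
    (∀ i j j', j ≠ j' → ¬ ∃ x : Fin p → M,
      φ.Realize (Sum.elim x (a i j)) ∧ φ.Realize (Sum.elim x (a i j'))) ∧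
    ∀ η : Fin m → Fin m, ∃ x : Fin p → M, ∀ i, φ.Realize (Sum.elim x (a i (η i)))

/-- relabelled formula -/
noncomputable def rT {p q m : ℕ} (φ : L.Formula (Fin p ⊕ Fin q)) (i j : Fin m) :
    L.Formula ((Empty ⊕ (Fin m × Fin m × Fin q)) ⊕ Fin p) :=
  φ.relabel (Sum.elim Sum.inr (fun l => Sum.inl (Sum.inr (i, j, l))))

open Classical in
/-- a sentence expressing `PatT` -/
noncomputable def sT {p q : ℕ} (φ : L.Formula (Fin p ⊕ Fin q)) (m : ℕ) : L.Sentence :=
  Formula.iExs (Fin m × Fin m × Fin q)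
    ((Formula.iInf (fun t : Fin m × Fin m × Fin m => if t.2.1 = t.2.2 then ⊤ else
      Formula.not (Formula.iExs (Fin p) (rT φ t.1 t.2.1 ⊓ rT φ t.1 t.2.2)))) ⊓
    (Formula.iInf (fun η : Fin m → Fin m =>
      Formula.iExs (Fin p) (Formula.iInf (fun i : Fin m => rT φ i (η i))))))

theorem realize_sT (M : Type) [L.Structure M] {p q : ℕ}
    (φ : L.Formula (Fin p ⊕ Fin q)) (m : ℕ) : M ⊨ sT φ m ↔ PatT M φ m := by
  classical
  have key : ∀ (b : Fin m × Fin m × Fin q → M) (x : Fin p → M) (i j : Fin m),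
      (rT φ i j).Realize (Sum.elim (Sum.elim default b) x) ↔
      φ.Realize (Sum.elim x (fun l => b (i, j, l))) := by
    intro b x i j
    rw [rT, Formula.realize_relabel]
    have : (Sum.elim (Sum.elim (default : Empty → M) b) x) ∘
        (Sum.elim Sum.inr (fun l => Sum.inl (Sum.inr (i, j, l)))) =
        Sum.elim x (fun l => b (i, j, l)) := by
      funext t
      rcases t with t | t <;> rfl
    rw [this]
  rw [Sentence.Realize, sT, Formula.realize_iExs]
  simp only [Formula.realize_iInf, Formula.realize_iExs, Formula.realize_inf, key]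
  constructor
  · rintro ⟨b, hb1, hb2⟩
    refine ⟨fun i j l => b (i, j, l), ?_, hb2⟩
    intro i j j' hj
    have h1 := hb1 (i, j, j')
    rw [if_neg hj, Formula.realize_not, Formula.realize_iExs] at h1
    simp only [Formula.realize_inf, key] at h1
    exact h1
  · rintro ⟨b, hb1, hb2⟩
    refine ⟨fun t => b t.1 t.2.1 t.2.2, ?_, hb2⟩
    rintro ⟨i, j, j'⟩
    by_cases hj : j = j'
    · rw [if_pos hj]
      simp
    · rw [if_neg hj, Formula.realize_not, Formula.realize_iExs]
      simp only [Formula.realize_inf, key]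
      exact hb1 i j j' hj

theorem patN_congr {M M' : Type} [L.Structure M] [L.Structure M'] (h : M ≅[L] M') {p q n : ℕ}
    (φ : L.Formula (Fin p ⊕ (Fin n × Fin q))) (m : ℕ) : PatN M φ m ↔ PatN M' φ m := by
  rw [← realize_sN, ← realize_sN]
  exact elementarilyEquivalent_iff.mp h _

theorem patT_congr {M M' : Type} [L.Structure M] [L.Structure M'] (h : M ≅[L] M') {p q : ℕ}
    (φ : L.Formula (Fin p ⊕ Fin q)) (m : ℕ) : PatT M φ m ↔ PatT M' φ m := by
  rw [← realize_sT, ← realize_sT]
  exact elementarilyEquivalent_iff.mp h _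

end

end Pool.Agent.W882.Nip3
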