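import Pool.Agent.W882.Nip3.Places

open FirstOrder FirstOrder.Language FirstOrder.Ring Polynomial

namespace Pool.Agent.W882.Nip3

/-- `x` times a norm, in coordinates -/
noncomputable def mulNrm {S : Type} [CommRing S] [Nontrivial S] {d e : ℕ} (g x : Fin (e+1) → S)
    (y z : Fin d → Fin (e+1) → S) : Alg (e+1) g :=
  elt g x * nrmElt d (fun j => elt g (y j)) (fun j => elt g (z j))

theorem algMap_mulNrm {S S' : Type} [CommRing S] [Nontrivial S] [CommRing S'] [Nontrivial S']
    (σ : S →+* S') {d e : ℕ} (g x : Fin (e+1) → S) (y z : Fin d → Fin (e+1) → S) :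
    algMap σ (e+1) g (mulNrm g x y z) = mulNrm (fun k => σ (g k)) (fun k => σ (x k))
      (fun j k => σ (y j k)) (fun j k => σ (z j k)) := by
  rw [mulNrm, mulNrm, map_mul, map_nrmElt, algMap_elt]
  simp only [algMap_elt]

theorem repr_mulNrm {S S' : Type} [CommRing S] [Nontrivial S] [CommRing S'] [Nontrivial S']
    (σ : S →+* S') {d e : ℕ} (g x : Fin (e+1) → S) (y z : Fin d → Fin (e+1) → S)
    (k : Fin (e+1)) :
    (algBasis (e+1) (fun k => σ (g k))).repr (mulNrm (fun k => σ (g k)) (fun k => σ (x k))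
      (fun j k => σ (y j k)) (fun j k => σ (z j k))) k =
      σ ((algBasis (e+1) g).repr (mulNrm g x y z) k) := by
  rw [← algMap_mulNrm]
  exact repr_compat σ (algMap σ (e+1) g) (algMap_algebraMap σ (e+1) g) (algBasis (e+1) g)
    (algBasis (e+1) (fun k => σ (g k))) (algMap_basis σ (e+1) g) _ k

theorem repr_congr2 {S : Type} [CommRing S] [Nontrivial S] {d e : ℕ} {g g' x x' : Fin (e+1) → S}
    {y z y' z' : Fin d → Fin (e+1) → S} (hg : g' = g) (hx : x' = x) (hy : y' = y) (hz : z' = z)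
    (k : Fin (e+1)) : (algBasis (e+1) g').repr (mulNrm g' x' y' z') k =
      (algBasis (e+1) g).repr (mulNrm g x y z) k := by
  subst hg hx hy hz
  rfl

/-- parameters of the formula `fT` -/
abbrev QT (d e : ℕ) : Type := Fin (e+1) ⊕ (Fin (e+1) ⊕ (Fin d × Fin (e+1)))

/-- the formula: `x` times a norm from the algebra `y` is `b` -/
noncomputable def fT (d e : ℕ) : FirstOrder.Language.ring.Formula (Fin (e+1) ⊕ QT d e) :=
  Formula.iExs (Fin d × Fin (e+1)) (Formula.iInf (fun k : Fin (e+1) =>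
    Term.equal (termOfFreeCommRing ((algBasis (e+1) _).repr (mulNrm
      (fun k => (FreeCommRing.of (Sum.inl (Sum.inr (Sum.inl k))) :
        FreeCommRing ((Fin (e+1) ⊕ QT d e) ⊕ (Fin d × Fin (e+1)))))
      (fun k => FreeCommRing.of (Sum.inl (Sum.inl k)))
      (fun j k => FreeCommRing.of (Sum.inl (Sum.inr (Sum.inr (Sum.inr (j, k))))))
      (fun j k => FreeCommRing.of (Sum.inr (j, k)))) k))
    (termOfFreeCommRing (FreeCommRing.of (Sum.inl (Sum.inr (Sum.inr (Sum.inl k))))))))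

theorem realize_fT {K : Type} [Field K] [FirstOrder.Ring.CompatibleRing K] (d e : ℕ)
    (g x b : Fin (e+1) → K) (y : Fin d → Fin (e+1) → K) :
    (fT d e).Realize (Sum.elim x (Sum.elim g (Sum.elim b (fun p => y p.1 p.2)))) ↔
      ∃ z : Fin d → Fin (e+1) → K, mulNrm g x y z = elt g b := by
  have key : ∀ z : Fin d × Fin (e+1) → K,
      (Formula.iInf (fun k : Fin (e+1) =>
        Term.equal (termOfFreeCommRing ((algBasis (e+1) _).repr (mulNrm
          (fun k => (FreeCommRing.of (Sum.inl (Sum.inr (Sum.inl k))) :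
            FreeCommRing ((Fin (e+1) ⊕ QT d e) ⊕ (Fin d × Fin (e+1)))))
          (fun k => FreeCommRing.of (Sum.inl (Sum.inl k)))
          (fun j k => FreeCommRing.of (Sum.inl (Sum.inr (Sum.inr (Sum.inr (j, k))))))
          (fun j k => FreeCommRing.of (Sum.inr (j, k)))) k))
        (termOfFreeCommRing (FreeCommRing.of (Sum.inl (Sum.inr (Sum.inr (Sum.inl k)))))))).Realize
        (Sum.elim (Sum.elim x (Sum.elim g (Sum.elim b (fun p => y p.1 p.2)))) z) ↔
      mulNrm g x y (fun j k => z (j, k)) = elt g b := by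
    intro z
    rw [Formula.realize_iInf]
    have h1 : mulNrm g x y (fun j k => z (j, k)) = elt g b ↔ ∀ k,
        (algBasis (e+1) g).repr (mulNrm g x y (fun j k => z (j, k))) k = b k := by
      constructor
      · intro h k
        rw [h, repr_elt]
      · intro h
        apply (algBasis (e+1) g).repr.injective
        ext k
        rw [h k, repr_elt]
    rw [h1]
    refine forall_congr' fun k => ?_
    rw [Formula.realize_equal, realize_termOfFreeCommRing, realize_termOfFreeCommRing,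
      FreeCommRing.lift_of]
    rw [← repr_mulNrm]
    rw [repr_congr2 (g := g) (x := x) (y := y) (z := fun j k => z (j, k))
      (by funext k; simp only [FreeCommRing.lift_of, Sum.elim_inl, Sum.elim_inr])
      (by funext k; simp only [FreeCommRing.lift_of, Sum.elim_inl, Sum.elim_inr])
      (by funext j k; simp only [FreeCommRing.lift_of, Sum.elim_inl, Sum.elim_inr])
      (by funext j k; simp only [FreeCommRing.lift_of, Sum.elim_inr])]
    simp only [Sum.elim_inl, Sum.elim_inr]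
  rw [fT, Formula.realize_iExs]
  constructor
  · rintro ⟨z, hz⟩
    exact ⟨_, (key z).mp hz⟩
  · rintro ⟨z, hz⟩
    exact ⟨fun p => z p.1 p.2, (key _).mpr hz⟩

/-- norms, in coordinates -/
theorem norm_coord {K : Type} [Field K] {d e : ℕ} (g : Fin (e+1) → K) (c : Fin d → Alg (e+1) g)
    (y : Fin d → Fin (e+1) → K) (hy : ∀ j, elt g (y j) = c j) (v : Alg (e+1) g) :
    (∃ z : Alg d c, Algebra.norm (Alg (e+1) g) z = v) ↔
      ∃ z : Fin d → Fin (e+1) → K,
        nrmElt d (fun j => elt g (y j)) (fun j => elt g (z j)) = v := by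
  have hc : (fun j => elt g (y j)) = c := by
    funext j
    exact hy j
  rw [hc]
  constructor
  · rintro ⟨z, hz⟩
    choose w hw using fun j : Fin d => exists_elt g ((algBasis d c).repr z j)
    refine ⟨w, ?_⟩
    rw [nrmElt]
    simp only [hw]
    rw [(algBasis d c).sum_repr, hz]
  · rintro ⟨z, hz⟩
    exact ⟨_, hz⟩

/-- inverses of norms which are units are norms -/
theorem norm_inv_unit {R A : Type} [CommRing R] [CommRing A] [Algebra R A] [Module.Finite R A]
    [Module.Free R A] (u : Rˣ) (h : ∃ z : A, Algebra.norm R z = u) :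
    ∃ z : A, Algebra.norm R z = ((u⁻¹ : Rˣ) : R) := by
  obtain ⟨z, hz⟩ := h
  obtain ⟨w, hw⟩ := isUnit_of_norm (R := R) z (by rw [hz]; exact u.isUnit)
  refine ⟨((w⁻¹ : Aˣ) : A), ?_⟩
  have h1 : Algebra.norm R ((w⁻¹ : Aˣ) : A) * u = 1 := by
    rw [← hz, ← map_mul, ← hw, Units.inv_mul, map_one]
  exact eq_comm.mp (Units.inv_eq_of_mul_eq_one_left h1)

/-- the formula with numbered variables -/
noncomputable def fT' (d e : ℕ) :
    FirstOrder.Language.ring.Formula (Fin (e+1) ⊕ Fin (Fintype.card (QT d e))) :=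
  (fT d e).relabel (Sum.map id (Fintype.equivFin (QT d e)) : (Fin (e+1) ⊕ QT d e) → _)

/-- the patterns giving the tree property of the second kind -/
theorem no_pattern2_of {K : Type} [Field K] [FirstOrder.Ring.CompatibleRing K]
    {d e m : ℕ} (hK : ¬ PatT K (fT' d e) m) (g : Fin (e+1) → K)
    (c : Fin m ⊕ (Fin m × Fin m) → Fin d → Alg (e+1) g)
    (x : Fin m × Fin m → (Alg (e+1) g)ˣ) (H : Fin m × Fin m → Subgroup (Alg (e+1) g)ˣ)
    (h1 : ∀ J i, J.1 ≠ i → ∃ z : Alg d (c (Sum.inl i)), Algebra.norm (Alg (e+1) g) z = x J)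
    (h2 : ∀ J J', J ≠ J' → ∃ z : Alg d (c (Sum.inr J')), Algebra.norm (Alg (e+1) g) z = x J)
    (h3 : ∀ J : Fin m × Fin m, ∀ u : (Alg (e+1) g)ˣ,
        (∃ z : Alg d (c (Sum.inl J.1)), Algebra.norm (Alg (e+1) g) z = u) → u ∈ H J)
    (h4 : ∀ J : Fin m × Fin m, ∀ u : (Alg (e+1) g)ˣ,
        (∃ z : Alg d (c (Sum.inr J)), Algebra.norm (Alg (e+1) g) z = u) → u ∈ H J) :
    ¬ (∀ J, x J ∉ H J) := by
  classical
  let ε : QT d e ≃ Fin (Fintype.card (QT d e)) := Fintype.equivFin _
  have hm : ∀ a : Fin m → Fin m → Fin (Fintype.card (QT d e)) → K,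
      (∀ i j j', j ≠ j' → ¬ ∃ x : Fin (e+1) → K,
        (fT' d e).Realize (Sum.elim x (a i j)) ∧ (fT' d e).Realize (Sum.elim x (a i j'))) →
      ∃ η : Fin m → Fin m, ¬ ∃ x : Fin (e+1) → K, ∀ i,
        (fT' d e).Realize (Sum.elim x (a i (η i))) := by
    intro a ha
    by_contra hcon
    push Not at hcon
    exact hK ⟨a, ha, hcon⟩
  intro h5
  have hre : ∀ (X : Fin (e+1) → K) (b : Fin (e+1) → K) (y : Fin d → Fin (e+1) → K),
      (fT' d e).Realize
        (Sum.elim X ((Sum.elim g (Sum.elim b (fun p => y p.1 p.2))) ∘ ε.symm)) ↔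
      ∃ z : Fin d → Fin (e+1) → K, mulNrm g X y z = elt g b := by
    intro X b y
    rw [fT', Formula.realize_relabel, ← realize_fT]
    have : (Sum.elim X ((Sum.elim g (Sum.elim b (fun p => y p.1 p.2))) ∘ ε.symm)) ∘
        (Sum.map id ε : (Fin (e+1) ⊕ QT d e) → _) =
        Sum.elim X (Sum.elim g (Sum.elim b (fun p => y p.1 p.2))) := by
      funext t
      rcases t with t | t
      · rfl
      · simp
    rw [this]
  choose y hy using fun (i : Fin m) (j : Fin d) => exists_elt g (c (Sum.inl i) j)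
  choose b hb using fun J : Fin m × Fin m => exists_elt g (x J : Alg (e+1) g)
  have hdis : ∀ J J' : Fin m × Fin m, J ≠ J' → x J' ∈ H J := fun J J' hJ =>
    h4 J _ (h2 J' J (Ne.symm hJ))
  obtain ⟨η, hη⟩ := hm (fun i j => (Sum.elim g (Sum.elim (b (i, j))
      (fun p => y i p.1 p.2))) ∘ ε.symm) (by
    rintro i j j' hjj ⟨X, hX1, hX2⟩
    rw [hre] at hX1 hX2
    obtain ⟨z, hz⟩ := hX1
    obtain ⟨z', hz'⟩ := hX2
    rw [hb, mulNrm] at hz hz'
    have hu1 := (Units.isUnit (x (i, j)))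
    rw [← hz] at hu1
    have hu2 := (Units.isUnit (x (i, j')))
    rw [← hz'] at hu2
    obtain ⟨X0, hX0⟩ := isUnit_of_mul_isUnit_left hu1
    obtain ⟨n1, hn1⟩ := isUnit_of_mul_isUnit_right hu1
    obtain ⟨n2, hn2⟩ := isUnit_of_mul_isUnit_right hu2
    have e1 : X0 * n1 = x (i, j) := by
      ext
      rw [Units.val_mul, hX0, hn1, hz]
    have e2 : X0 * n2 = x (i, j') := by
      ext
      rw [Units.val_mul, hX0, hn2, hz']
    have hn1H : n1 ∈ H (i, j) := h3 (i, j) n1 ((norm_coord g _ (y i) (hy i) _).mpr ⟨z, hn1.symm⟩)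
    have hn2H : n2 ∈ H (i, j) := h3 (i, j) n2 ((norm_coord g _ (y i) (hy i) _).mpr ⟨z', hn2.symm⟩)
    apply h5 (i, j)
    have e3 : x (i, j) = x (i, j') * n2⁻¹ * n1 := by
      rw [← e1, ← e2]
      group
    rw [e3]
    refine Subgroup.mul_mem _ (Subgroup.mul_mem _ (hdis _ _ ?_) (Subgroup.inv_mem _ hn2H)) hn1H
    intro h
    exact hjj (Prod.ext_iff.mp h).2)
  apply hη
  obtain ⟨X, hX⟩ := exists_elt g ((∏ i, x (i, η i) : (Alg (e+1) g)ˣ) : Alg (e+1) g)
  refine ⟨X, fun i => ?_⟩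
  rw [hre, hb]
  have : Module.Finite (Alg (e+1) g) (Alg d (c (Sum.inl i))) := Module.Finite.of_basis
    (algBasis d _)
  have : Module.Free (Alg (e+1) g) (Alg d (c (Sum.inl i))) := Module.Free.of_basis (algBasis d _)
  -- the other factors are norms
  have hn : ∃ z : Alg d (c (Sum.inl i)), Algebra.norm (Alg (e+1) g) z =
      ((∏ i' ∈ Finset.univ.erase i, x (i', η i') : (Alg (e+1) g)ˣ) : Alg (e+1) g) := by
    choose z hz using fun i' : Fin m => (fun h : i' ≠ i => h1 (i', η i') i h)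
    refine ⟨∏ i' ∈ (Finset.univ.erase i).attach, z i'.1 (Finset.ne_of_mem_erase i'.2), ?_⟩
    rw [map_prod, Units.coe_prod]
    rw [← Finset.prod_attach (Finset.univ.erase i)]
    exact Finset.prod_congr rfl fun i' _ => hz i'.1 _
  obtain ⟨z, hz⟩ := (norm_coord g _ (y i) (hy i) _).mp (norm_inv_unit _ hn)
  refine ⟨z, ?_⟩
  rw [mulNrm, hX, hz, ← Units.val_mul]
  congr 1
  rw [← Finset.mul_prod_erase Finset.univ _ (Finset.mem_univ i)]
  simp

end Pool.Agent.W882.Nip3
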