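import Pool.Agent.W882.Nip3.Dense
import Pool.Agent.W882.Nip3.TP2

open Topology Filter Polynomial TensorProduct ENNReal

namespace Pool.Agent.W882.Nip3

/-- A place of `K`: a valuation ring `O` of `K` (possibly `K` itself) together with a nontrivial
absolute value on its residue field. -/
structure AbsPlace (K : Type) [Field K] where
  O : ValuationSubring K
  v : AbsoluteValue (IsLocalRing.ResidueField O) ℝ
  nontriv : v.IsNontrivial

/-- `x` is small at the place: `x` lies in the valuation ring and its residue has absolute value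
less than one. -/
def AbsPlace.Small {K : Type} [Field K] (P : AbsPlace K) (x : K) : Prop :=
  ∃ h : x ∈ P.O, P.v (IsLocalRing.residue P.O ⟨x, h⟩) < 1

/-- Two places are incomparable: some nonzero `x` is small at one of them and its inverse is small
at the other one. -/
def AbsPlace.Incomparable {K : Type} [Field K] (P Q : AbsPlace K) : Prop :=
  ∃ x : K, x ≠ 0 ∧ P.Small x ∧ Q.Small x⁻¹

/-- the completion at a nontrivial absolute value is a nontrivially normed field -/
noncomputable abbrev nnf {K : Type} [Field K] (v : AbsoluteValue K ℝ) (hv : v.IsNontrivial) :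
    NontriviallyNormedField v.Completion :=
  { (inferInstance : NormedField v.Completion) with
    non_trivial := by
      obtain ⟨a, ha⟩ := hv.exists_abv_gt_one
      refine ⟨((WithAbs.toAbs v a : WithAbs v) : v.Completion), ?_⟩
      rw [UniformSpace.Completion.norm_coe]
      exact ha }

theorem norm_algebraMap_completion {k : Type} [Field k] (v : AbsoluteValue k ℝ) (a : k) :
    ‖algebraMap k v.Completion a‖ = v a := by
  have : algebraMap k v.Completion a = ((WithAbs.toAbs v a : WithAbs v) : v.Completion) := rfl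
  rw [this, UniformSpace.Completion.norm_coe]
  rfl

theorem denseRange_algebraMap_completion {k : Type} [Field k] (v : AbsoluteValue k ℝ) :
    DenseRange (algebraMap k v.Completion) := by
  have h1 : DenseRange ((↑) : WithAbs v → v.Completion) := UniformSpace.Completion.denseRange_coe
  refine h1.mono ?_
  rintro _ ⟨a, rfl⟩
  exact ⟨WithAbs.ofAbs a, rfl⟩

section

variable {K : Type} [Field K]

/-- the map from the valuation ring to the completion of the residue field -/
noncomputable def AbsPlace.psi (P : AbsPlace K) : P.O →+* P.v.Completion :=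
  (algebraMap (IsLocalRing.ResidueField P.O) P.v.Completion).comp (IsLocalRing.residue P.O)

theorem AbsPlace.psi_unit (P : AbsPlace K) (x : P.O) (h : P.psi x ≠ 0) : IsUnit x := by
  rw [← IsLocalRing.residue_ne_zero_iff_isUnit]
  intro h1
  apply h
  rw [AbsPlace.psi, RingHom.comp_apply, h1, map_zero]

theorem AbsPlace.psi_dense (P : AbsPlace K) : DenseRange P.psi := by
  refine (denseRange_algebraMap_completion P.v).mono ?_
  rintro _ ⟨a, rfl⟩
  obtain ⟨x, rfl⟩ := IsLocalRing.residue_surjective a
  exact ⟨x, rfl⟩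

theorem AbsPlace.mu_lt_one_iff (P : AbsPlace K) (x : K) : mu P.O P.psi x < 1 ↔ P.Small x := by
  constructor
  · intro h
    have hx : x ∈ P.O := (mu_lt_top P.O P.psi).mp (h.trans ENNReal.one_lt_top)
    refine ⟨hx, ?_⟩
    rw [mu_of_mem P.O P.psi hx] at h
    have h1 : ‖P.psi ⟨x, hx⟩‖₊ < 1 := by exact_mod_cast h
    have h2 : ‖P.psi ⟨x, hx⟩‖ < 1 := by exact_mod_cast h1
    rwa [AbsPlace.psi, RingHom.comp_apply, norm_algebraMap_completion] at h2
  · rintro ⟨hx, h⟩
    rw [mu_of_mem P.O P.psi hx]
    have h2 : ‖P.psi ⟨x, hx⟩‖ < 1 := by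
      rwa [AbsPlace.psi, RingHom.comp_apply, norm_algebraMap_completion]
    have h1 : ‖P.psi ⟨x, hx⟩‖₊ < 1 := by exact_mod_cast h2
    exact_mod_cast h1

theorem AbsPlace.one_lt_mu_iff (P : AbsPlace K) {x : K} (hx : x ≠ 0) :
    1 < mu P.O P.psi x ↔ P.Small x⁻¹ := by
  rw [← AbsPlace.mu_lt_one_iff, mu_inv P.O P.psi P.psi_unit hx]
  exact ENNReal.inv_lt_one.symm

theorem AbsPlace.exists_small (P : AbsPlace K) : ∃ x : K, x ≠ 0 ∧ P.Small x := by
  obtain ⟨a, ha0, ha⟩ := P.nontriv.exists_abv_lt_one
  obtain ⟨x, rfl⟩ := IsLocalRing.residue_surjective a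
  refine ⟨x, ?_, x.2, ha⟩
  intro h
  apply ha0
  have : x = 0 := Subtype.ext h
  rw [this, map_zero]

theorem AbsPlace.Incomparable.symm {P Q : AbsPlace K} (h : P.Incomparable Q) : Q.Incomparable P := by
  obtain ⟨x, hx, h1, h2⟩ := h
  exact ⟨x⁻¹, inv_ne_zero hx, h2, by rwa [inv_inv]⟩

end

end Pool.Agent.W882.Nip3
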