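import Pool.Agent.W882.Nip3.Poly
import Pool.Agent.W882.Nip3.Elem
import Pool.Agent.W882.Nip3.Defs

open FirstOrder FirstOrder.Language FirstOrder.Ring Polynomial

namespace Pool.Agent.W882.Nip3

instance nontrivial_alg {S : Type} [CommRing S] [Nontrivial S] (e : ℕ) (g : Fin (e+1) → S) :
    Nontrivial (Alg (e+1) g) :=
  ⟨⟨algBasis (e+1) g 0, 0, (algBasis (e+1) g).ne_zero 0⟩⟩

instance nontrivial_free (α : Type) : Nontrivial (FreeCommRing α) :=
  (FreeCommRing.lift (fun _ => (0 : ℤ)) : FreeCommRing α →+* ℤ).domain_nontrivial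

/-- norm of the element with coordinates `w` in `B[X]/(f)`, `f` with coefficients `h` -/
noncomputable def nrmElt {B : Type} [CommRing B] [Nontrivial B] (d : ℕ) (h w : Fin d → B) : B :=
  Algebra.norm B (∑ j, w j • algBasis d h j)

theorem map_nrmElt {B B' : Type} [CommRing B] [Nontrivial B] [CommRing B'] [Nontrivial B']
    (σ : B →+* B') (d : ℕ) (h w : Fin d → B) :
    σ (nrmElt d h w) = nrmElt d (fun j => σ (h j)) (fun j => σ (w j)) := by
  classical
  rw [nrmElt, ← norm_compat σ (algMap σ d h) (algMap_algebraMap σ d h) (algBasis d h)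
    (algBasis d (fun j => σ (h j))) (algMap_basis σ d h), nrmElt]
  congr 1
  rw [map_sum]
  refine Finset.sum_congr rfl fun j _ => ?_
  rw [Algebra.smul_def, map_mul, algMap_algebraMap, algMap_basis, Algebra.smul_def]

/-- element with coordinates `w` -/
noncomputable def elt {S : Type} [CommRing S] [Nontrivial S] {e : ℕ} (g w : Fin (e+1) → S) :
    Alg (e+1) g := ∑ k, w k • algBasis (e+1) g k

theorem algMap_elt {S S' : Type} [CommRing S] [Nontrivial S] [CommRing S'] [Nontrivial S']
    (σ : S →+* S') {e : ℕ} (g w : Fin (e+1) → S) :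
    algMap σ (e+1) g (elt g w) = elt (fun k => σ (g k)) (fun k => σ (w k)) := by
  rw [elt, elt, map_sum]
  refine Finset.sum_congr rfl fun j _ => ?_
  rw [Algebra.smul_def, map_mul, algMap_algebraMap, algMap_basis, Algebra.smul_def]

theorem exists_elt {S : Type} [CommRing S] [Nontrivial S] {e : ℕ} (g : Fin (e+1) → S)
    (b : Alg (e+1) g) : ∃ w, elt g w = b :=
  ⟨fun k => (algBasis (e+1) g).repr b k, (algBasis (e+1) g).sum_repr b⟩

theorem repr_elt {S : Type} [CommRing S] [Nontrivial S] {e : ℕ} (g w : Fin (e+1) → S)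
    (k : Fin (e+1)) : (algBasis (e+1) g).repr (elt g w) k = w k := by
  rw [elt, Module.Basis.repr_sum_self]

/-- product of norms -/
noncomputable def prodNrm {S : Type} [CommRing S] [Nontrivial S] {n d e : ℕ} (g : Fin (e+1) → S)
    (y z : Fin n → Fin d → Fin (e+1) → S) : Alg (e+1) g :=
  ∏ r, nrmElt d (fun j => elt g (y r j)) (fun j => elt g (z r j))

theorem algMap_prodNrm {S S' : Type} [CommRing S] [Nontrivial S] [CommRing S'] [Nontrivial S']
    (σ : S →+* S') {n d e : ℕ} (g : Fin (e+1) → S) (y z : Fin n → Fin d → Fin (e+1) → S) :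
    algMap σ (e+1) g (prodNrm g y z) = prodNrm (fun k => σ (g k)) (fun r j k => σ (y r j k))
      (fun r j k => σ (z r j k)) := by
  rw [prodNrm, prodNrm, map_prod]
  refine Finset.prod_congr rfl fun r _ => ?_
  rw [map_nrmElt]
  simp only [algMap_elt]

theorem repr_prodNrm {S S' : Type} [CommRing S] [Nontrivial S] [CommRing S'] [Nontrivial S']
    (σ : S →+* S') {n d e : ℕ} (g : Fin (e+1) → S) (y z : Fin n → Fin d → Fin (e+1) → S)
    (k : Fin (e+1)) :
    (algBasis (e+1) (fun k => σ (g k))).repr (prodNrm (fun k => σ (g k))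
      (fun r j k => σ (y r j k)) (fun r j k => σ (z r j k))) k =
      σ ((algBasis (e+1) g).repr (prodNrm g y z) k) := by
  rw [← algMap_prodNrm]
  exact repr_compat σ (algMap σ (e+1) g) (algMap_algebraMap σ (e+1) g) (algBasis (e+1) g)
    (algBasis (e+1) (fun k => σ (g k))) (algMap_basis σ (e+1) g) _ k

theorem repr_congr {S : Type} [CommRing S] [Nontrivial S] {n d e : ℕ} {g g' : Fin (e+1) → S}
    {y z y' z' : Fin n → Fin d → Fin (e+1) → S} (hg : g' = g) (hy : y' = y) (hz : z' = z)
    (k : Fin (e+1)) : (algBasis (e+1) g').repr (prodNrm g' y' z') k =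
      (algBasis (e+1) g).repr (prodNrm g y z) k := by
  subst hg hy hz
  rfl

/-- the formula: `x` (an element of `K[X]/(g)`) is a product of norms from the algebras `y` -/
noncomputable def fE (n d e : ℕ) : FirstOrder.Language.ring.Formula
    (Fin ((e+1)+(e+1)) ⊕ (Fin n × Fin (d*(e+1)))) :=
  Formula.iExs (Fin n × Fin d × Fin (e+1)) (Formula.iInf (fun k : Fin (e+1) =>
    Term.equal (termOfFreeCommRing ((algBasis (e+1) _).repr (prodNrm
      (fun k => (FreeCommRing.of (Sum.inl (Sum.inl (finSumFinEquiv (Sum.inl k)))) :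
        FreeCommRing ((Fin ((e+1)+(e+1)) ⊕ (Fin n × Fin (d*(e+1)))) ⊕ (Fin n × Fin d × Fin (e+1)))))
      (fun r j k => FreeCommRing.of (Sum.inl (Sum.inr (r, finProdFinEquiv (j, k)))))
      (fun r j k => FreeCommRing.of (Sum.inr (r, j, k)))) k))
    (termOfFreeCommRing (FreeCommRing.of (Sum.inl (Sum.inl (finSumFinEquiv (Sum.inr k))))))))

theorem realize_fE {K : Type} [Field K] [FirstOrder.Ring.CompatibleRing K] (n d e : ℕ)
    (g x : Fin (e+1) → K) (y : Fin n → Fin d → Fin (e+1) → K) :
    (fE n d e).Realize (Sum.elim (fun i => Sum.elim g x (finSumFinEquiv.symm i))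
      (fun rs : Fin n × Fin (d*(e+1)) => y rs.1 (finProdFinEquiv.symm rs.2).1
        (finProdFinEquiv.symm rs.2).2)) ↔
      ∃ z : Fin n → Fin d → Fin (e+1) → K, prodNrm g y z = elt g x := by
  have key : ∀ z : Fin n × Fin d × Fin (e+1) → K,
      (Formula.iInf (fun k : Fin (e+1) =>
        Term.equal (termOfFreeCommRing ((algBasis (e+1) _).repr (prodNrm
          (fun k => (FreeCommRing.of (Sum.inl (Sum.inl (finSumFinEquiv (Sum.inl k)))) :
            FreeCommRing ((Fin ((e+1)+(e+1)) ⊕ (Fin n × Fin (d*(e+1)))) ⊕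
              (Fin n × Fin d × Fin (e+1)))))
          (fun r j k => FreeCommRing.of (Sum.inl (Sum.inr (r, finProdFinEquiv (j, k)))))
          (fun r j k => FreeCommRing.of (Sum.inr (r, j, k)))) k))
        (termOfFreeCommRing (FreeCommRing.of
          (Sum.inl (Sum.inl (finSumFinEquiv (Sum.inr k)))))))).Realize
        (Sum.elim (Sum.elim (fun i => Sum.elim g x (finSumFinEquiv.symm i))
      (fun rs : Fin n × Fin (d*(e+1)) => y rs.1 (finProdFinEquiv.symm rs.2).1
        (finProdFinEquiv.symm rs.2).2)) z) ↔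
      prodNrm g y (fun r j k => z (r, j, k)) = elt g x := by
    intro z
    rw [Formula.realize_iInf]
    have h1 : prodNrm g y (fun r j k => z (r, j, k)) = elt g x ↔ ∀ k,
        (algBasis (e+1) g).repr (prodNrm g y (fun r j k => z (r, j, k))) k = x k := by
      constructor
      · intro h k
        rw [h, repr_elt]
      · intro h
        apply (algBasis (e+1) g).repr.injective
        ext k
        rw [h k, repr_elt]
    rw [h1]
    refine forall_congr' fun k => ?_
    rw [Formula.realize_equal, realize_termOfFreeCommRing, realize_termOfFreeCommRing,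
      FreeCommRing.lift_of]
    rw [← repr_prodNrm]
    rw [repr_congr (g := g) (y := y) (z := fun r j k => z (r, j, k))
      (by funext k; simp only [FreeCommRing.lift_of, Sum.elim_inl, Equiv.symm_apply_apply])
      (by funext r j k; simp only [FreeCommRing.lift_of, Sum.elim_inl, Sum.elim_inr,
            Equiv.symm_apply_apply])
      (by funext r j k; simp only [FreeCommRing.lift_of, Sum.elim_inr])]
    simp only [Sum.elim_inl, Sum.elim_inr, Equiv.symm_apply_apply]
  rw [fE, Formula.realize_iExs]
  constructor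
  · rintro ⟨z, hz⟩
    exact ⟨_, (key z).mp hz⟩
  · rintro ⟨z, hz⟩
    exact ⟨fun p => z p.1 p.2.1 p.2.2, (key _).mpr hz⟩

/-- The combinatorial argument: patterns of norms give patterns for the formula. -/
theorem no_pattern_of {K : Type} [Field K] [FirstOrder.Ring.CompatibleRing K] {n d e m : ℕ}
    (hK' : ¬ PatN K (fE n d e) m) (g : Fin (e+1) → K)
    (c : Fin n → Fin m → Fin d → Alg (e+1) g) (x : (Fin n → Fin m) → (Alg (e+1) g)ˣ)
    (H : (Fin n → Fin m) → Subgroup (Alg (e+1) g)ˣ)
    (h1 : ∀ J r i, J r ≠ i → ∃ z : Alg d (c r i), Algebra.norm (Alg (e+1) g) z = x J)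
    (h2 : ∀ J r, ∀ u : (Alg (e+1) g)ˣ,
      (∃ z : Alg d (c r (J r)), Algebra.norm (Alg (e+1) g) z = u) → u ∈ H J) :
    ¬ (∀ J, x J ∉ H J) := by
  classical
  unfold PatN at hK'
  push Not at hK'
  have hm := hK'
  intro h3
  -- coordinates of the coefficients
  choose y hy using fun (r : Fin n) (i : Fin m) (j : Fin d) => exists_elt g (c r i j)
  -- norm values
  have hnrm : ∀ r i (v : Alg (e+1) g), (∃ z : Alg d (c r i), Algebra.norm (Alg (e+1) g) z = v) ↔
      ∃ z : Fin d → Fin (e+1) → K,
        nrmElt d (fun j => elt g (y r i j)) (fun j => elt g (z j)) = v := by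
    intro r i v
    have hc : (fun j => elt g (y r i j)) = c r i := by
      funext j
      exact hy r i j
    rw [hc]
    constructor
    · rintro ⟨z, hz⟩
      choose w hw using fun j : Fin d => exists_elt g ((algBasis d (c r i)).repr z j)
      refine ⟨w, ?_⟩
      rw [nrmElt]
      simp only [hw]
      rw [(algBasis d (c r i)).sum_repr, hz]
    · rintro ⟨z, hz⟩
      exact ⟨_, hz⟩
  obtain ⟨S, hS⟩ := hm (fun r i => fun s => y r i (finProdFinEquiv.symm s).1
    (finProdFinEquiv.symm s).2)
  obtain ⟨X, hX⟩ := exists_elt g (∏ J ∈ Finset.univ.filter (fun J => J ∉ S), (x J : Alg (e+1) g))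
  obtain ⟨I, hI⟩ := hS (fun i => Sum.elim g X (finSumFinEquiv.symm i))
  have hre := realize_fE n d e g X (fun r => y r (I r))
  rw [hX] at hre
  have hcontra : ((fE n d e).Realize (Sum.elim (fun i => Sum.elim g X (finSumFinEquiv.symm i))
      (fun rs : Fin n × Fin (d*(e+1)) => y rs.1 (I rs.1) (finProdFinEquiv.symm rs.2).1
        (finProdFinEquiv.symm rs.2).2)) ↔ I ∈ S) := by
    rw [hre]
    constructor
    · rintro ⟨z, hz⟩
      by_contra hIS
      have hmem : I ∈ Finset.univ.filter (fun J => J ∉ S) := by simpa using hIS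
      have hprod : IsUnit (prodNrm g (fun r => y r (I r)) z) := by
        rw [hz]
        have h := Units.isUnit (∏ J ∈ Finset.univ.filter (fun J => J ∉ S), x J)
        rwa [Units.coe_prod] at h
      have hun : ∀ r, IsUnit (nrmElt d (fun j => elt g (y r (I r) j)) (fun j => elt g (z r j))) :=
        fun r => isUnit_of_dvd_unit (Finset.dvd_prod_of_mem
          (fun r => nrmElt d (fun j => elt g (y r (I r) j)) (fun j => elt g (z r j)))
          (Finset.mem_univ r)) hprod
      choose u hu using hun
      have hprodU : ∏ r, u r = ∏ J ∈ Finset.univ.filter (fun J => J ∉ S), x J := by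
        ext
        rw [Units.coe_prod, Units.coe_prod]
        simp only [hu]
        exact hz
      have hin : ∏ J ∈ Finset.univ.filter (fun J => J ∉ S), x J ∈ H I := by
        rw [← hprodU]
        refine Subgroup.prod_mem _ fun r _ => h2 I r _ ?_
        rw [hnrm]
        exact ⟨z r, (hu r).symm⟩
      rw [← Finset.mul_prod_erase _ _ hmem] at hin
      have hrest : ∏ J ∈ (Finset.univ.filter (fun J => J ∉ S)).erase I, x J ∈ H I := by
        refine Subgroup.prod_mem _ fun J hJ => ?_
        have hJI : J ≠ I := Finset.ne_of_mem_erase hJ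
        obtain ⟨r, hr⟩ := Function.ne_iff.mp hJI
        exact h2 I r _ (h1 J r (I r) hr)
      exact h3 I ((Subgroup.mul_mem_cancel_right _ hrest).mp hin)
    · intro hIS
      have hch : ∀ J : Fin n → Fin m, ∃ z : ∀ r, Alg d (c r (I r)), J ∉ S →
          ∏ r, Algebra.norm (Alg (e+1) g) (z r) = x J := by
        intro J
        by_cases hJ : J ∈ S
        · exact ⟨fun _ => 1, fun h => absurd hJ h⟩
        · have hJI : J ≠ I := fun h => hJ (h ▸ hIS)
          obtain ⟨r, hr⟩ := Function.ne_iff.mp hJI
          obtain ⟨w, hw⟩ := h1 J r (I r) hr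
          refine ⟨Function.update (fun _ => 1) r w, fun _ => ?_⟩
          rw [Finset.prod_eq_single r]
          · simp [hw]
          · intro s _ hs
            simp [Function.update_of_ne hs]
          · simp
      choose z hz using hch
      have hz' : ∀ r, ∃ w : Fin d → Fin (e+1) → K,
          nrmElt d (fun j => elt g (y r (I r) j)) (fun j => elt g (w j)) =
            Algebra.norm (Alg (e+1) g) (∏ J ∈ Finset.univ.filter (fun J => J ∉ S), z J r) :=
        fun r => (hnrm r (I r) _).mp ⟨_, rfl⟩
      choose w hw using hz'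
      refine ⟨w, ?_⟩
      rw [prodNrm]
      simp only [hw, map_prod]
      rw [Finset.prod_comm]
      refine Finset.prod_congr rfl fun J hJ => ?_
      exact hz J (by simpa using hJ)
  rcases hI with hI | hI
  · exact hI.2 (hcontra.mp hI.1)
  · exact hI.1 (hcontra.mpr hI.2)

end Pool.Agent.W882.Nip3
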