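import Pool.Agent.W882.Nip3.QPlace

open Polynomial ENNReal Filter Topology

namespace Pool.Agent.W882.Nip3

/-- A real place of `K`: a valuation ring `O` of `K` (possibly `K` itself) and a ring homomorphism
from `O` to the real numbers whose kernel is the maximal ideal of `O`. -/
structure RealPlace (K : Type) [Field K] where
  O : ValuationSubring K
  res : O →+* ℝ
  isUnit_of_res_ne_zero : ∀ x, res x ≠ 0 → IsUnit x

/-- A `p`-adic place of `K`, for some prime `p`: a valuation ring `O` of `K` (possibly `K` itself)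
and a ring homomorphism from `O` to the `p`-adic numbers whose kernel is the maximal ideal of
`O`. -/
structure PadicPlace (K : Type) [Field K] where
  p : ℕ
  prime : Fact p.Prime
  O : ValuationSubring K
  res : O →+* ℚ_[p]
  isUnit_of_res_ne_zero : ∀ x, res x ≠ 0 → IsUnit x

section

variable {K : Type} [Field K]

/-- the valuation ring -/
def LO : RealPlace K ⊕ PadicPlace K → ValuationSubring K
  | Sum.inl P => P.O
  | Sum.inr P => P.O

/-- the local field -/
def LF : RealPlace K ⊕ PadicPlace K → Type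
  | Sum.inl _ => ℝ
  | Sum.inr P => letI := P.prime; ℚ_[P.p]

noncomputable instance instLF : ∀ t : RealPlace K ⊕ PadicPlace K, NontriviallyNormedField (LF t)
  | Sum.inl _ => inferInstanceAs (NontriviallyNormedField ℝ)
  | Sum.inr P => letI := P.prime; inferInstanceAs (NontriviallyNormedField ℚ_[P.p])

theorem completeLF : ∀ t : RealPlace K ⊕ PadicPlace K, CompleteSpace (LF t)
  | Sum.inl _ => inferInstanceAs (CompleteSpace ℝ)
  | Sum.inr P => letI := P.prime; inferInstanceAs (CompleteSpace ℚ_[P.p])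

theorem charZeroLF : ∀ t : RealPlace K ⊕ PadicPlace K, CharZero (LF t)
  | Sum.inl _ => inferInstanceAs (CharZero ℝ)
  | Sum.inr P => letI := P.prime; inferInstanceAs (CharZero ℚ_[P.p])

/-- the residue map -/
noncomputable def Lψ : ∀ t : RealPlace K ⊕ PadicPlace K, LO t →+* LF t
  | Sum.inl P => P.res
  | Sum.inr P => P.res

theorem Lψ_unit : ∀ (t : RealPlace K ⊕ PadicPlace K) (x : LO t), Lψ t x ≠ 0 → IsUnit x
  | Sum.inl P => P.isUnit_of_res_ne_zero
  | Sum.inr P => P.isUnit_of_res_ne_zero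

theorem denseLF : ∀ t : RealPlace K ⊕ PadicPlace K, DenseRange ((↑) : ℚ → LF t)
  | Sum.inl _ => Rat.denseRange_cast (𝕜 := ℝ)
  | Sum.inr P => letI := P.prime; Padic.denseRange_ratCast P.p

theorem badLF : ∀ t : RealPlace K ⊕ PadicPlace K, Bad (LF t) 2
  | Sum.inl _ => bad_real
  | Sum.inr P => letI := P.prime; bad_padic P.p

theorem real_small : ∃ c : ℚ, ‖(c : ℝ)‖ < 1 ∧ c ≠ 0 := ⟨1/2, by norm_num [abs_of_pos], by norm_num⟩

theorem real_large : ∃ c : ℚ, 1 < ‖(c : ℝ)‖ := ⟨2, by norm_num⟩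

theorem padic_small (p : ℕ) [hp : Fact p.Prime] : ∃ c : ℚ, ‖(c : ℚ_[p])‖ < 1 ∧ c ≠ 0 :=
  ⟨p, by rw [Rat.cast_natCast]; exact Padic.norm_p_lt_one, by exact_mod_cast hp.out.ne_zero⟩

theorem padic_large (p : ℕ) [hp : Fact p.Prime] : ∃ c : ℚ, 1 < ‖(c : ℚ_[p])‖ := by
  refine ⟨(p : ℚ)⁻¹, ?_⟩
  rw [Rat.cast_inv, Rat.cast_natCast, norm_inv, Padic.norm_p, inv_inv]
  exact_mod_cast hp.out.one_lt

theorem smallLF : ∀ t : RealPlace K ⊕ PadicPlace K, ∃ c : ℚ, ‖(c : LF t)‖ < 1 ∧ c ≠ 0
  | Sum.inl _ => real_small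
  | Sum.inr P => letI := P.prime; padic_small P.p

theorem largeLF : ∀ t : RealPlace K ⊕ PadicPlace K, ∃ c : ℚ, 1 < ‖(c : LF t)‖
  | Sum.inl _ => real_large
  | Sum.inr P => letI := P.prime; padic_large P.p

theorem real_padic (p : ℕ) [hp : Fact p.Prime] : ∃ c : ℚ, ‖(c : ℝ)‖ < 1 ∧ 1 < ‖(c : ℚ_[p])‖ := by
  have h1 : (1 : ℝ) < p := by exact_mod_cast hp.out.one_lt
  refine ⟨(p : ℚ)⁻¹, ?_, ?_⟩
  · rw [Rat.cast_inv, Rat.cast_natCast, norm_inv, Real.norm_natCast]
    exact inv_lt_one_of_one_lt₀ h1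
  · rw [Rat.cast_inv, Rat.cast_natCast, norm_inv, Padic.norm_p, inv_inv]
    exact h1

theorem padic_real (p : ℕ) [hp : Fact p.Prime] : ∃ c : ℚ, ‖(c : ℚ_[p])‖ < 1 ∧ 1 < ‖(c : ℝ)‖ := by
  have h1 : (1 : ℝ) < p := by exact_mod_cast hp.out.one_lt
  refine ⟨(p : ℚ), ?_, ?_⟩
  · rw [Rat.cast_natCast]
    exact Padic.norm_p_lt_one
  · rw [Rat.cast_natCast, Real.norm_natCast]
    exact h1

theorem padic_padic (p q : ℕ) [hp : Fact p.Prime] [hq : Fact q.Prime] (hpq : p ≠ q) :
    ∃ c : ℚ, ‖(c : ℚ_[p])‖ < 1 ∧ 1 < ‖(c : ℚ_[q])‖ := by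
  refine ⟨(p : ℚ) * (q : ℚ)⁻¹, ?_, ?_⟩
  · rw [Rat.cast_mul, Rat.cast_inv, Rat.cast_natCast, Rat.cast_natCast, norm_mul, norm_inv]
    have h1 : ‖((q : ℕ) : ℚ_[p])‖ = 1 := by
      rw [Padic.norm_natCast_eq_one_iff]
      exact (Nat.coprime_primes hp.out hq.out).mpr hpq
    rw [h1, inv_one, mul_one]
    exact Padic.norm_p_lt_one
  · rw [Rat.cast_mul, Rat.cast_inv, Rat.cast_natCast, Rat.cast_natCast, norm_mul, norm_inv]
    have h1 : ‖((p : ℕ) : ℚ_[q])‖ = 1 := by
      rw [Padic.norm_natCast_eq_one_iff]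
      exact (Nat.coprime_primes hq.out hp.out).mpr hpq.symm
    rw [h1, one_mul, Padic.norm_p, inv_inv]
    exact_mod_cast hq.out.one_lt

theorem sepLF (s t : RealPlace K ⊕ PadicPlace K) (hst : s ≠ t) :
    ∃ A : K, A ≠ 0 ∧ mu (LO s) (Lψ s) A < 1 ∧ 1 < mu (LO t) (Lψ t) A := by
  have := charZeroLF s
  have := charZeroLF t
  by_cases hO : LO s = LO t
  · rcases s with P | P <;> rcases t with Q | Q
    · obtain ⟨O, res, hu⟩ := P
      obtain ⟨O', res', hu'⟩ := Q
      have hO' : O = O' := hO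
      subst hO'
      exact sep_same O res res' hu (Rat.denseRange_cast (𝕜 := ℝ)) real_large
        (fun h => hst (by subst h; rfl))
    · have := Q.prime
      exact sep_rat P.O Q.O P.res Q.res P.isUnit_of_res_ne_zero Q.isUnit_of_res_ne_zero
        (real_padic Q.p)
    · have := P.prime
      exact sep_rat P.O Q.O P.res Q.res P.isUnit_of_res_ne_zero Q.isUnit_of_res_ne_zero
        (padic_real P.p)
    · obtain ⟨p, hp, O, res, hu⟩ := P
      obtain ⟨q, hq, O', res', hu'⟩ := Q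
      by_cases hpq : p = q
      · subst hpq
        have hO' : O = O' := hO
        subst hO'
        exact sep_same O res res' hu (Padic.denseRange_ratCast p) (padic_large p)
          (fun h => hst (by subst h; rfl))
      · exact sep_rat O O' res res' hu hu' (padic_padic p q hpq)
  · exact sep_of_ne (LO s) (LO t) (Lψ s) (Lψ t) (Lψ_unit s) (Lψ_unit t) (smallLF s) (largeLF t) hO

end

theorem finite_of_no_injection {T : Type} {N : ℕ} (h : ∀ f : Fin N → T, ¬ Function.Injective f) :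
    Finite T ∧ Nat.card T < N := by
  have hfin : Finite T := by
    by_contra hinf
    rw [not_finite_iff_infinite] at hinf
    exact h (fun i => Infinite.natEmbedding T i) (fun i j hij =>
      Fin.ext ((Infinite.natEmbedding T).injective hij))
  refine ⟨hfin, ?_⟩
  by_contra hcard
  push Not at hcard
  have := Fintype.ofFinite T
  rw [Nat.card_eq_fintype_card] at hcard
  exact h (fun i => (Fintype.equivFin T).symm (Fin.castLE hcard i)) (fun i j hij => by
    have h1 := (Fintype.equivFin T).symm.injective hij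
    exact Fin.castLE_injective hcard h1)

/-- finiteness of the set of real and `p`-adic places -/
theorem lplace_bound {K : Type} [Field K] [FirstOrder.Ring.CompatibleRing K]
    (hK : BoundedBadG K 0 2) :
    ∃ N : ℕ, ∀ (K' : Type) [Field K'] [FirstOrder.Ring.CompatibleRing K'],
      FirstOrder.Language.ring.ElementarilyEquivalent K K' →
      Finite (RealPlace K' ⊕ PadicPlace K') ∧ Nat.card (RealPlace K' ⊕ PadicPlace K') < N := by
  obtain ⟨N, hN⟩ := hK
  refine ⟨N, fun K' _ _ hKK' => finite_of_no_injection fun f hf => ?_⟩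
  have := fun i => completeLF (f i)
  have := fun i => charZeroLF (f i)
  obtain ⟨i, hi⟩ := hN K' hKK' (fun i => LO (f i)) (fun i => LF (f i)) (fun i => Lψ (f i))
    (fun i => Lψ_unit (f i)) (fun i => dense_psi _ _ (Lψ_unit (f i)) (denseLF (f i)))
    (fun i => small_psi _ _ (Lψ_unit (f i)) (smallLF (f i)))
    (fun j i hij => sepLF (f j) (f i) (hf.ne hij.symm))
  exact hi (badE_one (badLF (f i)))

end Pool.Agent.W882.Nip3
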