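import Mathlib

open Polynomial

namespace Pool.Agent.W882.Nip3

/-- value at `T` of the monic polynomial of degree `d` with lower coefficients `c` -/
noncomputable def ev {F E : Type*} [CommRing F] [CommRing E] [Algebra F E] (d : ℕ) (T : E)
    (c : Fin d → F) : E := T ^ d + ∑ k, c k • T ^ (k : ℕ)

/-- value of its derivative -/
noncomputable def ev' {F E : Type*} [CommRing F] [CommRing E] [Algebra F E] (d : ℕ) (T : E)
    (c : Fin d → F) : E := d • T ^ (d - 1) + ∑ k : Fin d, c k • ((k : ℕ) • T ^ ((k : ℕ) - 1))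

/-- lower coefficients of a polynomial -/
noncomputable def lowCoeff {F : Type*} [CommRing F] (d : ℕ) (p : F[X]) : Fin d → F :=
  fun k => p.coeff k

theorem ev_lowCoeff {F E : Type*} [CommRing F] [CommRing E] [Algebra F E] {d : ℕ} {p : F[X]}
    (hp : p.Monic) (hd : p.natDegree = d) (T : E) : ev d T (lowCoeff d p) = aeval T p := by
  rw [aeval_eq_sum_range, hd, Finset.sum_range_succ, ← hd, hp.coeff_natDegree, one_smul, hd,
    add_comm, ev]
  congr 1
  exact Fin.sum_univ_eq_sum_range (fun k => p.coeff k • T ^ k) d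

theorem ev'_lowCoeff {F E : Type*} [CommRing F] [CommRing E] [Algebra F E] {d : ℕ} {p : F[X]}
    (hp : p.Monic) (hd : p.natDegree = d) (T : E) :
    ev' d T (lowCoeff d p) = aeval T (derivative p) := by
  conv_rhs => rw [hp.as_sum, hd]
  simp only [derivative_X_pow, map_add, map_mul, map_sum,
    derivative_C_mul_X_pow, aeval_C, aeval_X, map_pow, map_natCast]
  rw [ev', nsmul_eq_mul]
  congr 1
  rw [← Fin.sum_univ_eq_sum_range
    (fun k => algebraMap F E (p.coeff k) * (k : E) * T ^ (k - 1)) d]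
  refine Finset.sum_congr rfl fun k _ => ?_
  simp only [lowCoeff, Algebra.smul_def, eq_natCast]
  ring

/-- monic polynomial with given lower coefficients -/
noncomputable def mpoly {K : Type*} [CommRing K] (d : ℕ) (c : Fin d → K) : K[X] :=
  X ^ d + ∑ k : Fin d, C (c k) * X ^ (k : ℕ)

theorem mpoly_degree_lt {K : Type*} [CommRing K] (d : ℕ) (c : Fin d → K) :
    (∑ k : Fin d, C (c k) * X ^ (k : ℕ) : K[X]).degree < d :=
  degree_sum_fin_lt c

theorem mpoly_monic {K : Type*} [CommRing K] (d : ℕ) (c : Fin d → K) : (mpoly d c).Monic :=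
  monic_X_pow_add (mpoly_degree_lt d c)

theorem mpoly_natDegree {K : Type*} [CommRing K] [Nontrivial K] (d : ℕ) (c : Fin d → K) :
    (mpoly d c).natDegree = d := by
  rw [mpoly, natDegree_add_eq_left_of_degree_lt, natDegree_X_pow]
  rw [degree_X_pow]
  exact mpoly_degree_lt d c

theorem aeval_mpoly {K E : Type*} [CommRing K] [CommRing E] [Algebra K E] (d : ℕ) (c : Fin d → K)
    (T : E) : aeval T (mpoly d c) = ev d T c := by
  simp only [mpoly, map_add, map_pow, aeval_X, map_sum, map_mul, aeval_C, ev, Algebra.smul_def]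

theorem eval₂_mpoly {K E : Type*} [CommRing K] [CommRing E] (i : K →+* E) (d : ℕ) (c : Fin d → K)
    (T : E) : eval₂ i T (mpoly d c) = T ^ d + ∑ k : Fin d, i (c k) * T ^ (k : ℕ) := by
  rw [mpoly, eval₂_add, eval₂_X_pow, eval₂_finsetSum]
  congr 1
  refine Finset.sum_congr rfl fun k _ => ?_
  rw [eval₂_mul, eval₂_C, eval₂_X_pow]

theorem ev_eq {F E : Type*} [CommRing F] [CommRing E] [Algebra F E] (d : ℕ) (T : E)
    (c : Fin d → F) : ev d T c = T ^ d + ∑ k : Fin d, algebraMap F E (c k) * T ^ (k : ℕ) := by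
  simp only [ev, Algebra.smul_def]

theorem ev'_eq {F E : Type*} [CommRing F] [CommRing E] [Algebra F E] (d : ℕ) (T : E)
    (c : Fin d → F) : ev' d T c = d • T ^ (d - 1) +
      ∑ k : Fin d, algebraMap F E (c k) * ((k : ℕ) • T ^ ((k : ℕ) - 1)) := by
  simp only [ev', Algebra.smul_def]

theorem map_mpoly {K S : Type*} [CommRing K] [CommRing S] (σ : K →+* S) (d : ℕ) (c : Fin d → K) :
    (mpoly d c).map σ = mpoly d (fun k => σ (c k)) := by
  simp [mpoly, Polynomial.map_sum]

/-- the algebra `K[X]/(f)` -/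
abbrev Alg {K : Type} [CommRing K] (d : ℕ) (c : Fin d → K) : Type := AdjoinRoot (mpoly d c)

/-- its power basis -/
noncomputable def algBasis {K : Type} [CommRing K] [Nontrivial K] (d : ℕ) (c : Fin d → K) :
    Module.Basis (Fin d) K (Alg d c) :=
  (AdjoinRoot.powerBasis' (mpoly_monic d c)).basis.reindex (finCongr (mpoly_natDegree d c))

theorem algBasis_apply {K : Type} [CommRing K] [Nontrivial K] (d : ℕ) (c : Fin d → K) (k : Fin d) :
    algBasis d c k = AdjoinRoot.root (mpoly d c) ^ (k : ℕ) := by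
  simp only [algBasis, Module.Basis.coe_reindex, Function.comp_apply, PowerBasis.basis_eq_pow,
    AdjoinRoot.powerBasis'_gen]
  rfl

/-- compatibility of norms -/
theorem norm_compat {K F A L : Type*} [CommRing K] [CommRing F] [CommRing A] [CommRing L]
    [Algebra K A] [Algebra F L] {ι : Type*} [Fintype ι] [DecidableEq ι] (σ : K →+* F)
    (φ : A →+* L) (hφ : ∀ r, φ (algebraMap K A r) = algebraMap F L (σ r))
    (b : Module.Basis ι K A) (b' : Module.Basis ι F L) (hb : ∀ i, φ (b i) = b' i) (z : A) :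
    Algebra.norm F (φ z) = σ (Algebra.norm K z) := by
  rw [Algebra.norm_eq_matrix_det b', Algebra.norm_eq_matrix_det b, RingHom.map_det]
  congr 1
  ext l k
  rw [RingHom.mapMatrix_apply, Matrix.map_apply, Algebra.leftMulMatrix_eq_repr_mul,
    Algebra.leftMulMatrix_eq_repr_mul]
  have h1 : z * b k = ∑ l, b.repr (z * b k) l • b l := (b.sum_repr _).symm
  have h2 : φ z * b' k = ∑ l, σ (b.repr (z * b k) l) • b' l := by
    rw [← hb, ← map_mul]
    conv_lhs => rw [h1]
    rw [map_sum]
    refine Finset.sum_congr rfl fun l _ => ?_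
    rw [Algebra.smul_def, map_mul, hφ, hb, Algebra.smul_def]
  rw [h2, b'.repr_sum_self]

theorem repr_compat {K F A L : Type*} [CommRing K] [CommRing F] [CommRing A] [CommRing L]
    [Algebra K A] [Algebra F L] {ι : Type*} [Fintype ι] (σ : K →+* F)
    (φ : A →+* L) (hφ : ∀ r, φ (algebraMap K A r) = algebraMap F L (σ r))
    (b : Module.Basis ι K A) (b' : Module.Basis ι F L) (hb : ∀ i, φ (b i) = b' i) (z : A) (k : ι) :
    b'.repr (φ z) k = σ (b.repr z k) := by
  have h1 : z = ∑ l, b.repr z l • b l := (b.sum_repr _).symm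
  have h2 : φ z = ∑ l, σ (b.repr z l) • b' l := by
    conv_lhs => rw [h1]
    rw [map_sum]
    refine Finset.sum_congr rfl fun l _ => ?_
    rw [Algebra.smul_def, map_mul, hφ, hb, Algebra.smul_def]
  rw [h2, b'.repr_sum_self]

/-- base change of `Alg` along a ring homomorphism -/
noncomputable def algMap {K S : Type} [CommRing K] [CommRing S] (σ : K →+* S) (d : ℕ)
    (c : Fin d → K) : Alg d c →+* Alg d (fun k => σ (c k)) :=
  AdjoinRoot.lift ((algebraMap S (Alg d (fun k => σ (c k)))).comp σ)
    (AdjoinRoot.root (mpoly d (fun k => σ (c k)))) (by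
      rw [← eval₂_map, map_mpoly, AdjoinRoot.algebraMap_eq]
      exact AdjoinRoot.eval₂_root _)

theorem algMap_algebraMap {K S : Type} [CommRing K] [CommRing S] (σ : K →+* S) (d : ℕ)
    (c : Fin d → K) (r : K) : algMap σ d c (algebraMap K (Alg d c) r) =
      algebraMap S (Alg d (fun k => σ (c k))) (σ r) := by
  rw [AdjoinRoot.algebraMap_eq (mpoly d c), algMap, AdjoinRoot.lift_of]
  rfl

theorem algMap_root {K S : Type} [CommRing K] [CommRing S] (σ : K →+* S) (d : ℕ)
    (c : Fin d → K) : algMap σ d c (AdjoinRoot.root (mpoly d c)) =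
      AdjoinRoot.root (mpoly d (fun k => σ (c k))) := by
  rw [algMap, AdjoinRoot.lift_root]

theorem algMap_basis {K S : Type} [CommRing K] [Nontrivial K] [CommRing S] [Nontrivial S]
    (σ : K →+* S) (d : ℕ) (c : Fin d → K) (k : Fin d) : algMap σ d c (algBasis d c k) =
      algBasis d (fun k => σ (c k)) k := by
  rw [algBasis_apply, algBasis_apply, map_pow, algMap_root]

end Pool.Agent.W882.Nip3
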