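import Pool.Agent.W882.Nip3.Root
import Pool.Agent.W882.Nip3.Poly

open Topology Filter Polynomial

namespace Pool.Agent.W882.Nip3

/-- every finite separable extension of degree `d` is generated by a root of every polynomial near
a suitable one -/
def P1 (F : Type) [Field F] [TopologicalSpace F] : Prop :=
  ∀ (L : Type) [Field L] [Algebra F L] [FiniteDimensional F L] [Algebra.IsSeparable F L] (d : ℕ),
    Module.finrank F L = d → ∃ c₀ : Fin d → F, ∀ᶠ c in 𝓝 c₀, ∃ T : L, ev d T c = 0 ∧
      LinearIndependent F (fun k : Fin d => T ^ (k : ℕ))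

/-- polynomials near a polynomial which splits with distinct roots do so, too -/
def P2 (F : Type) [Field F] [TopologicalSpace F] : Prop :=
  ∀ (d : ℕ) (r : Fin d → F), Function.Injective r →
    ∀ᶠ c in 𝓝 (lowCoeff d (∏ a, (X - C (r a)))),
      ∃ t : Fin d → F, Function.Injective t ∧ ∀ a, ev d (t a) c = 0

/-- a norm on a finite extension -/
noncomputable abbrev nrm (F M : Type) [NontriviallyNormedField F] [Field M] [Algebra F M]
    [FiniteDimensional F M] : NormedCommRing M :=
  letI : NormedRing (Matrix (Fin (Module.finrank F M)) (Fin (Module.finrank F M)) F) :=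
    Matrix.linftyOpNormedRing
  NormedCommRing.induced M (Matrix (Fin (Module.finrank F M)) (Fin (Module.finrank F M)) F)
    (Algebra.leftMulMatrix (Module.finBasis F M)) (Algebra.leftMulMatrix_injective _)

/-- the normed algebra structure -/
noncomputable abbrev nrmAlg (F M : Type) [NontriviallyNormedField F] [Field M] [Algebra F M]
    [FiniteDimensional F M] : @NormedAlgebra F M _ (nrm F M).toSeminormedCommRing.toSeminormedRing :=
  letI : NormedRing (Matrix (Fin (Module.finrank F M)) (Fin (Module.finrank F M)) F) :=
    Matrix.linftyOpNormedRing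
  letI : NormedAlgebra F (Matrix (Fin (Module.finrank F M)) (Fin (Module.finrank F M)) F) :=
    Matrix.linftyOpNormedAlgebra
  NormedAlgebra.induced F M (Matrix (Fin (Module.finrank F M)) (Fin (Module.finrank F M)) F)
    (Algebra.leftMulMatrix (Module.finBasis F M))

section

variable {F : Type} [NontriviallyNormedField F] [CompleteSpace F]

theorem P1_normed : P1 F := by
  classical
  intro L _ _ _ _ d hd
  obtain ⟨θ, hθ⟩ := Field.exists_primitive_element F L
  have hint : IsIntegral F θ := Algebra.IsIntegral.isIntegral θ
  have hdeg : (minpoly F θ).natDegree = d := by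
    rw [← hd]
    rw [Field.primitive_element_iff_minpoly_natDegree_eq] at hθ
    exact hθ
  have hmon : (minpoly F θ).Monic := minpoly.monic hint
  have h0 : ev d θ (lowCoeff d (minpoly F θ)) = 0 := by
    rw [ev_lowCoeff hmon hdeg, minpoly.aeval]
  have h1 : ev' d θ (lowCoeff d (minpoly F θ)) ≠ 0 := by
    rw [ev'_lowCoeff hmon hdeg]
    exact (Algebra.IsSeparable.isSeparable F θ).aeval_derivative_ne_zero (minpoly.aeval F θ)
  have hli : LinearIndependent F (fun k : Fin d => θ ^ (k : ℕ)) := by
    have := linearIndependent_pow (K := F) θ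
    subst hdeg
    exact this
  refine ⟨lowCoeff d (minpoly F θ), ?_⟩
  let _ : NormedCommRing L := nrm F L
  let _ : NormedAlgebra F L := nrmAlg F L
  have : CompleteSpace L := FiniteDimensional.complete F L
  have hcont : ContinuousAt (fun T : L => fun k : Fin d => T ^ (k : ℕ)) θ := by fun_prop
  have hU := hcont.eventually hli.eventually
  rw [ev_eq] at h0
  rw [ev'_eq] at h1
  have := eventually_root (LinearMap.toContinuousLinearMap (Algebra.linearMap F L)) d θ
    (lowCoeff d (minpoly F θ)) h0 (isUnit_iff_ne_zero.mpr h1) _ hU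
  filter_upwards [this] with c hc
  obtain ⟨T, hT, hT0⟩ := hc
  exact ⟨T, by rw [ev_eq]; exact hT0, hT⟩

theorem ext_package (M : Type) [Field M] [Algebra F M] [FiniteDimensional F M] :
    ∃ τ : TopologicalSpace M, @IsTopologicalRing M τ _ ∧ @T2Space M τ ∧
      (∀ (m : ℕ) (f : (Fin m → F) →ₗ[F] M), @Continuous _ _ _ τ f) ∧ @P1 M _ τ ∧ @P2 M _ τ := by
  classical
  let _ : NormedCommRing M := nrm F M
  let _ : NormedAlgebra F M := nrmAlg F M
  have hcM : CompleteSpace M := FiniteDimensional.complete F M
  refine ⟨inferInstance, inferInstance, inferInstance, ?_, ?_, ?_⟩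
  · intro m f
    exact f.continuous_of_finiteDimensional
  · intro L _ _ _ _ d hd
    obtain ⟨θ, hθ⟩ := Field.exists_primitive_element M L
    have hint : IsIntegral M θ := Algebra.IsIntegral.isIntegral θ
    have hdeg : (minpoly M θ).natDegree = d := by
      rw [← hd]
      rw [Field.primitive_element_iff_minpoly_natDegree_eq] at hθ
      exact hθ
    have hmon : (minpoly M θ).Monic := minpoly.monic hint
    have h0 : ev d θ (lowCoeff d (minpoly M θ)) = 0 := by
      rw [ev_lowCoeff hmon hdeg, minpoly.aeval]
    have h1 : ev' d θ (lowCoeff d (minpoly M θ)) ≠ 0 := by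
      rw [ev'_lowCoeff hmon hdeg]
      exact (Algebra.IsSeparable.isSeparable M θ).aeval_derivative_ne_zero (minpoly.aeval M θ)
    have hli : LinearIndependent M (fun k : Fin d => θ ^ (k : ℕ)) := by
      have := linearIndependent_pow (K := M) θ
      subst hdeg
      exact this
    refine ⟨lowCoeff d (minpoly M θ), ?_⟩
    let _ : Algebra F L := ((algebraMap M L).comp (algebraMap F M)).toAlgebra
    have : IsScalarTower F M L := IsScalarTower.of_algebraMap_eq' rfl
    have : FiniteDimensional F L := Module.Finite.trans M L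
    let _ : NormedCommRing L := nrm F L
    let _ : NormedAlgebra F L := nrmAlg F L
    have : CompleteSpace L := FiniteDimensional.complete F L
    let b := Module.finBasisOfFinrankEq M L hd
    have hdc : Continuous (fun T : L => b.det (fun k : Fin d => T ^ (k : ℕ))) := by
      have : ∀ T : L, b.det (fun k : Fin d => T ^ (k : ℕ)) =
          (Matrix.of fun i (j : Fin d) => b.coord i (T ^ (j : ℕ))).det := by
        intro T
        rw [Module.Basis.det_apply]
        rfl
      simp_rw [this]
      refine Continuous.matrix_det ?_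
      refine continuous_pi fun i => continuous_pi fun j => ?_
      have h2 : Continuous ((b.coord i).restrictScalars F) :=
        LinearMap.continuous_of_finiteDimensional _
      exact h2.comp (continuous_pow (j : ℕ))
    have hθdet : b.det (fun k : Fin d => θ ^ (k : ℕ)) ≠ 0 := by
      have hspan : ⊤ ≤ Submodule.span M (Set.range (fun k : Fin d => θ ^ (k : ℕ))) := by
        rw [hli.span_eq_top_of_card_eq_finrank' (by simp [hd])]
      exact ((Module.Basis.is_basis_iff_det b).mp ⟨hli, top_le_iff.mp hspan⟩).ne_zero
    have hU : ∀ᶠ T in 𝓝 θ, LinearIndependent M (fun k : Fin d => T ^ (k : ℕ)) := by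
      filter_upwards [hdc.continuousAt.eventually_ne hθdet] with T hT
      exact ((Module.Basis.is_basis_iff_det b).mpr (isUnit_iff_ne_zero.mpr hT)).1
    rw [ev_eq] at h0
    rw [ev'_eq] at h1
    have := eventually_root (LinearMap.toContinuousLinearMap
      (IsScalarTower.toAlgHom F M L).toLinearMap) d θ
      (lowCoeff d (minpoly M θ)) h0 (isUnit_iff_ne_zero.mpr h1) _ hU
    filter_upwards [this] with c hc
    obtain ⟨T, hT, hT0⟩ := hc
    exact ⟨T, by rw [ev_eq]; exact hT0, hT⟩
  · intro d r hr
    set s : M[X] := ∏ a, (X - C (r a)) with hs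
    have hsm : s.Monic := monic_prod_of_monic _ _ fun a _ => monic_X_sub_C _
    have hsd : s.natDegree = d := by simp [hs]
    have hsep : s.Separable := separable_prod_X_sub_C_iff.mpr hr
    have hroot : ∀ a, aeval (r a) s = 0 := by
      intro a
      rw [hs, map_prod]
      exact Finset.prod_eq_zero (Finset.mem_univ a) (by simp)
    have h0 : ∀ a, ev d (r a) (lowCoeff d s) = 0 := fun a => by
      rw [ev_lowCoeff hsm hsd]; exact hroot a
    have h1 : ∀ a, ev' d (r a) (lowCoeff d s) ≠ 0 := fun a => by
      rw [ev'_lowCoeff hsm hsd]; exact hsep.aeval_derivative_ne_zero (hroot a)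
    have hcont : ∀ᶠ t : Fin d → M in 𝓝 r, Function.Injective t := by
      have : ∀ᶠ t : Fin d → M in 𝓝 r, ∀ p : Fin d × Fin d, p.1 ≠ p.2 → t p.1 ≠ t p.2 := by
        rw [eventually_all]
        rintro ⟨a, b⟩
        by_cases hab : a = b
        · simp [hab]
        · have h2 : ContinuousAt (fun t : Fin d → M => t a - t b) r := by fun_prop
          have h3 : r a - r b ≠ 0 := sub_ne_zero.mpr fun h => hab (hr h)
          filter_upwards [h2.eventually_ne h3] with t ht _ h4
          exact ht (sub_eq_zero.mpr h4)
      filter_upwards [this] with t ht a b hab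
      by_contra hne
      exact ht (a, b) hne hab
    rw [nhds_pi, Filter.Eventually, Filter.mem_pi'] at hcont
    obtain ⟨I, V, hV, hVs⟩ := hcont
    have h2 : ∀ a, ∀ᶠ c in 𝓝 (lowCoeff d s), ∃ T ∈ V a, ev d T c = 0 := fun a => by
      have h0' := h0 a
      have h1' := h1 a
      rw [ev_eq] at h0'
      rw [ev'_eq] at h1'
      have := eventually_root (ContinuousLinearMap.id F M) d (r a) (lowCoeff d s) h0'
        (isUnit_iff_ne_zero.mpr h1') (V a) (hV a)
      filter_upwards [this] with c hc
      obtain ⟨T, hT, hT0⟩ := hc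
      exact ⟨T, hT, by rw [ev_eq]; exact hT0⟩
    filter_upwards [eventually_all.mpr h2] with c hc
    choose t ht ht0 using hc
    exact ⟨t, hVs fun a _ => ht a, ht0⟩

end

end Pool.Agent.W882.Nip3
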