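import Pool.Agent.W882.Nip3.Appr
import Pool.Agent.W882.Nip3.THens
import Pool.Agent.W882.Nip3.ForE

open Topology Filter Polynomial TensorProduct

namespace Pool.Agent.W882.Nip3

theorem splitAt_of_roots {K F : Type} [CommRing K] [Nontrivial K] [Field F] [Algebra K F] {d : ℕ}
    (hd : 0 < d) (c : Fin d → K) (t : Fin d → F) (ht : Function.Injective t)
    (h0 : ∀ a, ev d (t a) (fun k => algebraMap K F (c k)) = 0) : SplitAt K F (Alg d c) := by
  classical
  have hroot : ∀ a, aeval (t a) (mpoly d c) = 0 := by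
    intro a
    rw [aeval_mpoly, ← h0 a, ev, ev]
    simp only [Algebra.smul_def, Algebra.algebraMap_self_apply]
  refine ⟨d, algBasis d c, fun a => AdjoinRoot.liftAlgHom (mpoly d c) (Algebra.ofId K F) (t a)
    (by simpa [aeval_def] using hroot a), hd, ?_⟩
  have : (Matrix.of fun a k => (AdjoinRoot.liftAlgHom (mpoly d c) (Algebra.ofId K F) (t a)
      (by simpa [aeval_def] using hroot a)) (algBasis d c k)) = Matrix.vandermonde t := by
    ext a k
    rw [Matrix.of_apply, algBasis_apply, map_pow]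
    simp [Matrix.vandermonde_apply]
  rw [this]
  exact Matrix.det_vandermonde_ne_zero_iff.mpr ht

/-- the norm of a generator -/
theorem norm_generator {F L : Type} [Field F] [Field L] [Algebra F L]
    [FiniteDimensional F L] {d : ℕ} (hd : Module.finrank F L = d) (hd0 : 0 < d) (c : Fin d → F)
    (T : L) (h0 : ev d T c = 0) (hli : LinearIndependent F (fun k : Fin d => T ^ (k : ℕ))) :
    Algebra.norm F T = (-1) ^ d * c ⟨0, hd0⟩ := by
  classical
  have hcard : Fintype.card (Fin d) = Module.finrank F L := by rw [hd, Fintype.card_fin]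
  have : Nonempty (Fin d) := ⟨⟨0, hd0⟩⟩
  let pb : PowerBasis F L :=
    { gen := T
      dim := d
      basis := basisOfLinearIndependentOfCardEqFinrank hli hcard
      basis_eq_pow := fun k => by simp }
  have h1 := Algebra.PowerBasis.norm_gen_eq_coeff_zero_minpoly pb
  have h2 : minpoly F T = mpoly d c := by
    have hint : IsIntegral F T := Algebra.IsIntegral.isIntegral T
    have hdvd : minpoly F T ∣ mpoly d c := minpoly.dvd F T (by rw [aeval_mpoly, h0])
    have hnd : (minpoly F T).natDegree = d := pb.natDegree_minpoly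
    symm
    exact eq_of_monic_of_dvd_of_natDegree_le (minpoly.monic hint) (mpoly_monic d c) hdvd
      (by rw [hnd, mpoly_natDegree])
  have h3 : (mpoly d c).coeff 0 = c ⟨0, hd0⟩ := by
    rw [mpoly, coeff_add, finsetSum_coeff, coeff_X_pow, if_neg (by omega), zero_add,
      Finset.sum_eq_single ⟨0, hd0⟩]
    · simp
    · intro k _ hk
      have : (k : ℕ) ≠ 0 := fun h => hk (Fin.ext h)
      simp [coeff_X_pow, this.symm]
    · simp
  have h4 : Algebra.norm F T = (-1) ^ d * (minpoly F T).coeff 0 := h1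
  rw [h4, h2, h3]

theorem P3_of_P1 {F : Type} [Field F] [TopologicalSpace F] [IsTopologicalRing F] (hF : P1 F)
    (L : Type) [Field L] [Algebra F L] [FiniteDimensional F L] [Algebra.IsSeparable F L] :
    ∀ᶠ y in 𝓝 (1 : F), ∃ z : L, Algebra.norm F z = y := by
  classical
  obtain ⟨c₀, hc₀⟩ := hF L _ rfl
  have hpos : 0 < Module.finrank F L := Module.finrank_pos
  obtain ⟨T₀, hT₀, hli₀⟩ := hc₀.self_of_nhds
  have hN₀ := norm_generator rfl hpos c₀ T₀ hT₀ hli₀
  rcases Nat.lt_or_ge 1 (Module.finrank F L) with h1 | h1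
  · have hT₀0 : T₀ ≠ 0 := by
      intro h
      have := hli₀.ne_zero ⟨1, h1⟩
      simp [h] at this
    have hN0 : Algebra.norm F T₀ ≠ 0 := Algebra.norm_ne_zero_iff.mpr hT₀0
    have hcont : Tendsto (fun y : F => Function.update c₀ ⟨0, hpos⟩ (c₀ ⟨0, hpos⟩ * y)) (𝓝 1)
        (𝓝 c₀) := by
      have : ContinuousAt (fun y : F => Function.update c₀ ⟨0, hpos⟩ (c₀ ⟨0, hpos⟩ * y)) 1 := by
        refine (continuous_pi fun k => ?_).continuousAt
        by_cases hk : k = ⟨0, hpos⟩
        · subst hk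
          simp only [Function.update_self]
          fun_prop
        · simp only [Function.update_of_ne hk]
          fun_prop
      have h2 : Function.update c₀ ⟨0, hpos⟩ (c₀ ⟨0, hpos⟩ * 1) = c₀ := by simp
      rw [ContinuousAt, h2] at this
      exact this
    filter_upwards [hcont.eventually hc₀] with y hy
    obtain ⟨T, hT, hli⟩ := hy
    have hN := norm_generator rfl hpos _ T hT hli
    refine ⟨T * T₀⁻¹, ?_⟩
    rw [map_mul, Algebra.norm_inv, hN, hN₀]
    simp only [Function.update_self]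
    have hc0 : c₀ ⟨0, hpos⟩ ≠ 0 := by
      intro h
      rw [h, mul_zero] at hN₀
      exact hN0 hN₀
    field_simp
  · have h2 : Module.finrank F L = 1 := le_antisymm h1 hpos
    filter_upwards with y
    exact ⟨algebraMap F L y, by rw [Algebra.norm_algebraMap, h2, pow_one]⟩

theorem eventually_bad {F : Type} [Field F] [TopologicalSpace F] [IsTopologicalRing F] [T2Space F]
    (hF : P1 F) (L : Type) [Field L] [Algebra F L] [FiniteDimensional F L]
    [Algebra.IsSeparable F L] {ξ : F} (hξ : ξ ≠ 0) (hbad : ¬ ∃ z : L, Algebra.norm F z = ξ) :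
    ∀ᶠ x in 𝓝 ξ, x ≠ 0 ∧ ¬ ∃ z : L, Algebra.norm F z = x := by
  have h1 : ∀ᶠ x in 𝓝 ξ, x ≠ 0 := eventually_ne_nhds hξ
  have hc : Tendsto (fun x : F => ξ⁻¹ * x) (𝓝 ξ) (𝓝 1) := by
    have : ContinuousAt (fun x : F => ξ⁻¹ * x) ξ := by fun_prop
    rwa [ContinuousAt, inv_mul_cancel₀ hξ] at this
  have h2 := hc.eventually (P3_of_P1 hF L)
  filter_upwards [h1, h2] with x hx ⟨w, hw⟩
  refine ⟨hx, ?_⟩
  rintro ⟨z, hz⟩
  refine hbad ⟨z * w⁻¹, ?_⟩
  rw [map_mul, Algebra.norm_inv, hz, hw]
  field_simp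

/-- `F` has a separable extension of degree `d` whose norm map is not surjective -/
def Bad (F : Type) [Field F] (d : ℕ) : Prop :=
  ∃ (L : Type) (_ : Field L) (_ : Algebra F L), FiniteDimensional F L ∧ Algebra.IsSeparable F L ∧
    Module.finrank F L = d ∧ ∃ ξ : F, ξ ≠ 0 ∧ ¬ ∃ z : L, Algebra.norm F z = ξ

theorem isUnit_of_norm {R A : Type} [CommRing R] [CommRing A] [Algebra R A] [Module.Finite R A]
    [Module.Free R A] (x : A) (h : IsUnit (Algebra.norm R x)) : IsUnit x := by
  rw [Algebra.norm_apply, ← LinearMap.isUnit_iff_isUnit_det] at h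
  obtain ⟨u, hu⟩ := h
  have h1 : (u : Module.End R A) ((↑u⁻¹ : Module.End R A) 1) = 1 := by
    rw [← Module.End.mul_apply, Units.mul_inv]
    rfl
  rw [hu] at h1
  have : x * ((↑u⁻¹ : Module.End R A) 1) = 1 := by simpa using h1
  exact IsUnit.of_mul_eq_one _ this

theorem exists_scaling {K : Type} [Field K] (O : ValuationSubring K) {ι : Type} [Finite ι]
    (w : ι → K) (hw : w ≠ 0) :
    ∃ (a : K) (w' : ι → O), a ≠ 0 ∧ (∀ i, w i = a * w' i) ∧ ∃ i, w' i = 1 := by
  obtain ⟨i0, hi0⟩ := Function.ne_iff.mp hw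
  have : Nonempty ι := ⟨i0⟩
  obtain ⟨i, hi⟩ := Finite.exists_max (fun i => O.valuation (w i))
  have hne : w i ≠ 0 := by
    intro h
    have h1 := hi i0
    rw [h, map_zero] at h1
    have h2 : O.valuation (w i0) = 0 := le_antisymm h1 zero_le
    exact hi0 ((map_eq_zero _).mp h2)
  refine ⟨w i, fun j => ⟨w j / w i, ?_⟩, hne, ?_, i, ?_⟩
  · rw [← O.valuation_le_one_iff, map_div₀]
    exact div_le_one_of_le₀ (hi j) zero_le
  · intro j
    show w j = w i * (w j / w i)
    field_simp
  · ext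
    exact div_self hne

theorem mem_of_pow_mem {K : Type} [Field K] (O : ValuationSubring K) {a : K} {d : ℕ} (hd : 0 < d)
    (h : a ^ d ∈ O) : a ∈ O := by
  rw [← O.valuation_le_one_iff] at h ⊢
  rw [map_pow] at h
  by_contra h1
  push Not at h1
  exact absurd h (not_le.mpr (one_lt_pow₀ h1 hd.ne'))

section Local

variable {K : Type} [Field K] (O : ValuationSubring K) {F : Type} [Field F] (ψ : O →+* F)
  {e : ℕ} (gK : Fin (e+1) → K) (hg : ∀ k, gK k ∈ O) (M : Type) [Field M] [Algebra F M]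

/-- the polynomial over the valuation ring -/
abbrev gO : Fin (e+1) → O := fun k => ⟨gK k, hg k⟩

theorem root_phi {M : Type} [Field M] [Algebra F M] (T : M)
    (hT0 : ev (e+1) T (fun k => ψ (gO O gK hg k)) = 0) :
    eval₂ ((algebraMap F M).comp ψ) T (mpoly (e+1) (gO O gK hg)) = 0 := by
  rw [eval₂_mpoly, ← hT0, ev_eq]
  rfl

/-- the residue map on `O[X]/(g)` -/
noncomputable def phi {M : Type} [Field M] [Algebra F M] (T : M)
    (hT0 : ev (e+1) T (fun k => ψ (gO O gK hg k)) = 0) : Alg (e+1) (gO O gK hg) →+* M :=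
  AdjoinRoot.lift ((algebraMap F M).comp ψ) T (root_phi O ψ gK hg T hT0)

/-- the inclusion `O[X]/(g) → K[X]/(g)` -/
noncomputable def tau : Alg (e+1) (gO O gK hg) →+* Alg (e+1) gK :=
  algMap O.subtype (e+1) (gO O gK hg)

variable {M}

theorem phi_elt (T : M) (hT0 : ev (e+1) T (fun k => ψ (gO O gK hg k)) = 0)
    (w : Fin (e+1) → O) :
    phi O ψ gK hg T hT0 (elt (gO O gK hg) w) = ∑ k, ψ (w k) • T ^ (k : ℕ) := by
  rw [elt, map_sum]
  refine Finset.sum_congr rfl fun k _ => ?_
  rw [Algebra.smul_def, map_mul, algBasis_apply, map_pow, AdjoinRoot.algebraMap_eq, phi,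
    AdjoinRoot.lift_root, AdjoinRoot.lift_of, Algebra.smul_def]
  rfl

theorem phi_unit [FiniteDimensional F M] (hψ : ∀ x, ψ x ≠ 0 → IsUnit x)
    (hM : Module.finrank F M = e + 1) (T : M)
    (hT0 : ev (e+1) T (fun k => ψ (gO O gK hg k)) = 0)
    (hTli : LinearIndependent F (fun k : Fin (e+1) => T ^ (k : ℕ)))
    (x : Alg (e+1) (gO O gK hg)) (hx : phi O ψ gK hg T hT0 x ≠ 0) : IsUnit x := by
  classical
  have hcard : Fintype.card (Fin (e+1)) = Module.finrank F M := by rw [hM, Fintype.card_fin]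
  let b' : Module.Basis (Fin (e+1)) F M := basisOfLinearIndependentOfCardEqFinrank hTli hcard
  have hn : Algebra.norm F (phi O ψ gK hg T hT0 x) = ψ (Algebra.norm O x) := by
    refine norm_compat ψ (phi O ψ gK hg T hT0) ?_ (algBasis (e+1) (gO O gK hg)) b' ?_ x
    · intro r
      rw [AdjoinRoot.algebraMap_eq, phi, AdjoinRoot.lift_of]
      rfl
    · intro k
      rw [algBasis_apply, map_pow, phi, AdjoinRoot.lift_root]
      simp only [b', coe_basisOfLinearIndependentOfCardEqFinrank]
  have : Module.Finite O (Alg (e+1) (gO O gK hg)) := Module.Finite.of_basis (algBasis _ _)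
  have : Module.Free O (Alg (e+1) (gO O gK hg)) := Module.Free.of_basis (algBasis _ _)
  apply isUnit_of_norm (R := O)
  apply hψ
  rw [← hn]
  exact Algebra.norm_ne_zero_iff.mpr hx

theorem phi_elt_ne (T : M) (hT0 : ev (e+1) T (fun k => ψ (gO O gK hg k)) = 0)
    (hTli : LinearIndependent F (fun k : Fin (e+1) => T ^ (k : ℕ)))
    (w : Fin (e+1) → O) (k : Fin (e+1)) (hk : w k = 1) :
    phi O ψ gK hg T hT0 (elt (gO O gK hg) w) ≠ 0 := by
  rw [phi_elt]
  intro h
  have := (Fintype.linearIndependent_iff.mp hTli) _ h k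
  rw [hk, map_one] at this
  exact one_ne_zero this

theorem tau_repr (u : Alg (e+1) (gO O gK hg)) (k : Fin (e+1)) :
    (algBasis (e+1) gK).repr (tau O gK hg u) k =
      ((algBasis (e+1) (gO O gK hg)).repr u k : K) :=
  repr_compat O.subtype (tau O gK hg) (algMap_algebraMap O.subtype _ _) (algBasis _ _)
    (algBasis (e+1) gK) (algMap_basis O.subtype _ _) u k

theorem tau_elt (w : Fin (e+1) → O) :
    tau O gK hg (elt (gO O gK hg) w) = elt gK (fun k => (w k : K)) :=
  algMap_elt O.subtype (gO O gK hg) w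

theorem tau_mem {α : K} (u : Alg (e+1) (gO O gK hg))
    (h : algebraMap K (Alg (e+1) gK) α = tau O gK hg u) :
    ∃ β : O, (β : K) = α ∧ u = algebraMap O _ β := by
  have h1 : ∀ k : Fin (e+1), ((algBasis (e+1) (gO O gK hg)).repr u k : K) =
      (algBasis (e+1) gK).repr (algebraMap K (Alg (e+1) gK) α) k := by
    intro k
    rw [h, tau_repr]
  have h2 : algebraMap K (Alg (e+1) gK) α = α • algBasis (e+1) gK 0 := by
    rw [algBasis_apply, Algebra.smul_def]
    simp
  refine ⟨(algBasis (e+1) (gO O gK hg)).repr u 0, ?_, ?_⟩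
  · rw [h1, h2]
    simp
  · have h3 : algebraMap O (Alg (e+1) (gO O gK hg)) ((algBasis (e+1) (gO O gK hg)).repr u 0) =
        ((algBasis (e+1) (gO O gK hg)).repr u 0) • algBasis (e+1) (gO O gK hg) 0 := by
      rw [algBasis_apply, Algebra.smul_def]
      simp
    apply (algBasis (e+1) (gO O gK hg)).repr.injective
    ext k
    rw [h3, h1, h2]
    rw [map_smul, map_smul]
    by_cases hk : k = 0
    · subst hk
      simp only [Module.Basis.repr_self, Finsupp.smul_apply, Finsupp.single_eq_same, smul_eq_mul,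
        mul_one]
      rw [h1, h2]
      simp
    · simp [Ne.symm hk]

end Local

end Pool.Agent.W882.Nip3
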