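import Pool.Agent.W882.Nip3.Loc

open Topology Filter Polynomial TensorProduct

namespace Pool.Agent.W882.Nip3

/-- the map from `R0[Y]/(f)` to a field generated by a root of `f`, and norms -/
theorem norm_lift {R M L : Type} [CommRing R] [Nontrivial R] [Field M] [Field L] [Algebra M L]
    [FiniteDimensional M L] (φ : R →+* M) {d : ℕ} (hd : Module.finrank M L = d) (c : Fin d → R)
    (T : L) (h0 : ev d T (fun k => φ (c k)) = 0)
    (hli : LinearIndependent M (fun k : Fin d => T ^ (k : ℕ))) (w : Fin d → R) :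
    Algebra.norm M (∑ j, φ (w j) • T ^ (j : ℕ)) = φ (Algebra.norm R (∑ j, w j • algBasis d c j)) := by
  classical
  set i : R →+* L := (algebraMap M L).comp φ with hi
  have hroot : eval₂ i T (mpoly d c) = 0 := by
    rw [eval₂_mpoly, ← h0, ev_eq]
    rfl
  let χ : Alg d c →+* L := AdjoinRoot.lift i T hroot
  have hcard : Fintype.card (Fin d) = Module.finrank M L := by rw [hd, Fintype.card_fin]
  have hχ : χ (∑ j, w j • algBasis d c j) = ∑ j, φ (w j) • T ^ (j : ℕ) := by
    rw [map_sum]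
    refine Finset.sum_congr rfl fun k _ => ?_
    rw [Algebra.smul_def, map_mul, algBasis_apply, map_pow, AdjoinRoot.algebraMap_eq]
    simp only [χ, AdjoinRoot.lift_root, AdjoinRoot.lift_of, Algebra.smul_def, hi,
      RingHom.comp_apply]
  rw [← hχ]
  cases d with
  | zero =>
    exfalso
    have : 0 < Module.finrank M L := Module.finrank_pos
    omega
  | succ d =>
    let b' : Module.Basis (Fin (d+1)) M L := basisOfLinearIndependentOfCardEqFinrank hli hcard
    refine norm_compat φ χ ?_ (algBasis (d+1) c) b' ?_ _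
    · intro r
      rw [AdjoinRoot.algebraMap_eq]
      simp only [χ, AdjoinRoot.lift_of, hi, RingHom.comp_apply]
    · intro k
      rw [algBasis_apply, map_pow]
      simp only [χ, b', AdjoinRoot.lift_root, coe_basisOfLinearIndependentOfCardEqFinrank]

section

variable {K : Type} [Field K] (O : ValuationSubring K) {F : Type} [Field F] (ψ : O →+* F)
  {e : ℕ} (gK : Fin (e+1) → K) (hg : ∀ k, gK k ∈ O) {M : Type} [Field M] [Algebra F M]

/-- the subgroup `H` -/
noncomputable def subH (hψ : ∀ x, ψ x ≠ 0 → IsUnit x) [FiniteDimensional F M]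
    (hM : Module.finrank F M = e + 1) (T : M)
    (hT0 : ev (e+1) T (fun k => ψ (gO O gK hg k)) = 0)
    (hTli : LinearIndependent F (fun k : Fin (e+1) => T ^ (k : ℕ))) (L : Type) [Field L]
    [Algebra M L] [FiniteDimensional M L] (d : ℕ) : Subgroup (Alg (e+1) gK)ˣ where
  carrier := {u | ∃ (a : K) (u' : Alg (e+1) (gO O gK hg)) (z : L), a ≠ 0 ∧
    (u : Alg (e+1) gK) = algebraMap K _ a ^ d * tau O gK hg u' ∧
    phi O ψ gK hg T hT0 u' ≠ 0 ∧ Algebra.norm M z = phi O ψ gK hg T hT0 u'}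
  mul_mem' := by
    rintro u v ⟨a, u', z, h1, h2, h3, h4⟩ ⟨b, v', y, h5, h6, h7, h8⟩
    refine ⟨a * b, u' * v', z * y, mul_ne_zero h1 h5, ?_, ?_, ?_⟩
    · rw [Units.val_mul, h2, h6, map_mul, map_mul, mul_pow]
      ring
    · rw [map_mul]
      exact mul_ne_zero h3 h7
    · rw [map_mul, map_mul, h4, h8]
  one_mem' := ⟨1, 1, 1, one_ne_zero, by simp, by simp, by simp⟩
  inv_mem' := by
    rintro u ⟨a, u', z, h1, h2, h3, h4⟩
    obtain ⟨v, hv⟩ := phi_unit O ψ gK hg hψ hM T hT0 hTli u' h3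
    have hphi : phi O ψ gK hg T hT0 u' * phi O ψ gK hg T hT0 ((v⁻¹ : (Alg (e+1) (gO O gK hg))ˣ) :
        Alg (e+1) (gO O gK hg)) = 1 := by
      rw [← hv, ← map_mul, Units.mul_inv, map_one]
    refine ⟨a⁻¹, ((v⁻¹ : (Alg (e+1) (gO O gK hg))ˣ) : Alg (e+1) (gO O gK hg)), z⁻¹,
      inv_ne_zero h1, ?_, ?_, ?_⟩
    · have h5 : (u : Alg (e+1) gK) * (algebraMap K (Alg (e+1) gK) a⁻¹ ^ d * tau O gK hg
          ((v⁻¹ : (Alg (e+1) (gO O gK hg))ˣ) : Alg (e+1) (gO O gK hg))) = 1 := by
        rw [h2, mul_mul_mul_comm, ← mul_pow, ← map_mul, mul_inv_cancel₀ h1, map_one, one_pow,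
          one_mul, ← map_mul, ← hv, Units.mul_inv, map_one]
      have h6 := congrArg (fun t => ((u⁻¹ : (Alg (e+1) gK)ˣ) : Alg (e+1) gK) * t) h5
      simp only [← mul_assoc, Units.inv_mul, one_mul, mul_one] at h6
      exact h6.symm
    · exact right_ne_zero_of_mul_eq_one hphi
    · rw [Algebra.norm_inv, h4]
      exact inv_eq_of_mul_eq_one_right hphi

theorem local_part (hψ : ∀ x, ψ x ≠ 0 → IsUnit x) [FiniteDimensional F M]
    (hM : Module.finrank F M = e + 1) [TopologicalSpace M] [IsTopologicalRing M] [T2Space M]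
    (hP1 : P1 M) (T : M)
    (hT0 : ev (e+1) T (fun k => ψ (gO O gK hg k)) = 0)
    (hTli : LinearIndependent F (fun k : Fin (e+1) => T ^ (k : ℕ)))
    (hdense : DenseRange (phi O ψ gK hg T hT0)) {d : ℕ} (L : Type) [Field L]
    [Algebra M L] [FiniteDimensional M L] [Algebra.IsSeparable M L]
    (hL : Module.finrank M L = d) (ξ : M) (hξ0 : ξ ≠ 0) (hξ : ¬ ∃ z : L, Algebra.norm M z = ξ)
    {Y : Type} [Finite Y] (B : Set Y) (c : Y → Fin d → Alg (e+1) (gO O gK hg))
    (hc1 : ∀ y ∈ B, ∃ T2 : L, ev d T2 (fun j => phi O ψ gK hg T hT0 (c y j)) = 0 ∧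
      LinearIndependent M (fun j : Fin d => T2 ^ (j : ℕ)))
    (hc2 : ∀ y ∉ B, ∃ t : Fin d → M, Function.Injective t ∧
      ∀ a, ev d (t a) (fun j => phi O ψ gK hg T hT0 (c y j)) = 0) :
    ∃ (x : (Alg (e+1) gK)ˣ) (H : Subgroup (Alg (e+1) gK)ˣ),
      (∀ y ∉ B, ∃ z : Alg d (fun j => tau O gK hg (c y j)), Algebra.norm (Alg (e+1) gK) z = x) ∧
      (∀ y ∈ B, ∀ u : (Alg (e+1) gK)ˣ,
        (∃ z : Alg d (fun j => tau O gK hg (c y j)), Algebra.norm (Alg (e+1) gK) z = u) → u ∈ H) ∧
      x ∉ H := by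
  classical
  have := Fintype.ofFinite Y
  have hdpos : 0 < d := by
    rw [← hL]
    exact Module.finrank_pos
  let _ : Algebra (Alg (e+1) (gO O gK hg)) M := (phi O ψ gK hg T hT0).toAlgebra
  obtain ⟨x0, hx0U, hx0z⟩ := exists_norms (K := Alg (e+1) (gO O gK hg)) (F := M) hdense
    (fun y => Alg d (c y)) (Finset.univ.filter (fun y => y ∉ B)).toList
    (by
      intro y hy
      have hy' : y ∉ B := by simpa using hy
      obtain ⟨t, ht, ht0⟩ := hc2 y hy'
      exact splitAt_of_roots hdpos (c y) t ht ht0)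
    ξ _ (eventually_bad hP1 L hξ0 hξ)
  have hx0U' : phi O ψ gK hg T hT0 x0 ≠ 0 ∧
      ¬ ∃ z : L, Algebra.norm M z = phi O ψ gK hg T hT0 x0 := hx0U
  obtain ⟨hx1, hx2⟩ := hx0U'
  obtain ⟨v0, hv0⟩ := phi_unit O ψ gK hg hψ hM T hT0 hTli x0 hx1
  let x : (Alg (e+1) gK)ˣ := Units.map (tau O gK hg : Alg (e+1) (gO O gK hg) →* Alg (e+1) gK) v0
  have hxval : (x : Alg (e+1) gK) = tau O gK hg x0 := by
    rw [← hv0]
    rfl
  refine ⟨x, subH O ψ gK hg hψ hM T hT0 hTli L d, ?_, ?_, ?_⟩
  · intro y hy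
    obtain ⟨z, hz⟩ := hx0z y (by simpa using hy)
    refine ⟨algMap (tau O gK hg) d (c y) z, ?_⟩
    rw [hxval, ← hz]
    exact norm_compat (tau O gK hg) (algMap (tau O gK hg) d (c y)) (algMap_algebraMap _ _ _)
      (algBasis d (c y)) (algBasis d _) (algMap_basis _ _ _) z
  · rintro y hy u ⟨z, hz⟩
    obtain ⟨T2, hT2, hli2⟩ := hc1 y hy
    choose w hw using fun j : Fin d => exists_elt gK ((algBasis d
      (fun j => tau O gK hg (c y j))).repr z j)
    have hw0 : (fun p : Fin d × Fin (e+1) => w p.1 p.2) ≠ 0 := by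
      intro h
      have hz0 : z = 0 := by
        rw [← (algBasis d (fun j => tau O gK hg (c y j))).sum_repr z]
        refine Finset.sum_eq_zero fun j _ => ?_
        rw [← hw j]
        have : w j = 0 := by
          funext k
          exact congrFun h (j, k)
        rw [this, elt]
        simp
      rw [hz0] at hz
      have hfin : Module.Finite (Alg (e+1) gK) (Alg d (fun j => tau O gK hg (c y j))) :=
        Module.Finite.of_basis (algBasis d _)
      have hnt : Nontrivial (Alg d (fun j => tau O gK hg (c y j))) :=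
        ⟨⟨algBasis d _ ⟨0, hdpos⟩, 0, (algBasis d _).ne_zero _⟩⟩
      have h1 : IsUnit (0 : Alg (e+1) gK) := by
        have h2 : Algebra.norm (Alg (e+1) gK) (0 : Alg d (fun j => tau O gK hg (c y j))) = 0 := by
          rw [Algebra.norm_eq_matrix_det (algBasis d _), map_zero]
          have : Nonempty (Fin d) := ⟨⟨0, hdpos⟩⟩
          exact Matrix.det_zero
        rw [← h2, hz]
        exact u.isUnit
      exact not_isUnit_zero h1
    obtain ⟨a, w', ha, hww', ⟨p, hp⟩⟩ := exists_scaling O _ hw0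
    -- the primitive element
    set z0 : Alg d (c y) := ∑ j, elt (gO O gK hg) (fun k => w' (j, k)) • algBasis d (c y) j with hz0
    have hz' : z = algebraMap (Alg (e+1) gK) _ (algebraMap K _ a) *
        algMap (tau O gK hg) d (c y) z0 := by
      rw [← (algBasis d (fun j => tau O gK hg (c y j))).sum_repr z, hz0, map_sum, Finset.mul_sum]
      refine Finset.sum_congr rfl fun j _ => ?_
      rw [← hw j, Algebra.smul_def, Algebra.smul_def, map_mul, algMap_algebraMap, algMap_basis,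
        ← mul_assoc, ← map_mul]
      congr 2
      rw [tau_elt, elt, elt, Finset.mul_sum]
      refine Finset.sum_congr rfl fun k _ => ?_
      rw [Algebra.smul_def, Algebra.smul_def, ← mul_assoc, ← map_mul]
      congr 2
      exact hww' (j, k)
    have hnz : Algebra.norm (Alg (e+1) gK) z = algebraMap K _ a ^ d *
        tau O gK hg (Algebra.norm _ z0) := by
      rw [hz', map_mul, Algebra.norm_algebraMap_of_basis (algBasis d
        (fun j => tau O gK hg (c y j))), Fintype.card_fin]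
      congr 1
      exact norm_compat (tau O gK hg) (algMap (tau O gK hg) d (c y)) (algMap_algebraMap _ _ _)
        (algBasis d (c y)) (algBasis d _) (algMap_basis _ _ _) z0
    have hnphi := norm_lift (phi O ψ gK hg T hT0) hL (c y) T2 hT2 hli2
      (fun j => elt (gO O gK hg) (fun k => w' (j, k)))
    refine ⟨a, Algebra.norm _ z0, _, ha, by rw [← hz, hnz], ?_, hnphi⟩
    rw [← hnphi]
    refine Algebra.norm_ne_zero_iff.mpr ?_
    intro h
    have h1 := (Fintype.linearIndependent_iff.mp hli2) _ h p.1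
    exact phi_elt_ne O ψ gK hg T hT0 hTli (fun k => w' (p.1, k)) p.2 hp h1
  · rintro ⟨a, u', z, ha, h1, h2, h3⟩
    obtain ⟨v, hv⟩ := phi_unit O ψ gK hg hψ hM T hT0 hTli u' h2
    have h4 : algebraMap K (Alg (e+1) gK) (a ^ d) = tau O gK hg (x0 *
        ((v⁻¹ : (Alg (e+1) (gO O gK hg))ˣ) : Alg (e+1) (gO O gK hg))) := by
      rw [map_mul, ← hxval, h1, mul_assoc, ← map_mul, ← hv, Units.mul_inv, map_one, mul_one,
        map_pow]
    have h5 : algebraMap K (Alg (e+1) gK) ((a⁻¹) ^ d) = tau O gK hg (u' *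
        ((v0⁻¹ : (Alg (e+1) (gO O gK hg))ˣ) : Alg (e+1) (gO O gK hg))) := by
      have h6 : algebraMap K (Alg (e+1) gK) ((a⁻¹) ^ d) *
          algebraMap K (Alg (e+1) gK) (a ^ d) = 1 := by
        rw [← map_mul, ← mul_pow, inv_mul_cancel₀ ha, one_pow, map_one]
      have h7 : tau O gK hg (u' * ((v0⁻¹ : (Alg (e+1) (gO O gK hg))ˣ) :
          Alg (e+1) (gO O gK hg))) * algebraMap K (Alg (e+1) gK) (a ^ d) = 1 := by
        rw [h4, ← map_mul, ← hv0, ← hv]
        rw [show (v : Alg (e+1) (gO O gK hg)) * ((v0⁻¹ : (Alg (e+1) (gO O gK hg))ˣ) :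
          Alg (e+1) (gO O gK hg)) * ((v0 : Alg (e+1) (gO O gK hg)) *
          ((v⁻¹ : (Alg (e+1) (gO O gK hg))ˣ) : Alg (e+1) (gO O gK hg))) = 1 by
            rw [← Units.val_mul, ← Units.val_mul, ← Units.val_mul]
            simp]
        exact map_one _
      exact left_inv_eq_right_inv h6 (by rw [mul_comm]; exact h7)
    obtain ⟨β, hβ, hβ2⟩ := tau_mem O gK hg _ h4
    obtain ⟨γ, hγ, hγ2⟩ := tau_mem O gK hg _ h5
    have haO : a ∈ O := mem_of_pow_mem O hdpos (hβ ▸ β.2)
    have hx : x0 = algebraMap O _ ⟨a, haO⟩ ^ d * u' := by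
      have h8 : algebraMap O (Alg (e+1) (gO O gK hg)) β = algebraMap O _ ⟨a, haO⟩ ^ d := by
        rw [← map_pow]
        congr 1
        ext
        exact hβ
      rw [← h8, ← hβ2, mul_assoc, ← hv, Units.inv_mul, mul_one]
    apply hx2
    refine ⟨algebraMap M L (algebraMap F M (ψ ⟨a, haO⟩)) * z, ?_⟩
    rw [map_mul, h3, Algebra.norm_algebraMap, hL, hx, map_mul, map_pow]
    congr 2
    rw [AdjoinRoot.algebraMap_eq, phi, AdjoinRoot.lift_of]
    rfl

end

end Pool.Agent.W882.Nip3
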