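import Pool.Agent.W882.Nip3.Bound

open Topology Filter ENNReal

namespace Pool.Agent.W882.Nip3

section

variable {K : Type} [Field K]

theorem Place.mu_lt_one_iff (P : Place K) (x : K) : mu P.O P.res x < 1 ↔ P.Small x := by
  constructor
  · intro h
    have hx : x ∈ P.O := (mu_lt_top P.O P.res).mp (h.trans ENNReal.one_lt_top)
    refine ⟨hx, ?_⟩
    rw [mu_of_mem P.O P.res hx] at h
    have h1 : ‖P.res ⟨x, hx⟩‖₊ < 1 := by exact_mod_cast h
    exact_mod_cast h1
  · rintro ⟨hx, h⟩
    rw [mu_of_mem P.O P.res hx]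
    have h1 : ‖P.res ⟨x, hx⟩‖₊ < 1 := by exact_mod_cast h
    exact_mod_cast h1

theorem Place.one_lt_mu_iff (P : Place K) {x : K} (hx : x ≠ 0) :
    1 < mu P.O P.res x ↔ P.Small x⁻¹ := by
  rw [← Place.mu_lt_one_iff, mu_inv P.O P.res P.isUnit_of_res_ne_zero hx]
  exact ENNReal.inv_lt_one.symm

theorem Place.exists_small (P : Place K) : ∃ x : K, x ≠ 0 ∧ P.Small x := by
  obtain ⟨a, ha0, ha⟩ := NormedField.exists_norm_lt_one P.F
  have hopen : IsOpen {y : P.F | 0 < ‖y‖ ∧ ‖y‖ < 1} :=
    (isOpen_lt continuous_const continuous_norm).inter (isOpen_lt continuous_norm continuous_const)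
  obtain ⟨x, hx0, hx⟩ := P.denseRange.exists_mem_open hopen ⟨a, ha0, ha⟩
  refine ⟨x, ?_, x.2, hx⟩
  intro h
  have h1 : x = 0 := Subtype.ext h
  rw [h1, map_zero, norm_zero] at hx0
  exact lt_irrefl _ hx0

end

/-- The main theorem, general form. -/
theorem main_general {K : Type} [Field K] [FirstOrder.Ring.CompatibleRing K]
    (hK : ∀ e d, BoundedBadG K e d) (D : ℕ) :
    ∃ N : ℕ, ∀ (K' : Type) [Field K'] [FirstOrder.Ring.CompatibleRing K'],
      FirstOrder.Language.ring.ElementarilyEquivalent K K' →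
      ∀ P : Fin N → Place K', (Pairwise fun i j => (P i).Incomparable (P j)) →
        ∃ i, DimLeOneUpTo (P i).F D := by
  classical
  choose N hN using fun p : Fin D × Fin (D+1) => hK p.1 p.2
  refine ⟨(∑ p, N p) + 1, fun K' _ _ hKK' P hpw => ?_⟩
  by_contra hbad
  push Not at hbad
  choose e d hed using fun i => exists_bad (hbad i)
  -- pigeonhole
  obtain ⟨p, hp⟩ : ∃ p : Fin D × Fin (D+1),
      N p ≤ (Finset.univ.filter (fun i => (e i, d i) = p)).card := by
    by_contra hlt
    push Not at hlt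
    have h1 : ∑ p : Fin D × Fin (D+1), (Finset.univ.filter (fun i => (e i, d i) = p)).card =
        (∑ p, N p) + 1 := by
      rw [← Finset.card_eq_sum_card_fiberwise (f := fun i => (e i, d i)) (s := Finset.univ)
        (t := Finset.univ) (fun _ _ => Finset.mem_coe.mpr (Finset.mem_univ _))]
      simp
    have h2 : ∑ p : Fin D × Fin (D+1), (Finset.univ.filter (fun i => (e i, d i) = p)).card ≤
        ∑ p, N p := Finset.sum_le_sum fun p _ => (hlt p).le
    omega
  obtain ⟨s, hs, hcard⟩ := Finset.exists_subset_card_eq hp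
  let emb : Fin (N p) → Fin ((∑ p, N p) + 1) := fun i => (s.orderEmbOfFin hcard i)
  have hemb : Function.Injective emb := (s.orderEmbOfFin hcard).injective
  obtain ⟨i, hi⟩ := hN p K' hKK' (fun i => (P (emb i)).O) (fun i => (P (emb i)).F)
    (fun i => (P (emb i)).res) (fun i => (P (emb i)).isUnit_of_res_ne_zero)
    (fun i => (P (emb i)).denseRange)
    (by
      intro J
      obtain ⟨x, hx, hs⟩ := (P (emb J)).exists_small
      exact ⟨x, hx, ((P (emb J)).mu_lt_one_iff x).mpr hs⟩)
    (by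
      intro j i hij
      obtain ⟨x, hx, h1, h2⟩ := hpw (hemb.ne hij.symm)
      exact ⟨x, hx, ((P (emb j)).mu_lt_one_iff x).mpr h1,
        ((P (emb i)).one_lt_mu_iff hx).mpr h2⟩)
  have hmem : (e (emb i), d (emb i)) = p := by
    have := hs (Finset.orderEmbOfFin_mem s hcard i)
    simpa using this
  apply hi
  have h5 := hed (emb i)
  have h6 : e (emb i) = p.1 := congrArg Prod.fst hmem
  have h7 : d (emb i) = p.2 := congrArg Prod.snd hmem
  rw [h6, h7] at h5
  exact h5

theorem boundedG_of_tame {K : Type} [Field K] [FirstOrder.Ring.CompatibleRing K]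
    (hK : NIPField K ∨ (∃ n, NIPnField n K) ∨ NTP2Field K) (e d : ℕ) : BoundedBadG K e d := by
  rcases hK with h | ⟨n, h⟩ | h
  · exact boundedG_of_nipn (nip_one h) e d
  · exact boundedG_of_nipn h e d
  · exact boundedG_of_ntp2 h e d

end Pool.Agent.W882.Nip3
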