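import Mathlib

open Topology Filter ENNReal

namespace Pool.Agent.W882.Nip3

/-- the size of `x` with respect to a place of `K` -/
noncomputable def mu {K F : Type} [Field K] [NormedField F] (O : ValuationSubring K) (ψ : O →+* F)
    (x : K) : ℝ≥0∞ := by
  classical
  exact if h : x ∈ O then (‖ψ ⟨x, h⟩‖₊ : ℝ≥0∞) else ⊤

section

variable {K F : Type} [Field K] [NormedField F] (O : ValuationSubring K) (ψ : O →+* F)

theorem mu_of_mem {x : K} (h : x ∈ O) : mu O ψ x = (‖ψ ⟨x, h⟩‖₊ : ℝ≥0∞) := dif_pos h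

theorem mu_of_not_mem {x : K} (h : x ∉ O) : mu O ψ x = ⊤ := dif_neg h

theorem mu_lt_top {x : K} : mu O ψ x < ⊤ ↔ x ∈ O := by
  constructor
  · intro h
    by_contra hx
    rw [mu_of_not_mem O ψ hx] at h
    exact lt_irrefl _ h
  · intro h
    rw [mu_of_mem O ψ h]
    exact coe_lt_top

theorem mu_add (x y : K) : mu O ψ (x + y) ≤ mu O ψ x + mu O ψ y := by
  by_cases hx : x ∈ O
  · by_cases hy : y ∈ O
    · rw [mu_of_mem O ψ hx, mu_of_mem O ψ hy, mu_of_mem O ψ (O.add_mem _ _ hx hy), ← ENNReal.coe_add,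
        ENNReal.coe_le_coe]
      have : (⟨x + y, O.add_mem _ _ hx hy⟩ : O) = ⟨x, hx⟩ + ⟨y, hy⟩ := rfl
      rw [this, map_add]
      exact nnnorm_add_le _ _
    · rw [mu_of_not_mem O ψ hy, add_top]
      exact le_top
  · rw [mu_of_not_mem O ψ hx, top_add]
    exact le_top

theorem mu_neg (x : K) : mu O ψ (-x) = mu O ψ x := by
  by_cases hx : x ∈ O
  · rw [mu_of_mem O ψ hx, mu_of_mem O ψ (O.neg_mem _ hx)]
    have : (⟨-x, O.neg_mem _ hx⟩ : O) = -⟨x, hx⟩ := rfl
    rw [this, map_neg, nnnorm_neg]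
  · have hx' : -x ∉ O := fun h => hx (by simpa using O.neg_mem _ h)
    rw [mu_of_not_mem O ψ hx, mu_of_not_mem O ψ hx']

theorem mu_le_add (x y : K) : mu O ψ x ≤ mu O ψ (x + y) + mu O ψ y := by
  calc mu O ψ x = mu O ψ ((x + y) + -y) := by rw [add_neg_cancel_right]
    _ ≤ _ := by
      refine (mu_add O ψ _ _).trans ?_
      rw [mu_neg]

theorem mu_mul {x y : K} (hx : x ∈ O) (hy : y ∈ O) :
    mu O ψ (x * y) = mu O ψ x * mu O ψ y := by
  rw [mu_of_mem O ψ hx, mu_of_mem O ψ hy, mu_of_mem O ψ (O.mul_mem _ _ hx hy), ← ENNReal.coe_mul]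
  have : (⟨x * y, O.mul_mem _ _ hx hy⟩ : O) = ⟨x, hx⟩ * ⟨y, hy⟩ := rfl
  rw [this, map_mul, nnnorm_mul]

theorem mu_one : mu O ψ 1 = 1 := by
  rw [mu_of_mem O ψ O.one_mem]
  have : (⟨1, O.one_mem⟩ : O) = 1 := rfl
  rw [this, map_one, nnnorm_one, ENNReal.coe_one]

theorem mu_zero : mu O ψ 0 = 0 := by
  rw [mu_of_mem O ψ O.zero_mem]
  have : (⟨0, O.zero_mem⟩ : O) = 0 := rfl
  rw [this, map_zero, nnnorm_zero, ENNReal.coe_zero]

variable (hψ : ∀ x, ψ x ≠ 0 → IsUnit x)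

include hψ in
theorem mu_inv {x : K} (hx : x ≠ 0) : mu O ψ x⁻¹ = (mu O ψ x)⁻¹ := by
  by_cases h : x ∈ O
  · by_cases h' : x⁻¹ ∈ O
    · have h1 : mu O ψ x * mu O ψ x⁻¹ = 1 := by
        rw [← mu_mul O ψ h h', mul_inv_cancel₀ hx, mu_one]
      exact ENNReal.eq_inv_of_mul_eq_one_left (by rw [mul_comm]; exact h1)
    · rw [mu_of_not_mem O ψ h', mu_of_mem O ψ h]
      have h1 : ψ ⟨x, h⟩ = 0 := by
        by_contra hne
        obtain ⟨u, hu⟩ := hψ _ hne
        apply h'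
        have h2 : ((u⁻¹ : Oˣ) : O) * u = 1 := Units.inv_mul u
        have h3 : (((u⁻¹ : Oˣ) : O) : K) * x = 1 := by
          have := congrArg (fun t : O => (t : K)) h2
          simpa [hu] using this
        have h4 : x⁻¹ = (((u⁻¹ : Oˣ) : O) : K) := (eq_inv_of_mul_eq_one_left h3).symm
        rw [h4]
        exact ((u⁻¹ : Oˣ) : O).2
      rw [h1, nnnorm_zero, ENNReal.coe_zero, ENNReal.inv_zero]
  · have h' : x⁻¹ ∈ O := (O.mem_or_inv_mem x).resolve_left h
    rw [mu_of_not_mem O ψ h, mu_of_mem O ψ h', ENNReal.inv_top]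
    have h1 : ψ ⟨x⁻¹, h'⟩ = 0 := by
      by_contra hne
      obtain ⟨u, hu⟩ := hψ _ hne
      apply h
      have h2 : ((u⁻¹ : Oˣ) : O) * u = 1 := Units.inv_mul u
      have h3 : (((u⁻¹ : Oˣ) : O) : K) * x⁻¹ = 1 := by
        have := congrArg (fun t : O => (t : K)) h2
        simpa [hu] using this
      have h4 : x = (((u⁻¹ : Oˣ) : O) : K) := by
        have := (eq_inv_of_mul_eq_one_left h3).symm
        rwa [inv_inv] at this
      rw [h4]
      exact ((u⁻¹ : Oˣ) : O).2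
    rw [h1, nnnorm_zero, ENNReal.coe_zero]

theorem not_mem_pow {x : K} (hx : x ∉ O) {n : ℕ} (hn : n ≠ 0) : x ^ n ∉ O := by
  intro h
  apply hx
  rw [← O.valuation_le_one_iff] at h ⊢
  rw [map_pow] at h
  by_contra h1
  push Not at h1
  exact absurd h (not_le.mpr (one_lt_pow₀ h1 hn))

theorem mu_pow (x : K) {n : ℕ} (hn : n ≠ 0) : mu O ψ (x ^ n) = mu O ψ x ^ n := by
  by_cases hx : x ∈ O
  · rw [mu_of_mem O ψ hx, mu_of_mem O ψ (O.pow_mem hx n), ← ENNReal.coe_pow]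
    have : (⟨x ^ n, O.pow_mem hx n⟩ : O) = ⟨x, hx⟩ ^ n := rfl
    rw [this, map_pow, nnnorm_pow]
  · rw [mu_of_not_mem O ψ hx, mu_of_not_mem O ψ (not_mem_pow O hx hn), ENNReal.top_pow hn]

theorem mu_pow_small {A : K} (hA : mu O ψ A < 1) :
    Tendsto (fun r : ℕ => mu O ψ (A ^ r)) atTop (𝓝 0) := by
  refine (ENNReal.tendsto_pow_atTop_nhds_zero_of_lt_one hA).congr' ?_
  filter_upwards [eventually_ne_atTop 0] with r hr
  exact (mu_pow O ψ A hr).symm

theorem mu_pow_large {A : K} (hA : 1 < mu O ψ A) {C : ℝ≥0∞} (hC : C < ⊤) :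
    ∀ᶠ r : ℕ in atTop, C < mu O ψ (A ^ r) := by
  by_cases h : A ∈ O
  · rw [mu_of_mem O ψ h] at hA
    have hA' : (1 : ℝ) < ‖ψ ⟨A, h⟩‖ := by
      have : (1 : NNReal) < ‖ψ ⟨A, h⟩‖₊ := by exact_mod_cast hA
      exact_mod_cast this
    have h1 := tendsto_pow_atTop_atTop_of_one_lt hA'
    filter_upwards [h1.eventually_gt_atTop C.toReal, eventually_ne_atTop 0] with r hr hr0
    rw [mu_pow O ψ A hr0, mu_of_mem O ψ h, ← ENNReal.coe_pow]
    rw [← ENNReal.coe_toNNReal hC.ne, ENNReal.coe_lt_coe]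
    rw [← NNReal.coe_lt_coe]
    push_cast
    exact hr
  · filter_upwards [eventually_ne_atTop 0] with r hr
    rw [mu_of_not_mem O ψ (not_mem_pow O h hr)]
    exact hC

theorem eventually_not_of_two {P : ℕ → Prop} (h : ∀ r r', r < r' → P r → P r' → False) :
    ∀ᶠ r : ℕ in atTop, ¬ P r := by
  by_cases h1 : ∃ r, P r
  · obtain ⟨r, hr⟩ := h1
    filter_upwards [eventually_gt_atTop r] with r' hr' hP
    exact h r r' hr' hr hP
  · push Not at h1
    exact Eventually.of_forall h1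

theorem mu_sum_large {A : K} (hA : 1 < mu O ψ A) (b : K) {C : ℝ≥0∞} (hC : C < ⊤) :
    ∀ᶠ r : ℕ in atTop, C < mu O ψ (A ^ r + b) := by
  by_cases hb : b ∈ O
  · have hb' : mu O ψ b < ⊤ := (mu_lt_top O ψ).mpr hb
    filter_upwards [mu_pow_large O ψ hA (C := C + mu O ψ b) (ENNReal.add_lt_top.mpr ⟨hC, hb'⟩)]
      with r hr
    have h1 := hr.trans_le (mu_le_add O ψ (A ^ r) b)
    exact (ENNReal.add_lt_add_iff_right hb'.ne).mp h1
  · by_cases hAO : A ∈ O
    · filter_upwards with r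
      rw [mu_of_not_mem]
      · exact hC
      · intro h
        apply hb
        have := sub_mem h (O.pow_mem hAO r)
        simpa using this
    · have h1 : ∀ᶠ r : ℕ in atTop, ¬ (r ≠ 0 ∧ A ^ r + b ∈ O) := by
        refine eventually_not_of_two ?_
        rintro r r' hrr ⟨hr0, hr⟩ ⟨-, hr'⟩
        have h2 : A ^ r * (A ^ (r' - r) - 1) ∈ O := by
          have h3 := sub_mem hr' hr
          have h4 : A ^ r' + b - (A ^ r + b) = A ^ r * (A ^ (r' - r) - 1) := by
            rw [mul_sub, ← pow_add, Nat.add_sub_cancel' hrr.le]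
            ring
          rwa [h4] at h3
        have h5 : A ^ (r' - r) - 1 ∉ O := by
          intro h
          have := O.add_mem _ _ h O.one_mem
          rw [sub_add_cancel] at this
          exact not_mem_pow O hAO (Nat.sub_ne_zero_of_lt hrr) this
        have h6 := not_mem_pow O hAO hr0
        have h7 : (A ^ (r' - r) - 1)⁻¹ ∈ O := (O.mem_or_inv_mem _).resolve_left h5
        have h8 : A ^ (r' - r) - 1 ≠ 0 := fun h => h5 (by rw [h]; exact O.zero_mem)
        apply h6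
        have h9 := O.mul_mem _ _ h2 h7
        rwa [mul_assoc, mul_inv_cancel₀ h8, mul_one] at h9
      filter_upwards [h1, eventually_ne_atTop 0] with r hr hr0
      rw [mu_of_not_mem]
      · exact hC
      · exact fun h => hr ⟨hr0, h⟩

end

end Pool.Agent.W882.Nip3
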