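import Pool.Agent.W882.Nip3.Loc2

open Topology Filter Polynomial TensorProduct

namespace Pool.Agent.W882.Nip3

/-- `F` has a separable extension `M` of degree `e` which has a separable extension of degree `d`
with a norm map that is not surjective -/
def BadE (F : Type) [Field F] (e d : ℕ) : Prop :=
  ∃ (M : Type) (_ : Field M) (_ : Algebra F M), FiniteDimensional F M ∧ Algebra.IsSeparable F M ∧
    Module.finrank F M = e ∧ Bad M d

theorem main_places {K : Type} [Field K] {I : Type} [Finite I] (O : I → ValuationSubring K)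
    (F : I → Type) [∀ J, NontriviallyNormedField (F J)] [∀ J, CompleteSpace (F J)]
    (ψ : ∀ J, O J →+* F J) (hψ : ∀ J x, ψ J x ≠ 0 → IsUnit x) (S : Subring K)
    (hS : ∀ J, ∀ x ∈ S, x ∈ O J)
    (hdense : DenseRange (fun (x : S) (J : I) => ψ J ⟨x, hS J x x.2⟩)) {e d : ℕ}
    (hbad : ∀ J, BadE (F J) (e+1) d) {Y : Type} [Finite Y] (B : Y → Set I) :
    ∃ (g : Fin (e+1) → K) (c : Y → Fin d → Alg (e+1) g) (x : I → (Alg (e+1) g)ˣ)
      (H : I → Subgroup (Alg (e+1) g)ˣ),
      (∀ J y, J ∉ B y → ∃ z : Alg d (c y), Algebra.norm (Alg (e+1) g) z = x J) ∧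
      (∀ J y, J ∈ B y → ∀ u : (Alg (e+1) g)ˣ,
        (∃ z : Alg d (c y), Algebra.norm (Alg (e+1) g) z = u) → u ∈ H J) ∧
      ∀ J, x J ∉ H J := by
  classical
  by_cases hI : Nonempty I
  swap
  · rw [not_nonempty_iff] at hI
    exact ⟨0, fun _ _ => 0, fun J => (hI.false J).elim, fun J => (hI.false J).elim,
      fun J => (hI.false J).elim, fun J => (hI.false J).elim, fun J => (hI.false J).elim⟩
  choose M hM hA hfin hsep hrank hbadM using hbad
  choose L hL hAL hfinL hsepL hrankL ξ hξ0 hξ using hbadM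
  -- generators over the completions
  have hgen : ∀ J, ∃ c₀ : Fin (e+1) → F J, ∀ᶠ c in 𝓝 c₀, ∃ T : M J, ev (e+1) T c = 0 ∧
      LinearIndependent (F J) (fun k : Fin (e+1) => T ^ (k : ℕ)) := fun J =>
    P1_normed (M J) (e+1) (hrank J)
  choose g₀ hg₀ using hgen
  set ρ : ∀ J, S → F J := fun J x => ψ J ⟨x, hS J x x.2⟩ with hρ
  have hdense2 : DenseRange (fun (c : Fin (e+1) → S) (J : I) (k : Fin (e+1)) => ρ J (c k)) := by
    have h1 : DenseRange (Pi.map (fun _ : Fin (e+1) => (fun (x : S) (J : I) => ρ J x))) :=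
      DenseRange.piMap (fun _ : Fin (e+1) => hdense)
    have h2 : Function.Surjective
        (fun (w : Fin (e+1) → ∀ J, F J) (J : I) (k : Fin (e+1)) => w k J) := by
      intro w
      exact ⟨fun k J => w J k, rfl⟩
    have h3 : Continuous
        (fun (w : Fin (e+1) → ∀ J, F J) (J : I) (k : Fin (e+1)) => w k J) := by
      fun_prop
    exact h2.denseRange.comp h1 h3
  have hgex : ∃ g : Fin (e+1) → S, ∀ J, ∃ T : M J,
      ev (e+1) T (fun k => ρ J (g k)) = 0 ∧
        LinearIndependent (F J) (fun k : Fin (e+1) => T ^ (k : ℕ)) := by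
    have hev : ∀ᶠ w : (∀ J, Fin (e+1) → F J) in 𝓝 g₀, ∀ J, ∃ T : M J, ev (e+1) T (w J) = 0 ∧
          LinearIndependent (F J) (fun k : Fin (e+1) => T ^ (k : ℕ)) := by
      rw [eventually_all]
      intro J
      exact (continuous_apply J).continuousAt.eventually (hg₀ J)
    obtain ⟨U, hUs, hUo, hUm⟩ := eventually_nhds_iff.mp hev
    obtain ⟨c, hc⟩ := hdense2.exists_mem_open hUo ⟨_, hUm⟩
    exact ⟨c, hUs _ hc⟩
  obtain ⟨gS, hgS⟩ := hgex
  choose T hT0' hTli using hgS
  set gK : Fin (e+1) → K := fun k => (gS k : K) with hgK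
  have hg : ∀ J k, gK k ∈ O J := fun J k => hS J _ (gS k).2
  have hT0 : ∀ J, ev (e+1) (T J) (fun k => ψ J (gO (O J) gK (hg J) k)) = 0 := fun J => hT0' J
  -- topologies
  choose τ hτring hτ2 hτcont hτ1 hτ3 using fun J => ext_package (F := F J) (M J)
  let instTop : ∀ J, TopologicalSpace (M J) := τ
  have instR : ∀ J, IsTopologicalRing (M J) := hτring
  have instT : ∀ J, T2Space (M J) := hτ2
  have hdense3 : DenseRange (fun (c : Fin (e+1) → S) (J : I) =>
      ∑ k, ρ J (c k) • T J ^ (k : ℕ)) := by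
    let Φ : (∀ J, Fin (e+1) → F J) → ∀ J, M J := fun w J =>
      (Fintype.linearCombination (F J) (fun k : Fin (e+1) => T J ^ (k : ℕ))) (w J)
    have hΦc : Continuous Φ := by
      refine continuous_pi fun J => ?_
      exact (hτcont J (e+1) _).comp (continuous_apply J)
    have hΦs : Function.Surjective Φ := by
      intro y
      have : ∀ J, ∃ w : Fin (e+1) → F J,
          (Fintype.linearCombination (F J) (fun k : Fin (e+1) => T J ^ (k : ℕ))) w = y J := by
        intro J
        have hspan := (hTli J).span_eq_top_of_card_eq_finrank' (by simp [hrank J])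
        have : y J ∈ Submodule.span (F J) (Set.range (fun k : Fin (e+1) => T J ^ (k : ℕ))) := by
          rw [hspan]; trivial
        rw [← Fintype.range_linearCombination] at this
        exact this
      choose w hw using this
      exact ⟨w, funext hw⟩
    have h4 := hΦs.denseRange.comp hdense2 hΦc
    refine h4.mono ?_
    rintro _ ⟨c, rfl⟩
    refine ⟨c, ?_⟩
    funext J
    simp only [Φ, Function.comp_apply, Fintype.linearCombination_apply]
  have hdense4 : DenseRange (fun (c : Fin d → Fin (e+1) → S) (J : I) (j : Fin d) =>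
      ∑ k, ρ J (c j k) • T J ^ (k : ℕ)) := by
    have h1 : DenseRange (Pi.map (fun _ : Fin d => (fun (c : Fin (e+1) → S) (J : I) =>
      ∑ k, ρ J (c k) • T J ^ (k : ℕ)))) :=
      DenseRange.piMap (fun _ : Fin d => hdense3)
    have h2 : Function.Surjective
        (fun (w : Fin d → ∀ J, M J) (J : I) (k : Fin d) => w k J) := by
      intro w
      exact ⟨fun k J => w J k, rfl⟩
    have h3 : Continuous (fun (w : Fin d → ∀ J, M J) (J : I) (k : Fin d) => w k J) := by
      fun_prop
    exact h2.denseRange.comp h1 h3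
  -- residue maps
  have hphi : ∀ J (w : Fin (e+1) → S), phi (O J) (ψ J) gK (hg J) (T J) (hT0 J)
      (elt (gO (O J) gK (hg J)) (fun k => ⟨w k, hS J _ (w k).2⟩)) =
      ∑ k, ρ J (w k) • T J ^ (k : ℕ) := fun J w => phi_elt (O J) (ψ J) gK (hg J) (T J) (hT0 J) _
  have hphid : ∀ J, DenseRange (phi (O J) (ψ J) gK (hg J) (T J) (hT0 J)) := by
    intro J
    have h1 : Function.Surjective (fun f : (∀ J, M J) => f J) := fun y =>
      ⟨Function.update 0 J y, by simp⟩
    refine (h1.denseRange.comp hdense3 (continuous_apply J)).mono ?_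
    rintro _ ⟨c, rfl⟩
    exact ⟨_, hphi J c⟩
  -- generator neighbourhoods
  have hgen2 : ∀ J, ∃ c₀ : Fin d → M J, ∀ᶠ c in 𝓝 c₀, ∃ T2 : L J, ev d T2 c = 0 ∧
      LinearIndependent (M J) (fun k : Fin d => T2 ^ (k : ℕ)) := fun J =>
    hτ1 J (L J) d (hrankL J)
  choose h₀ hh₀ using hgen2
  -- split polynomials
  have hMinf : ∀ J, Infinite (M J) := by
    intro J
    have : Infinite (F J) := NontriviallyNormedField.infinite (F J)
    exact Infinite.of_injective _ (algebraMap (F J) (M J)).injective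
  have hsplit : ∀ J, ∃ s₀ : Fin d → M J, ∀ᶠ c in 𝓝 s₀,
      ∃ t : Fin d → M J, Function.Injective t ∧ ∀ a, ev d (t a) c = 0 := by
    intro J
    have hi := hMinf J
    refine ⟨_, hτ3 J d (fun k => (Infinite.natEmbedding (M J)) k) ?_⟩
    intro a b hab
    simpa [Fin.ext_iff] using (Infinite.natEmbedding (M J)).injective hab
  choose s₀ hs₀ using hsplit
  have hcy : ∀ y : Y, ∃ c : Fin d → Fin (e+1) → S, ∀ J,
      (J ∈ B y → ∃ T2 : L J, ev d T2 (fun j => ∑ k, ρ J (c j k) • T J ^ (k : ℕ)) = 0 ∧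
        LinearIndependent (M J) (fun k : Fin d => T2 ^ (k : ℕ))) ∧
      (J ∉ B y → ∃ t : Fin d → M J, Function.Injective t ∧
        ∀ a, ev d (t a) (fun j => ∑ k, ρ J (c j k) • T J ^ (k : ℕ)) = 0) := by
    intro y
    have hev : ∀ᶠ w : (∀ J, Fin d → M J) in
        𝓝 (fun J => if J ∈ B y then h₀ J else s₀ J),
        ∀ J, (J ∈ B y → ∃ T2 : L J, ev d T2 (w J) = 0 ∧
          LinearIndependent (M J) (fun k : Fin d => T2 ^ (k : ℕ))) ∧
        (J ∉ B y → ∃ t : Fin d → M J, Function.Injective t ∧ ∀ a, ev d (t a) (w J) = 0) := by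
      rw [eventually_all]
      intro J
      have hc : Tendsto (fun w : (∀ J, Fin d → M J) => w J)
          (𝓝 (fun J => if J ∈ B y then h₀ J else s₀ J))
          (𝓝 (if J ∈ B y then h₀ J else s₀ J)) :=
        (continuous_apply J).continuousAt
      by_cases hJ : J ∈ B y
      · simp only [hJ, if_true] at hc
        filter_upwards [hc.eventually (hh₀ J)] with w hw
        exact ⟨fun _ => hw, fun h => absurd hJ h⟩
      · simp only [hJ, if_false] at hc
        filter_upwards [hc.eventually (hs₀ J)] with w hw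
        exact ⟨fun h => absurd h hJ, fun _ => hw⟩
    obtain ⟨U, hUs, hUo, hUm⟩ := eventually_nhds_iff.mp hev
    obtain ⟨c, hc⟩ := hdense4.exists_mem_open hUo ⟨_, hUm⟩
    exact ⟨c, hUs _ hc⟩
  choose cw hcw using hcy
  let c : Y → Fin d → Alg (e+1) gK := fun y j => elt gK (fun k => (cw y j k : K))
  have hloc : ∀ J, ∃ (x : (Alg (e+1) gK)ˣ) (H : Subgroup (Alg (e+1) gK)ˣ),
      (∀ y, J ∉ B y → ∃ z : Alg d (c y), Algebra.norm (Alg (e+1) gK) z = x) ∧
      (∀ y, J ∈ B y → ∀ u : (Alg (e+1) gK)ˣ,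
        (∃ z : Alg d (c y), Algebra.norm (Alg (e+1) gK) z = u) → u ∈ H) ∧ x ∉ H := by
    intro J
    let cJ : Y → Fin d → Alg (e+1) (gO (O J) gK (hg J)) := fun y j =>
      elt (gO (O J) gK (hg J)) (fun k => ⟨cw y j k, hS J _ (cw y j k).2⟩)
    have hcJ : ∀ y, (fun j => tau (O J) gK (hg J) (cJ y j)) = c y := by
      intro y
      funext j
      exact tau_elt (O J) gK (hg J) _
    have hcphi : ∀ y, (fun j => phi (O J) (ψ J) gK (hg J) (T J) (hT0 J) (cJ y j)) =
        (fun j => ∑ k, ρ J (cw y j k) • T J ^ (k : ℕ)) := by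
      intro y
      funext j
      exact hphi J (cw y j)
    obtain ⟨x, H, h1, h2, h3⟩ := local_part (O J) (ψ J) gK (hg J) (hψ J) (hrank J) (hτ1 J)
      (T J) (hT0 J) (hTli J) (hphid J) (L J) (hrankL J) (ξ J) (hξ0 J) (hξ J)
      {y | J ∈ B y} cJ
      (by
        intro y hy
        rw [hcphi y]
        exact (hcw y J).1 hy)
      (by
        intro y hy
        rw [hcphi y]
        exact (hcw y J).2 hy)
    refine ⟨x, H, ?_, ?_, h3⟩
    · intro y hy
      have := h1 y hy
      rw [hcJ y] at this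
      exact this
    · intro y hy u hu
      have := h2 y hy u
      rw [hcJ y] at this
      exact this hu
  choose x H h1 h2 h3 using hloc
  exact ⟨gK, c, x, H, h1, h2, h3⟩

end Pool.Agent.W882.Nip3
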