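import Pool.Agent.W882.Nip3.DedCor

open Polynomial ENNReal Filter Topology

namespace Pool.Agent.W882.Nip3

section

variable {K F : Type} [Field K] [NormedField F] [CharZero F] (O : ValuationSubring K)
  (ψ : O →+* F) (hψ : ∀ x, ψ x ≠ 0 → IsUnit x)

include ψ in
theorem charZero_of_place : CharZero K := by
  refine charZero_of_inj_zero fun n hn => ?_
  have h1 : (n : O) = 0 := by
    ext
    push_cast
    exact hn
  have h2 : (n : F) = 0 := by
    rw [← map_natCast ψ, h1, map_zero]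
  exact_mod_cast h2

include hψ in
theorem natCast_inv_mem (n : ℕ) (hn : n ≠ 0) : ((n : K))⁻¹ ∈ O := by
  obtain ⟨u, hu⟩ := hψ (n : O) (by rw [map_natCast]; exact_mod_cast hn)
  have h1 : (n : K) * (((u⁻¹ : Oˣ) : O) : K) = 1 := by
    have h2 := congrArg (fun t : O => (t : K)) (Units.mul_inv u)
    rw [hu] at h2
    exact h2
  rw [inv_eq_of_mul_eq_one_right h1]
  exact ((u⁻¹ : Oˣ) : O).2

include hψ in
theorem ratCast_mem (q : ℚ) : (q : K) ∈ O := by
  have h1 : (q : K) = (q.num : K) * ((q.den : K))⁻¹ := by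
    rw [Rat.cast_def, div_eq_mul_inv]
  rw [h1]
  exact O.mul_mem _ _ (intCast_mem O q.num) (natCast_inv_mem O ψ hψ q.den q.den_nz)

theorem psi_rat (q : ℚ) (h : (q : K) ∈ O) : ψ ⟨q, h⟩ = (q : F) := by
  have := charZero_of_place O ψ
  have hd : (q.den : F) ≠ 0 := by exact_mod_cast q.den_nz
  have hdK : (q.den : K) ≠ 0 := by exact_mod_cast q.den_nz
  have h1 : (⟨q, h⟩ : O) * (q.den : O) = (q.num : O) := by
    ext
    push_cast
    show (q : K) * (q.den : K) = (q.num : K)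
    rw [Rat.cast_def]
    field_simp
  have h2 := congrArg ψ h1
  rw [map_mul, map_natCast, map_intCast] at h2
  have h3 : (q : F) = (q.num : F) / (q.den : F) := Rat.cast_def q
  rw [h3, eq_div_iff hd]
  exact h2

include hψ in
theorem mu_rat (q : ℚ) : mu O ψ (q : K) = (‖(q : F)‖₊ : ℝ≥0∞) := by
  rw [mu_of_mem O ψ (ratCast_mem O ψ hψ q), psi_rat]

end

/-- distinct valuation rings give separated places -/
theorem sep_of_ne {K F F' : Type} [Field K] [NormedField F] [NormedField F'] [CharZero F]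
    [CharZero F'] (O O' : ValuationSubring K) (ψ : O →+* F) (ψ' : O' →+* F')
    (hψ : ∀ x, ψ x ≠ 0 → IsUnit x) (hψ' : ∀ x, ψ' x ≠ 0 → IsUnit x)
    (hc : ∃ c : ℚ, ‖(c : F)‖ < 1 ∧ c ≠ 0) (hc' : ∃ c : ℚ, 1 < ‖(c : F')‖) (hne : O ≠ O') :
    ∃ A : K, A ≠ 0 ∧ mu O ψ A < 1 ∧ 1 < mu O' ψ' A := by
  have hK := charZero_of_place O ψ
  by_cases h : ∃ y ∈ O, y ∉ O'
  · obtain ⟨y, hy, hy'⟩ := h
    obtain ⟨c, hc, hc0⟩ := hc
    have hcK : (c : K) ≠ 0 := by exact_mod_cast hc0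
    have hy0 : y ≠ 0 := fun h => hy' (by rw [h]; exact O'.zero_mem)
    have hmc : mu O ψ (c : K) < 1 := by
      rw [mu_rat O ψ hψ]
      exact_mod_cast hc
    have h1 : Tendsto (fun r : ℕ => mu O ψ ((c : K) ^ r) * mu O ψ y) atTop
        (𝓝 (0 * mu O ψ y)) :=
      ENNReal.Tendsto.mul_const (mu_pow_small O ψ hmc) (Or.inr ((mu_lt_top O ψ).mpr hy).ne)
    rw [zero_mul] at h1
    obtain ⟨r, hr⟩ := (h1.eventually_lt_const (zero_lt_one)).exists
    refine ⟨(c : K) ^ r * y, mul_ne_zero (pow_ne_zero _ hcK) hy0, ?_, ?_⟩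
    · rw [mu_mul O ψ (O.pow_mem (ratCast_mem O ψ hψ c) r) hy]
      exact hr
    · rw [mu_of_not_mem O' ψ']
      · exact ENNReal.one_lt_top
      · intro h2
        apply hy'
        have h3 : ((c : K) ^ r)⁻¹ ∈ O' := by
          rw [← inv_pow]
          have h4 : ((c : K))⁻¹ ∈ O' := by
            have := ratCast_mem O' ψ' hψ' c⁻¹
            rwa [Rat.cast_inv] at this
          exact O'.pow_mem h4 r
        have h5 := O'.mul_mem _ _ h3 h2
        rwa [← mul_assoc, inv_mul_cancel₀ (pow_ne_zero _ hcK), one_mul] at h5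
  · push Not at h
    have h2 : ∃ y ∈ O', y ∉ O := by
      by_contra h3
      push Not at h3
      exact hne (SetLike.ext fun y => ⟨h y, h3 y⟩)
    obtain ⟨y, hy', hy⟩ := h2
    obtain ⟨c, hc⟩ := hc'
    have hcK : (c : K) ≠ 0 := by
      intro h0
      have : c = 0 := by exact_mod_cast h0
      rw [this, Rat.cast_zero, norm_zero] at hc
      exact absurd hc (by norm_num)
    have hy0 : y ≠ 0 := fun h => hy (by rw [h]; exact O.zero_mem)
    have hmy : mu O ψ y⁻¹ = 0 := by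
      rw [mu_inv O ψ hψ hy0, mu_of_not_mem O ψ hy, ENNReal.inv_top]
    have hyO : y⁻¹ ∈ O := (mu_lt_top O ψ).mp (by rw [hmy]; exact zero_lt_top)
    have hmc : 1 < mu O' ψ' (c : K) := by
      rw [mu_rat O' ψ' hψ']
      exact_mod_cast hc
    have hpos : 0 < mu O' ψ' y⁻¹ := by
      rw [mu_inv O' ψ' hψ' hy0, ENNReal.inv_pos]
      exact ((mu_lt_top O' ψ').mpr hy').ne
    by_cases hyO' : y⁻¹ ∈ O'
    · have hlt : (mu O' ψ' y⁻¹)⁻¹ < ⊤ := by
        rw [ENNReal.inv_lt_top]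
        exact hpos
      obtain ⟨r, hr⟩ := (mu_pow_large O' ψ' hmc hlt).exists
      refine ⟨(c : K) ^ r * y⁻¹, mul_ne_zero (pow_ne_zero _ hcK) (inv_ne_zero hy0), ?_, ?_⟩
      · rw [mu_mul O ψ (O.pow_mem (ratCast_mem O ψ hψ c) r) hyO, hmy, mul_zero]
        exact zero_lt_one
      · rw [mu_mul O' ψ' (O'.pow_mem (ratCast_mem O' ψ' hψ' c) r) hyO']
        have h6 := ENNReal.mul_lt_mul_left hpos.ne' ((mu_lt_top O' ψ').mpr hyO').ne hr
        rwa [ENNReal.inv_mul_cancel hpos.ne' ((mu_lt_top O' ψ').mpr hyO').ne] at h6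
    · refine ⟨y⁻¹, inv_ne_zero hy0, by rw [hmy]; exact zero_lt_one, ?_⟩
      rw [mu_of_not_mem O' ψ' hyO']
      exact ENNReal.one_lt_top

/-- distinct residue maps on the same valuation ring give separated places -/
theorem sep_same {K F : Type} [Field K] [NormedField F] [CharZero F]
    (O : ValuationSubring K) (ψ ψ' : O →+* F)
    (hψ : ∀ x, ψ x ≠ 0 → IsUnit x)
    (hden : DenseRange ((↑) : ℚ → F)) (hc : ∃ c : ℚ, 1 < ‖(c : F)‖) (hne : ψ ≠ ψ') :
    ∃ A : K, A ≠ 0 ∧ mu O ψ A < 1 ∧ 1 < mu O ψ' A := by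
  have hK := charZero_of_place O ψ
  obtain ⟨y, hy⟩ : ∃ y, ψ y ≠ ψ' y := by
    by_contra hcon
    push Not at hcon
    exact hne (RingHom.ext hcon)
  obtain ⟨c, hc⟩ := hc
  have hρ : 0 < ‖ψ y - ψ' y‖ := norm_pos_iff.mpr (sub_ne_zero.mpr hy)
  set ρ := ‖ψ y - ψ' y‖ with hρdef
  -- a large power of `c`
  obtain ⟨k, hk⟩ := ((tendsto_pow_atTop_atTop_of_one_lt hc).eventually_gt_atTop (2/ρ)).exists
  set B : ℝ := ‖(c : F)‖ ^ k with hB
  have hBpos : 0 < B := lt_trans (by positivity) hk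
  obtain ⟨_, ⟨q, rfl⟩, hq⟩ := Metric.mem_closure_iff.mp (hden (ψ y)) (min (ρ/2) B⁻¹)
    (lt_min (by positivity) (by positivity))
  rw [dist_eq_norm] at hq
  have hq1 : ‖ψ y - (q : F)‖ < ρ/2 := hq.trans_le (min_le_left _ _)
  have hq2 : ‖ψ y - (q : F)‖ < B⁻¹ := hq.trans_le (min_le_right _ _)
  have hq3 : ρ/2 < ‖ψ' y - (q : F)‖ := by
    have h1 : ρ ≤ ‖ψ y - (q : F)‖ + ‖ψ' y - (q : F)‖ := by
      have h2 : ψ y - ψ' y = (ψ y - (q : F)) - (ψ' y - (q : F)) := by ring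
      rw [hρdef, h2]
      exact norm_sub_le _ _
    linarith
  have hqO : (q : K) ∈ O := ratCast_mem O ψ hψ q
  have hcO : (c : K) ^ k ∈ O := O.pow_mem (ratCast_mem O ψ hψ c) k
  have hyq : (y : K) - q ∈ O := sub_mem y.2 hqO
  have hmem : (c : K) ^ k * ((y : K) - q) ∈ O := O.mul_mem _ _ hcO hyq
  have hval : ∀ θ : O →+* F, θ ⟨_, hmem⟩ = (c : F) ^ k * (θ y - (q : F)) := by
    intro θ
    have h1 : (⟨_, hmem⟩ : O) = ⟨(c : K), ratCast_mem O ψ hψ c⟩ ^ k * (y - ⟨(q : K), hqO⟩) := rfl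
    rw [h1, map_mul, map_pow, map_sub, psi_rat, psi_rat]
  refine ⟨(c : K) ^ k * ((y : K) - q), ?_, ?_, ?_⟩
  · intro h0
    have h1 := hval ψ'
    have h2 : (⟨_, hmem⟩ : O) = 0 := Subtype.ext h0
    rw [h2, map_zero] at h1
    have h3 := congrArg norm h1
    rw [norm_zero, norm_mul, norm_pow] at h3
    have h4 : 0 < B * ‖ψ' y - (q : F)‖ := mul_pos hBpos (lt_trans (by positivity) hq3)
    rw [← h3] at h4
    exact lt_irrefl _ h4
  · rw [mu_of_mem O ψ hmem, hval]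
    have h1 : ‖(c : F) ^ k * (ψ y - (q : F))‖ < 1 := by
      rw [norm_mul, norm_pow]
      calc B * ‖ψ y - (q : F)‖ < B * B⁻¹ := by gcongr
        _ = 1 := mul_inv_cancel₀ hBpos.ne'
    have h2 : ‖(c : F) ^ k * (ψ y - (q : F))‖₊ < 1 := by exact_mod_cast h1
    exact_mod_cast h2
  · rw [mu_of_mem O ψ' hmem, hval]
    have h1 : 1 < ‖(c : F) ^ k * (ψ' y - (q : F))‖ := by
      rw [norm_mul, norm_pow]
      calc (1 : ℝ) = (2/ρ) * (ρ/2) := by field_simp
        _ < B * ‖ψ' y - (q : F)‖ := by gcongr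
    have h2 : 1 < ‖(c : F) ^ k * (ψ' y - (q : F))‖₊ := by exact_mod_cast h1
    exact_mod_cast h2

/-- places which differ on the rationals are separated -/
theorem sep_rat {K F F' : Type} [Field K] [NormedField F] [NormedField F'] [CharZero F]
    [CharZero F'] (O O' : ValuationSubring K) (ψ : O →+* F) (ψ' : O' →+* F')
    (hψ : ∀ x, ψ x ≠ 0 → IsUnit x) (hψ' : ∀ x, ψ' x ≠ 0 → IsUnit x)
    (hc : ∃ c : ℚ, ‖(c : F)‖ < 1 ∧ 1 < ‖(c : F')‖) :
    ∃ A : K, A ≠ 0 ∧ mu O ψ A < 1 ∧ 1 < mu O' ψ' A := by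
  have hK := charZero_of_place O ψ
  obtain ⟨c, hc1, hc2⟩ := hc
  refine ⟨(c : K), ?_, ?_, ?_⟩
  · intro h0
    have : c = 0 := by exact_mod_cast h0
    rw [this, Rat.cast_zero, norm_zero] at hc2
    exact absurd hc2 (by norm_num)
  · rw [mu_rat O ψ hψ]
    exact_mod_cast hc1
  · rw [mu_rat O' ψ' hψ']
    exact_mod_cast hc2

theorem dense_psi {K F : Type} [Field K] [NormedField F] [CharZero F]
    (O : ValuationSubring K) (ψ : O →+* F) (hψ : ∀ x, ψ x ≠ 0 → IsUnit x)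
    (hden : DenseRange ((↑) : ℚ → F)) : DenseRange ψ := by
  refine hden.mono ?_
  rintro _ ⟨q, rfl⟩
  exact ⟨⟨q, ratCast_mem O ψ hψ q⟩, psi_rat O ψ q _⟩

theorem small_psi {K F : Type} [Field K] [NormedField F] [CharZero F]
    (O : ValuationSubring K) (ψ : O →+* F) (hψ : ∀ x, ψ x ≠ 0 → IsUnit x)
    (hc : ∃ c : ℚ, ‖(c : F)‖ < 1 ∧ c ≠ 0) : ∃ A : K, A ≠ 0 ∧ mu O ψ A < 1 := by
  have hK := charZero_of_place O ψ
  obtain ⟨c, hc1, hc0⟩ := hc
  refine ⟨(c : K), by exact_mod_cast hc0, ?_⟩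
  rw [mu_rat O ψ hψ]
  exact_mod_cast hc1

theorem bad_real : Bad ℝ 2 := by
  refine ⟨ℂ, inferInstance, inferInstance, inferInstance, inferInstance,
    Complex.finrank_real_complex, -1, by norm_num, ?_⟩
  rintro ⟨z, hz⟩
  rw [Algebra.norm_complex_apply] at hz
  have := Complex.normSq_nonneg z
  linarith

/-- the norm on the `p`-adic numbers is ultrametric -/
theorem padic_nonarch (p : ℕ) [Fact p.Prime] (x y : ℚ_[p]) : ‖x + y‖ ≤ max ‖x‖ ‖y‖ :=
  Padic.nonarchimedean x y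

/-- the residue map of the `p`-adic integers -/
noncomputable def padicRes (p : ℕ) [Fact p.Prime] : ballRing (padic_nonarch p) →+* ZMod p :=
  (PadicInt.toZMod (p := p)).comp
    { toFun := fun x => (⟨x.1, x.2⟩ : ℤ_[p])
      map_one' := rfl
      map_mul' := fun _ _ => rfl
      map_zero' := rfl
      map_add' := fun _ _ => rfl }

theorem exists_quadratic (p : ℕ) [Fact p.Prime] : ∃ h : (ZMod p)[X], h.Monic ∧ Irreducible h ∧
    h.Separable ∧ h.natDegree = 2 := by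
  obtain ⟨θ, hθ⟩ := Field.exists_primitive_element (ZMod p) (GaloisField p 2)
  have hint : IsIntegral (ZMod p) θ := Algebra.IsIntegral.isIntegral θ
  refine ⟨minpoly (ZMod p) θ, minpoly.monic hint, minpoly.irreducible hint,
    Algebra.IsSeparable.isSeparable (ZMod p) θ, ?_⟩
  rw [(Field.primitive_element_iff_minpoly_natDegree_eq _ _).mp hθ,
    GaloisField.finrank p two_ne_zero]

theorem bad_padic (p : ℕ) [Fact p.Prime] : Bad ℚ_[p] 2 := by
  obtain ⟨h, hm, hi, hsep, hd⟩ := exists_quadratic p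
  rw [← hd]
  refine bad_of_unramified (ballRing (padic_nonarch p)) (ZMod p) (padicRes p) ?_ ?_ h hm hi hsep
    (p : ℚ_[p]) (by exact_mod_cast (Fact.out : p.Prime).ne_zero) ?_
  · intro t
    obtain ⟨n, rfl⟩ := ZMod.natCast_zmod_surjective t
    exact ⟨(n : ballRing (padic_nonarch p)), map_natCast _ n⟩
  · intro x hx
    let x' : ℤ_[p] := ⟨x.1, x.2⟩
    have h1 : IsUnit x' := by
      by_contra hcon
      apply hx
      have h2 : x' ∈ IsLocalRing.maximalIdeal ℤ_[p] := hcon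
      rw [← PadicInt.ker_toZMod] at h2
      exact h2
    have h2 : ‖x.1‖ = 1 := PadicInt.isUnit_iff.mp h1
    have hx0 : x.1 ≠ 0 := by
      intro h0
      rw [h0, norm_zero] at h2
      exact zero_ne_one h2
    have hinv : (x.1)⁻¹ ∈ ballRing (padic_nonarch p) := by
      show ‖(x.1)⁻¹‖ ≤ 1
      rw [norm_inv, h2, inv_one]
    refine IsUnit.of_mul_eq_one (⟨_, hinv⟩ : ballRing (padic_nonarch p)) ?_
    ext
    exact mul_inv_cancel₀ hx0
  · intro a ha u hu h1
    have hu1 : ‖(u : ℚ_[p])‖ = 1 := by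
      obtain ⟨v, rfl⟩ := hu
      have h3 : ‖((v : ballRing (padic_nonarch p)) : ℚ_[p])‖ ≤ 1 :=
        (v : ballRing (padic_nonarch p)).2
      have h4 : ‖(((v⁻¹ : (ballRing (padic_nonarch p))ˣ) : ballRing (padic_nonarch p)) :
        ℚ_[p])‖ ≤ 1 :=
        ((v⁻¹ : (ballRing (padic_nonarch p))ˣ) : ballRing (padic_nonarch p)).2
      have h5 : ((v : ballRing (padic_nonarch p)) : ℚ_[p]) *
          (((v⁻¹ : (ballRing (padic_nonarch p))ˣ) : ballRing (padic_nonarch p)) : ℚ_[p]) = 1 :=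
        congrArg (fun t : ballRing (padic_nonarch p) => (t : ℚ_[p])) (Units.mul_inv v)
      have h6 := congrArg norm h5
      rw [norm_mul, norm_one] at h6
      refine le_antisymm h3 ?_
      nlinarith [norm_nonneg ((v : ballRing (padic_nonarch p)) : ℚ_[p])]
    have h2 := congrArg norm h1
    rw [norm_mul, norm_pow, hu1, mul_one, Padic.norm_p, hd,
      Padic.norm_eq_zpow_neg_valuation ha, ← zpow_natCast, ← zpow_mul, ← zpow_neg_one] at h2
    have hp1 : (1 : ℝ) < p := by exact_mod_cast (Fact.out : p.Prime).one_lt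
    have h3 := zpow_right_injective₀ (by linarith) hp1.ne' h2
    push_cast at h3
    omega

end Pool.Agent.W882.Nip3
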