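import Pool.Agent.W882.Nip3.DedCor

open Polynomial IsDedekindDomain

namespace Pool.Agent.W882.Nip3

theorem exists_sep_poly {k : Type} [Field k] (hk : ¬ IsSepClosed k) :
    ∃ h : k[X], h.Monic ∧ Irreducible h ∧ h.Separable ∧ 2 ≤ h.natDegree := by
  by_contra hcon
  push Not at hcon
  apply hk
  refine IsSepClosed.of_exists_root k fun p hm hi hsep => ?_
  have h1 := hcon p hm hi hsep
  have h2 : p.degree = 1 := by
    have h3 : 0 < p.natDegree := hi.natDegree_pos
    have h4 : p.natDegree = 1 := by omega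
    rw [degree_eq_natDegree hm.ne_zero, h4]
    rfl
  exact exists_root_of_degree_eq_one h2

/-- the maximal ideal of a rational point of the line -/
noncomputable def pt {k : Type} [Field k] (c : k) : HeightOneSpectrum k[X] where
  asIdeal := Ideal.span {X - C c}
  isPrime := (Ideal.span_singleton_prime (X_sub_C_ne_zero c)).mpr (prime_X_sub_C c)
  ne_bot := by
    rw [Ne, Ideal.span_singleton_eq_bot]
    exact X_sub_C_ne_zero c

theorem pt_injective {k : Type} [Field k] : Function.Injective (pt (k := k)) := by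
  intro a b hab
  have h1 : (X - C a : k[X]) ∈ Ideal.span {(X - C b : k[X])} := by
    have h2 : (pt a).asIdeal = (pt b).asIdeal := by rw [hab]
    show X - C a ∈ (pt b).asIdeal
    rw [← h2]
    exact Ideal.mem_span_singleton_self _
  rw [Ideal.mem_span_singleton, dvd_iff_isRoot, IsRoot, eval_sub, eval_X, eval_C] at h1
  exact (sub_eq_zero.mp h1).symm

theorem pt_poly {k : Type} [Field k] (c : k) {h : k[X]} (hm : h.Monic) (hi : Irreducible h)
    (hsep : h.Separable) : ∃ h' : (k[X] ⧸ (pt c).asIdeal)[X], h'.Monic ∧ Irreducible h' ∧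
      h'.Separable ∧ h'.natDegree = h.natDegree := by
  let e : k ≃+* (k[X] ⧸ (pt c).asIdeal) := (quotientSpanXSubCAlgEquiv c).symm.toRingEquiv
  refine ⟨h.map (e : k →+* _), hm.map _, ?_, hsep.map, hm.natDegree_map _⟩
  exact (MulEquiv.irreducible_iff (Polynomial.mapEquiv e)).mpr hi

theorem ratFunc_residue {K : Type} [Field K] [FirstOrder.Ring.CompatibleRing K]
    (hK : ∀ e d, BoundedBad K e d) (K' : Type) [Field K'] [FirstOrder.Ring.CompatibleRing K']
    (hKK' : FirstOrder.Language.ring.ElementarilyEquivalent K K') (O : ValuationSubring K')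
    (k : Type) [Field k] [Infinite k] (hk : ¬ IsSepClosed k) :
    IsEmpty (IsLocalRing.ResidueField O ≃+* RatFunc k) := by
  refine ⟨fun ε => ?_⟩
  obtain ⟨h, hm, hi, hsep, hd⟩ := exists_sep_poly hk
  obtain ⟨N, hN⟩ := dedekind_bound hK h.natDegree hd
  let alg : Algebra k[X] (IsLocalRing.ResidueField O) :=
    ((ε.symm : RatFunc k →+* IsLocalRing.ResidueField O).comp (algebraMap k[X] (RatFunc k))).toAlgebra
  have hfr : IsFractionRing k[X] (IsLocalRing.ResidueField O) := by
    refine IsLocalization.isLocalization_of_algEquiv (nonZeroDivisors k[X])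
      (S := RatFunc k) (AlgEquiv.ofRingEquiv (f := ε.symm) (fun r => rfl))
  have h1 := hN K' hKK' O k[X]
  have h2 : Set.encard {P : HeightOneSpectrum k[X] | ∃ h' : (k[X] ⧸ P.asIdeal)[X], h'.Monic ∧
      Irreducible h' ∧ h'.Separable ∧ h'.natDegree = h.natDegree} = ⊤ := by
    rw [Set.encard_eq_top_iff]
    refine (Set.infinite_range_of_injective (pt_injective (k := k))).mono ?_
    rintro _ ⟨c, rfl⟩
    exact pt_poly c hm hi hsep
  rw [h2] at h1
  exact absurd h1 (by simp)

end Pool.Agent.W882.Nip3
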