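import Mathlib

open Topology Filter

namespace Pool.Agent.W882.Nip3

/-- persistence of simple roots; `C` is the space of coefficients -/
theorem eventually_root {F E C : Type*} [NontriviallyNormedField F] [CompleteSpace F]
    [NormedCommRing E] [NormedAlgebra F E] [CompleteSpace E] [NormedAddCommGroup C]
    [NormedSpace F C] [CompleteSpace C] (a : C →L[F] E) (d : ℕ) (θ : E) (c₀ : Fin d → C)
    (h0 : θ ^ d + ∑ k : Fin d, a (c₀ k) * θ ^ (k : ℕ) = 0)
    (h1 : IsUnit (d • θ ^ (d - 1) + ∑ k : Fin d, a (c₀ k) * ((k : ℕ) • θ ^ ((k : ℕ) - 1))))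
    (U : Set E) (hU : U ∈ 𝓝 θ) :
    ∀ᶠ c in 𝓝 c₀, ∃ T ∈ U, T ^ d + ∑ k : Fin d, a (c k) * T ^ (k : ℕ) = 0 := by
  classical
  set Ψ : E × (Fin d → C) → E × (Fin d → C) :=
    fun p => (p.1 ^ d + ∑ k : Fin d, a (p.2 k) * p.1 ^ (k : ℕ), p.2) with hΨ
  set A : E × (Fin d → C) →L[F] E :=
    (d • θ ^ (d - 1)) • ContinuousLinearMap.fst F E (Fin d → C) +
      ∑ k : Fin d, (a (c₀ k) • (((k : ℕ) • θ ^ ((k : ℕ) - 1)) •
          ContinuousLinearMap.fst F E (Fin d → C))
        + (θ ^ (k : ℕ)) • (a.comp ((ContinuousLinearMap.proj k).comp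
            (ContinuousLinearMap.snd F E (Fin d → C))))) with hA
  have hfst : HasStrictFDerivAt (fun p : E × (Fin d → C) => p.1)
      (ContinuousLinearMap.fst F E (Fin d → C)) (θ, c₀) := hasStrictFDerivAt_fst
  have hev : HasStrictFDerivAt (fun p : E × (Fin d → C) =>
      p.1 ^ d + ∑ k : Fin d, a (p.2 k) * p.1 ^ (k : ℕ)) A (θ, c₀) := by
    rw [hA]
    refine HasStrictFDerivAt.add (hfst.pow d) ?_
    refine HasStrictFDerivAt.fun_sum fun k _ => ?_
    have hc : HasStrictFDerivAt (fun p : E × (Fin d → C) => a (p.2 k))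
        (a.comp ((ContinuousLinearMap.proj k).comp (ContinuousLinearMap.snd F E (Fin d → C))))
        (θ, c₀) :=
      (a.comp ((ContinuousLinearMap.proj (R := F) (φ := fun _ : Fin d => C) k).comp
        (ContinuousLinearMap.snd F E (Fin d → C)))).hasStrictFDerivAt
    exact hc.mul (hfst.pow (k : ℕ))
  have hder : HasStrictFDerivAt Ψ (A.prod (ContinuousLinearMap.snd F E (Fin d → C))) (θ, c₀) :=
    hev.prodMk hasStrictFDerivAt_snd
  set u : E := d • θ ^ (d - 1) + ∑ k : Fin d, a (c₀ k) * ((k : ℕ) • θ ^ ((k : ℕ) - 1)) with hu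
  have hAval : ∀ (h : E) (k : Fin d → C), A (h, k) = u * h + ∑ j : Fin d, θ ^ (j : ℕ) * a (k j) := by
    intro h k
    simp only [hA, hu, add_apply, sum_apply,
      smul_apply, ContinuousLinearMap.coe_fst', smul_eq_mul,
      ContinuousLinearMap.comp_apply,
      ContinuousLinearMap.coe_snd', ContinuousLinearMap.proj_apply, Finset.sum_add_distrib]
    rw [add_mul, Finset.sum_mul, add_assoc]
    congr 2
    refine Finset.sum_congr rfl fun j _ => ?_
    rw [smul_mul_assoc, mul_assoc, smul_mul_assoc]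
  have hrange : (A.prod (ContinuousLinearMap.snd F E (Fin d → C))).range = ⊤ := by
    rw [LinearMap.range_eq_top]
    rintro ⟨w, k⟩
    obtain ⟨e, he⟩ := h1
    refine ⟨((e⁻¹ : Eˣ) * (w - ∑ j : Fin d, θ ^ (j : ℕ) * a (k j)), k), ?_⟩
    have : A ((e⁻¹ : Eˣ) * (w - ∑ j : Fin d, θ ^ (j : ℕ) * a (k j)), k) = w := by
      rw [hAval, ← he, ← mul_assoc, Units.mul_inv, one_mul, sub_add_cancel]
    simpa using this
  have hmap := hder.map_nhds_eq_of_surj hrange
  have hΨ0 : Ψ (θ, c₀) = (0, c₀) := by simp [hΨ, h0]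
  rw [hΨ0] at hmap
  have hS : {p : E × (Fin d → C) | p.1 ∈ U} ∈ 𝓝 (θ, c₀) :=
    continuous_fst.continuousAt.preimage_mem_nhds hU
  have himg : Ψ '' {p : E × (Fin d → C) | p.1 ∈ U} ∈ 𝓝 ((0 : E), c₀) := by
    rw [← hmap]
    exact image_mem_map hS
  have hcont : ContinuousAt (fun c : Fin d → C => ((0 : E), c)) c₀ := by fun_prop
  filter_upwards [hcont.preimage_mem_nhds himg] with c hc
  obtain ⟨⟨T, c'⟩, hT, hTc⟩ := hc
  simp only [hΨ, Prod.mk.injEq] at hTc
  obtain ⟨h2, rfl⟩ := hTc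
  exact ⟨T, hT, h2⟩

end Pool.Agent.W882.Nip3
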