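import Pool.Agent.W882.Nip3.Final

open Polynomial

namespace Pool.Agent.W882.Nip3

theorem mpoly_lowCoeff {k : Type} [Field k] {h : k[X]} (hm : h.Monic) :
    mpoly h.natDegree (lowCoeff h.natDegree h) = h := by
  rw [mpoly]
  conv_rhs => rw [hm.as_sum]
  congr 1
  exact Fin.sum_univ_eq_sum_range (fun i => C (h.coeff i) * X ^ i) h.natDegree

theorem isSeparable_adjoinRoot {F : Type} [Field F] (f : F[X]) [Fact (Irreducible f)]
    (hf : f.Separable) (h0 : f.Monic) : Algebra.IsSeparable F (AdjoinRoot f) := by
  have h1 : IsSeparable F (AdjoinRoot.root f) := by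
    rw [IsSeparable]
    refine hf.of_dvd (minpoly.dvd F _ ?_)
    rw [AdjoinRoot.aeval_eq, AdjoinRoot.mk_self]
  have h2 := (IntermediateField.isSeparable_adjoin_simple_iff_isSeparable F (AdjoinRoot f)).mpr h1
  have h3 : IntermediateField.adjoin F {AdjoinRoot.root f} = ⊤ := by
    rw [← IntermediateField.toSubalgebra_inj, IntermediateField.adjoin_simple_toSubalgebra_of_isAlgebraic,
      AdjoinRoot.adjoinRoot_eq_top]
    · rfl
    · exact (AdjoinRoot.isIntegral_root h0.ne_zero).isAlgebraic
  rw [h3] at h2
  exact Algebra.IsSeparable.of_algHom F _ (IntermediateField.topEquiv (F := F) (E := AdjoinRoot f)).symm.toAlgHom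

/-- an unramified extension has a non-surjective norm when some element has a valuation which is
not divisible by the degree -/
theorem bad_of_unramified {F : Type} [Field F] (A : ValuationSubring F) (k : Type) [Field k]
    (θ : A →+* k) (hθs : Function.Surjective θ) (hθ : ∀ x, θ x ≠ 0 → IsUnit x) (h : k[X])
    (hm : h.Monic) (hi : Irreducible h) (hsep : h.Separable) (π : F) (hπ0 : π ≠ 0)
    (hπ : ∀ a : F, a ≠ 0 → ∀ u : A, IsUnit u → π ≠ a ^ h.natDegree * u) :
    Bad F h.natDegree := by
  classical
  obtain ⟨d, hd⟩ : ∃ d, d = h.natDegree := ⟨_, rfl⟩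
  rw [← hd] at hπ ⊢
  have hdpos : 0 < d := by
    rw [hd]
    exact hi.natDegree_pos
  choose c hc using fun j : Fin d => hθs (h.coeff j)
  have hch : mpoly d (fun j => θ (c j)) = h := by
    have : (fun j => θ (c j)) = lowCoeff d h := by
      funext j
      rw [hc]
      rfl
    rw [this, hd, mpoly_lowCoeff hm]
  -- irreducibility
  have hirrA : Irreducible (mpoly d c) := by
    refine Monic.irreducible_of_irreducible_map θ _ (mpoly_monic d c) ?_
    rw [map_mpoly, hch]
    exact hi
  have hirr : Irreducible (mpoly d (fun j => (c j : F))) := by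
    have h1 := ((mpoly_monic d c).irreducible_iff_irreducible_map_fraction_map (K := F)).mp hirrA
    have h2 : (mpoly d c).map (algebraMap A F) = mpoly d (fun j => (c j : F)) := map_mpoly _ d c
    rwa [h2] at h1
  have hfact : Fact (Irreducible (mpoly d (fun j => (c j : F)))) := ⟨hirr⟩
  have hirrk : Irreducible (mpoly d (fun j => θ (c j))) := by rw [hch]; exact hi
  have hfactk : Fact (Irreducible (mpoly d (fun j => θ (c j)))) := ⟨hirrk⟩
  -- separability
  have hsepF : (mpoly d (fun j => (c j : F))).Separable := by
    rw [separable_iff_derivative_ne_zero hirr]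
    intro h0
    have h1 : derivative h ≠ 0 := by
      rw [← separable_iff_derivative_ne_zero hi]
      exact hsep
    have h2 : (mpoly d c).map (algebraMap A F) = mpoly d (fun j => (c j : F)) := map_mpoly _ d c
    rw [← h2, derivative_map] at h0
    have h3 : derivative (mpoly d c) = 0 := by
      apply Polynomial.map_injective (algebraMap A F) (IsFractionRing.injective A F)
      rw [h0, Polynomial.map_zero]
    apply h1
    rw [← hch, ← map_mpoly, derivative_map, h3, Polynomial.map_zero]
  let L := Alg d (fun j => (c j : F))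
  let bL : Module.Basis (Fin d) F L := algBasis d (fun j => (c j : F))
  have hfin : FiniteDimensional F L := Module.Finite.of_basis bL
  have hrank : Module.finrank F L = d := by
    rw [Module.finrank_eq_card_basis bL, Fintype.card_fin]
  refine ⟨L, inferInstance, inferInstance, hfin, isSeparable_adjoinRoot _ hsepF (mpoly_monic _ _),
    hrank, π, hπ0, ?_⟩
  rintro ⟨z, hz⟩
  have hz0 : z ≠ 0 := by
    rintro rfl
    rw [Algebra.norm_zero] at hz
    exact hπ0 hz.symm
  have hw0 : (fun j => bL.repr z j) ≠ 0 := by
    intro h0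
    apply hz0
    apply bL.repr.injective
    ext j
    have := congrFun h0 j
    simpa using this
  obtain ⟨a, w', ha, hww', ⟨p, hp⟩⟩ := exists_scaling A _ hw0
  set z0 : Alg d c := ∑ j, w' j • algBasis d c j with hz0'
  let τA : Alg d c →+* L := algMap A.subtype d c
  have hτ1 : ∀ r, τA (algebraMap A _ r) = algebraMap F L (r : F) := algMap_algebraMap A.subtype d c
  have hτ2 : ∀ j, τA (algBasis d c j) = bL j := algMap_basis A.subtype d c
  have hz' : z = algebraMap F L a * τA z0 := by
    rw [← bL.sum_repr z, hz0', map_sum, Finset.mul_sum]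
    refine Finset.sum_congr rfl fun j _ => ?_
    have h1 : τA (w' j • algBasis d c j) = (w' j : F) • bL j := by
      rw [Algebra.smul_def, map_mul, hτ1, hτ2, Algebra.smul_def]
    rw [h1, Algebra.smul_def, Algebra.smul_def, ← mul_assoc, ← map_mul]
    congr 2
    exact hww' j
  have hn : Algebra.norm F z = a ^ d * (Algebra.norm A z0 : A) := by
    rw [hz', map_mul, Algebra.norm_algebraMap_of_basis bL, Fintype.card_fin]
    congr 1
    exact norm_compat A.subtype τA hτ1 (algBasis d c) bL hτ2 z0
  have hnk : θ (Algebra.norm A z0) ≠ 0 := by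
    have h1 := norm_compat θ (algMap θ d c) (algMap_algebraMap _ _ _)
      (algBasis d c) (algBasis d (fun j => θ (c j))) (algMap_basis _ _ _) z0
    rw [← h1]
    have : FiniteDimensional k (Alg d (fun j => θ (c j))) := Module.Finite.of_basis (algBasis d _)
    refine Algebra.norm_ne_zero_iff.mpr ?_
    intro h2
    have h3 : (algBasis d (fun j => θ (c j))).repr (algMap θ d c z0) p = θ (w' p) := by
      rw [repr_compat θ (algMap θ d c) (algMap_algebraMap _ _ _)
        (algBasis d c) (algBasis d (fun j => θ (c j))) (algMap_basis _ _ _), hz0',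
        Module.Basis.repr_sum_self]
    rw [h2, hp, map_one] at h3
    simp at h3
  exact hπ a ha _ (hθ _ hnk) (by rw [← hz, hn])

end Pool.Agent.W882.Nip3
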