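import Pool.Agent.W882.Nip3.Mu

open Topology Filter ENNReal

namespace Pool.Agent.W882.Nip3

/-- the intersection of a family of valuation rings -/
def interO {K : Type} [Field K] {I : Type} (O : I → ValuationSubring K) : Subring K where
  carrier := {x | ∀ i, x ∈ O i}
  mul_mem' := fun hx hy i => (O i).mul_mem _ _ (hx i) (hy i)
  one_mem' := fun i => (O i).one_mem
  add_mem' := fun hx hy i => (O i).add_mem _ _ (hx i) (hy i)
  zero_mem' := fun i => (O i).zero_mem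
  neg_mem' := fun hx i => (O i).neg_mem _ (hx i)

section

variable {K : Type} [Field K] {I : Type} (O : I → ValuationSubring K)
  (F : I → Type) [∀ i, NormedField (F i)] (ψ : ∀ i, O i →+* F i)
  (hψ : ∀ i x, ψ i x ≠ 0 → IsUnit x)

/-- pairwise separation gives elements small at one place and large at many others -/
theorem exists_sep (j : I) (T : Finset I) (hj : ∃ A : K, A ≠ 0 ∧ mu (O j) (ψ j) A < 1)
    (hsep : ∀ i ∈ T, ∃ A : K, A ≠ 0 ∧ mu (O j) (ψ j) A < 1 ∧ 1 < mu (O i) (ψ i) A) :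
    ∃ A : K, A ≠ 0 ∧ mu (O j) (ψ j) A < 1 ∧ ∀ i ∈ T, 1 < mu (O i) (ψ i) A := by
  classical
  induction T using Finset.induction_on with
  | empty =>
    obtain ⟨A, hA0, hA⟩ := hj
    exact ⟨A, hA0, hA, by simp⟩
  | insert n T hn ih =>
    obtain ⟨A, hA0, hAj, hAT⟩ := ih (fun i hi => hsep i (Finset.mem_insert_of_mem hi))
    obtain ⟨B, hB0, hBj, hBn⟩ := hsep n (Finset.mem_insert_self _ _)
    -- a power of `B`
    have h1 : ∀ᶠ t : ℕ in atTop, mu (O j) (ψ j) (B ^ t) < 2⁻¹ :=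
      (mu_pow_small (O j) (ψ j) hBj).eventually_lt_const (by simp)
    have h2 : ∀ᶠ t : ℕ in atTop, 2 < mu (O n) (ψ n) (B ^ t) :=
      mu_pow_large (O n) (ψ n) hBn (by simp)
    obtain ⟨t, ht1, ht2⟩ := (h1.and h2).exists
    -- the sum
    have h3 : ∀ᶠ r : ℕ in atTop, mu (O j) (ψ j) (A ^ r + B ^ t) < 1 := by
      have h4 : ∀ᶠ r : ℕ in atTop, mu (O j) (ψ j) (A ^ r) < 2⁻¹ :=
        (mu_pow_small (O j) (ψ j) hAj).eventually_lt_const (by simp)
      filter_upwards [h4] with r hr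
      refine (mu_add (O j) (ψ j) _ _).trans_lt ?_
      calc mu (O j) (ψ j) (A ^ r) + mu (O j) (ψ j) (B ^ t) < 2⁻¹ + 2⁻¹ :=
            ENNReal.add_lt_add hr ht1
        _ = 1 := ENNReal.inv_two_add_inv_two
    have h5 : ∀ᶠ r : ℕ in atTop, ∀ i ∈ T, 1 < mu (O i) (ψ i) (A ^ r + B ^ t) := by
      rw [Filter.eventually_all_finset]
      intro i hi
      exact mu_sum_large (O i) (ψ i) (hAT i hi) (B ^ t) (by simp)
    have h6 : ∀ᶠ r : ℕ in atTop, 1 < mu (O n) (ψ n) (A ^ r + B ^ t) := by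
      rcases lt_or_ge 1 (mu (O n) (ψ n) A) with h | h
      · exact mu_sum_large (O n) (ψ n) h (B ^ t) (by simp)
      · filter_upwards [eventually_ne_atTop 0] with r hr
        have h7 : mu (O n) (ψ n) (A ^ r) ≤ 1 := by
          rw [mu_pow _ _ _ hr]
          exact pow_le_one' h r
        have h8 : mu (O n) (ψ n) (B ^ t) ≤ mu (O n) (ψ n) (A ^ r + B ^ t) + 1 := by
          rw [add_comm (A ^ r)]
          exact (mu_le_add (O n) (ψ n) (B ^ t) (A ^ r)).trans (by gcongr)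
        have h9 : (1 : ℝ≥0∞) + 1 < mu (O n) (ψ n) (A ^ r + B ^ t) + 1 := by
          rw [one_add_one_eq_two]
          exact ht2.trans_le h8
        exact (ENNReal.add_lt_add_iff_right (by simp)).mp h9
    obtain ⟨r, hr1, hr2, hr3⟩ := (h3.and (h5.and h6)).exists
    refine ⟨A ^ r + B ^ t, ?_, hr1, ?_⟩
    · intro h
      rw [h, mu_zero] at hr3
      exact not_lt.mpr zero_le hr3
    · intro i hi
      rcases Finset.mem_insert.mp hi with rfl | hi
      · exact hr3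
      · exact hr2 i hi

variable [Finite I]

include hψ

/-- approximate idempotents -/
theorem approx_idem (j : I) (A : K) (hAj : mu (O j) (ψ j) A < 1)
    (hA : ∀ i, i ≠ j → 1 < mu (O i) (ψ i) A) {ε : ℝ≥0∞} (hε : 0 < ε) :
    ∀ᶠ r : ℕ in atTop, (∀ i, (1 + A ^ r)⁻¹ ∈ O i) ∧
      mu (O j) (ψ j) ((1 + A ^ r)⁻¹ - 1) < ε ∧ ∀ i, i ≠ j → mu (O i) (ψ i) ((1 + A ^ r)⁻¹) < ε := by
  classical
  have := Fintype.ofFinite I
  have h1 := mu_pow_small (O j) (ψ j) hAj
  have h2 : ∀ᶠ r : ℕ in atTop, mu (O j) (ψ j) (A ^ r) < 2⁻¹ := h1.eventually_lt_const (by simp)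
  have h3 : ∀ᶠ r : ℕ in atTop, 2 * mu (O j) (ψ j) (A ^ r) < ε := by
    have h4 : Tendsto (fun r : ℕ => 2 * mu (O j) (ψ j) (A ^ r)) atTop (𝓝 (2 * 0)) :=
      ENNReal.Tendsto.const_mul h1 (Or.inr (by simp))
    rw [mul_zero] at h4
    exact h4.eventually_lt_const hε
  have hj : ∀ᶠ r : ℕ in atTop, (1 + A ^ r)⁻¹ ∈ O j ∧
      mu (O j) (ψ j) ((1 + A ^ r)⁻¹ - 1) < ε := by
    filter_upwards [h2, h3] with r hr2 hr3
    have h5 : 2⁻¹ < mu (O j) (ψ j) (1 + A ^ r) := by
      have h6 := mu_le_add (O j) (ψ j) 1 (A ^ r)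
      rw [mu_one] at h6
      by_contra h7
      push Not at h7
      have : (1 : ℝ≥0∞) < 1 := by
        calc (1 : ℝ≥0∞) ≤ mu (O j) (ψ j) (1 + A ^ r) + mu (O j) (ψ j) (A ^ r) := h6
          _ < 2⁻¹ + 2⁻¹ := ENNReal.add_lt_add_of_le_of_lt (by
              exact (h7.trans_lt (by simp)).ne) h7 hr2
          _ = 1 := ENNReal.inv_two_add_inv_two
      exact lt_irrefl _ this
    have h8 : (1 + A ^ r) ≠ 0 := by
      intro h
      rw [h, mu_zero] at h5
      exact not_lt.mpr zero_le h5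
    have h9 : mu (O j) (ψ j) ((1 + A ^ r)⁻¹) ≤ 2 := by
      rw [mu_inv (O j) (ψ j) (hψ j) h8]
      rw [ENNReal.inv_le_iff_inv_le]
      exact h5.le
    have h10 : (1 + A ^ r)⁻¹ ∈ O j := (mu_lt_top _ (ψ j)).mp (h9.trans_lt (by simp))
    refine ⟨h10, ?_⟩
    have h11 : (1 + A ^ r)⁻¹ - 1 = -(A ^ r * (1 + A ^ r)⁻¹) := by
      field_simp
      ring
    have h12 : A ^ r ∈ O j := (mu_lt_top _ (ψ j)).mp (hr2.trans (by simp))
    rw [h11, mu_neg, mu_mul _ _ h12 h10, mul_comm]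
    exact (mul_le_mul_left h9 _).trans_lt hr3
  have hi : ∀ᶠ r : ℕ in atTop, ∀ i, i ≠ j →
      mu (O i) (ψ i) ((1 + A ^ r)⁻¹) < min ε 1 := by
    rw [eventually_all]
    intro i
    by_cases hij : i = j
    · exact Eventually.of_forall fun r h => absurd hij h
    · have hε' : 0 < min ε 1 := lt_min hε (by simp)
      filter_upwards [mu_sum_large (O i) (ψ i) (hA i hij) 1 (C := (min ε 1)⁻¹)
        (by rw [ENNReal.inv_lt_top]; exact hε')] with r hr _
      rw [add_comm] at hr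
      have h8 : (1 + A ^ r) ≠ 0 := by
        intro h
        rw [h, mu_zero] at hr
        exact not_lt.mpr zero_le hr
      rw [mu_inv (O i) (ψ i) (hψ i) h8]
      exact ENNReal.inv_lt_iff_inv_lt.mp hr
  filter_upwards [hj, hi] with r hr1 hr2
  refine ⟨fun i => ?_, hr1.2, fun i hij => (hr2 i hij).trans_le (min_le_left _ _)⟩
  by_cases hij : i = j
  · subst hij
    exact hr1.1
  · exact (mu_lt_top _ (ψ i)).mp ((hr2 i hij).trans_le (min_le_right _ _) |>.trans (by simp))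

/-- approximation of an element of `O j` by elements of the intersection -/
theorem approx_elt (j : I) (A : K) (hAj : mu (O j) (ψ j) A < 1)
    (hA : ∀ i, i ≠ j → 1 < mu (O i) (ψ i) A) (x : K) (hx : x ∈ O j) {ε : ℝ≥0∞} (hε : 0 < ε) :
    ∃ x' : K, (∀ i, x' ∈ O i) ∧ mu (O j) (ψ j) (x' - x) < ε := by
  classical
  have := Fintype.ofFinite I
  by_cases hx0 : mu (O j) (ψ j) x = 0
  · refine ⟨0, fun i => (O i).zero_mem, ?_⟩
    rw [zero_sub, mu_neg, hx0]
    exact hε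
  have hxne : x ≠ 0 := fun h => hx0 (by rw [h, mu_zero])
  have hxtop : mu (O j) (ψ j) x < ⊤ := (mu_lt_top _ _).mpr hx
  have h1 := mu_pow_small (O j) (ψ j) hAj
  -- the bad exponents at the other places
  have hbad : ∀ᶠ r : ℕ in atTop, ∀ i, i ≠ j → mu (O i) (ψ i) (x⁻¹ + A ^ r * x) ≠ 0 := by
    rw [eventually_all]
    intro i
    by_cases hij : i = j
    · exact Eventually.of_forall fun r h => absurd hij h
    · have hAi := hA i hij
      have hA0 : A ≠ 0 := by
        intro h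
        rw [h, mu_zero] at hAi
        exact not_lt.mpr zero_le hAi
      have h2 : ∀ᶠ r : ℕ in atTop, ¬ (mu (O i) (ψ i) (x⁻¹ + A ^ r * x) = 0) := by
        refine eventually_not_of_two ?_
        intro r r' hrr hr hr'
        set z := A ^ (r' - r) - 1 with hz
        have hz1 : 0 < mu (O i) (ψ i) z := by
          have h3 := mu_le_add (O i) (ψ i) z 1
          rw [mu_one] at h3
          have h4 : mu (O i) (ψ i) (A ^ (r' - r)) ≤ mu (O i) (ψ i) z + 1 := by
            have h5 := mu_add (O i) (ψ i) z 1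
            rw [mu_one, hz, sub_add_cancel] at h5
            exact h5
          rw [mu_pow _ _ _ (Nat.sub_ne_zero_of_lt hrr)] at h4
          by_contra h6
          push Not at h6
          have h7 : mu (O i) (ψ i) z = 0 := le_antisymm h6 zero_le
          rw [h7, zero_add] at h4
          exact absurd h4 (not_le.mpr (one_lt_pow₀ hAi (Nat.sub_ne_zero_of_lt hrr)))
        have hz0 : z ≠ 0 := by
          intro h
          rw [h, mu_zero] at hz1
          exact lt_irrefl _ hz1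
        have hzi : z⁻¹ ∈ O i := by
          rw [← mu_lt_top (O i) (ψ i), mu_inv _ _ (hψ i) hz0, ENNReal.inv_lt_top]
          exact hz1
        have hD : mu (O i) (ψ i) (A ^ r * x * z) = 0 := by
          have h8 : A ^ r * x * z = (x⁻¹ + A ^ r' * x) + -(x⁻¹ + A ^ r * x) := by
            have : A ^ r' = A ^ r * A ^ (r' - r) := by
              rw [← pow_add, Nat.add_sub_cancel' hrr.le]
            rw [this, hz]
            ring
          rw [h8]
          refine le_antisymm ((mu_add _ _ _ _).trans ?_) zero_le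
          rw [mu_neg, hr, hr', zero_add]
        have hDO : A ^ r * x * z ∈ O i := (mu_lt_top _ (ψ i)).mp (by rw [hD]; simp)
        have hAx : mu (O i) (ψ i) (A ^ r * x) = 0 := by
          have h9 : A ^ r * x = A ^ r * x * z * z⁻¹ := by
            rw [mul_assoc, mul_inv_cancel₀ hz0, mul_one]
          rw [h9, mu_mul _ _ hDO hzi, hD, zero_mul]
        have hAxO : A ^ r * x ∈ O i := (mu_lt_top _ (ψ i)).mp (by rw [hAx]; simp)
        have hxinv : mu (O i) (ψ i) x⁻¹ = 0 := by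
          refine le_antisymm ((mu_le_add (O i) (ψ i) x⁻¹ (A ^ r * x)).trans ?_) zero_le
          rw [hr, hAx, zero_add]
        have hxtop : mu (O i) (ψ i) x = ⊤ := by
          have := mu_inv (O i) (ψ i) (hψ i) (inv_ne_zero hxne)
          rw [inv_inv, hxinv, ENNReal.inv_zero] at this
          exact this
        have hAinv : (A ^ r)⁻¹ ∈ O i := by
          rw [← inv_pow]
          have h11 : A⁻¹ ∈ O i := by
            rw [← mu_lt_top (O i) (ψ i), mu_inv _ _ (hψ i) hA0, ENNReal.inv_lt_top]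
            exact zero_lt_one.trans hAi
          exact (O i).pow_mem h11 r
        have hx2 : x ∈ O i := by
          have h10 : x = (A ^ r)⁻¹ * (A ^ r * x) := by
            rw [← mul_assoc, inv_mul_cancel₀ (pow_ne_zero r hA0), one_mul]
          rw [h10]
          exact (O i).mul_mem _ _ hAinv hAxO
        exact absurd hxtop ((mu_lt_top _ (ψ i)).mpr hx2).ne
      filter_upwards [h2] with r hr _
      exact hr
  -- at the place `j`
  have hxinv : mu (O j) (ψ j) x⁻¹ = (mu (O j) (ψ j) x)⁻¹ := mu_inv _ _ (hψ j) hxne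
  have hj1 : ∀ᶠ r : ℕ in atTop, mu (O j) (ψ j) (A ^ r) * mu (O j) (ψ j) x <
      2⁻¹ * (mu (O j) (ψ j) x)⁻¹ := by
    have h4 : Tendsto (fun r : ℕ => mu (O j) (ψ j) (A ^ r) * mu (O j) (ψ j) x) atTop
        (𝓝 (0 * mu (O j) (ψ j) x)) := ENNReal.Tendsto.mul_const h1 (Or.inr hxtop.ne)
    rw [zero_mul] at h4
    refine h4.eventually_lt_const ?_
    refine ENNReal.mul_pos (by simp) ?_
    rw [Ne, ENNReal.inv_eq_zero]
    exact hxtop.ne
  have hj2 : ∀ᶠ r : ℕ in atTop, mu (O j) (ψ j) (A ^ r) * (mu (O j) (ψ j) x *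
      mu (O j) (ψ j) x * (2 * mu (O j) (ψ j) x)) < ε := by
    have h4 : Tendsto (fun r : ℕ => mu (O j) (ψ j) (A ^ r) * (mu (O j) (ψ j) x *
      mu (O j) (ψ j) x * (2 * mu (O j) (ψ j) x))) atTop (𝓝 (0 * _)) :=
      ENNReal.Tendsto.mul_const h1 (Or.inr (by
        refine (ENNReal.mul_lt_top (ENNReal.mul_lt_top hxtop hxtop)
          (ENNReal.mul_lt_top (by simp) hxtop)).ne))
    rw [zero_mul] at h4
    exact h4.eventually_lt_const hε
  have hj3 : ∀ᶠ r : ℕ in atTop, mu (O j) (ψ j) (A ^ r) < 1 := h1.eventually_lt_const (by simp)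
  obtain ⟨r, hr1, hr2, hr3, hr4⟩ := (hbad.and (hj1.and (hj2.and hj3))).exists
  have hArO : A ^ r ∈ O j := (mu_lt_top _ (ψ j)).mp (hr4.trans (by simp))
  have hlow : 2⁻¹ * (mu (O j) (ψ j) x)⁻¹ ≤ mu (O j) (ψ j) (x⁻¹ + A ^ r * x) := by
    have h5 := mu_le_add (O j) (ψ j) x⁻¹ (A ^ r * x)
    rw [hxinv, mu_mul _ _ hArO hx] at h5
    by_contra h6
    push Not at h6
    have hfin : 2⁻¹ * (mu (O j) (ψ j) x)⁻¹ ≠ ⊤ := by
      refine ENNReal.mul_ne_top (by simp) ?_
      rw [Ne, ENNReal.inv_eq_top]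
      exact hx0
    have : (mu (O j) (ψ j) x)⁻¹ < (mu (O j) (ψ j) x)⁻¹ := by
      calc (mu (O j) (ψ j) x)⁻¹ ≤ _ := h5
        _ < 2⁻¹ * (mu (O j) (ψ j) x)⁻¹ + 2⁻¹ * (mu (O j) (ψ j) x)⁻¹ := ENNReal.add_lt_add h6 hr2
        _ = (mu (O j) (ψ j) x)⁻¹ := by
          rw [← add_mul, ENNReal.inv_two_add_inv_two, one_mul]
    exact lt_irrefl _ this
  have hne : x⁻¹ + A ^ r * x ≠ 0 := by
    intro h
    rw [h, mu_zero] at hlow
    have h7 : 0 < 2⁻¹ * (mu (O j) (ψ j) x)⁻¹ := by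
      refine ENNReal.mul_pos (by simp) ?_
      rw [Ne, ENNReal.inv_eq_zero]
      exact hxtop.ne
    exact absurd hlow (not_le.mpr h7)
  have hup : mu (O j) (ψ j) (x⁻¹ + A ^ r * x)⁻¹ ≤ 2 * mu (O j) (ψ j) x := by
    rw [mu_inv _ _ (hψ j) hne, ENNReal.inv_le_iff_inv_le,
      ENNReal.mul_inv (Or.inl (by simp)) (Or.inl (by simp))]
    exact hlow
  have hmemj : (x⁻¹ + A ^ r * x)⁻¹ ∈ O j :=
    (mu_lt_top _ (ψ j)).mp (hup.trans_lt (ENNReal.mul_lt_top (by simp) hxtop))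
  refine ⟨(x⁻¹ + A ^ r * x)⁻¹, ?_, ?_⟩
  · intro i
    by_cases hij : i = j
    · subst hij
      exact hmemj
    · rw [← mu_lt_top (O i) (ψ i), mu_inv _ _ (hψ i) hne, ENNReal.inv_lt_top]
      exact pos_iff_ne_zero.mpr (hr1 i hij)
  · have h8 : (x⁻¹ + A ^ r * x)⁻¹ - x = -(A ^ r * (x * x * (x⁻¹ + A ^ r * x)⁻¹)) := by
      have h9 : (x⁻¹ + A ^ r * x)⁻¹ * (x⁻¹ + A ^ r * x) = 1 := inv_mul_cancel₀ hne
      have h10 : x * x⁻¹ = 1 := mul_inv_cancel₀ hxne
      linear_combination x * h9 - (x⁻¹ + A ^ r * x)⁻¹ * h10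
    rw [h8, mu_neg, mu_mul _ _ hArO ((O j).mul_mem _ _ ((O j).mul_mem _ _ hx hx) hmemj),
      mu_mul _ _ ((O j).mul_mem _ _ hx hx) hmemj, mu_mul _ _ hx hx]
    refine lt_of_le_of_lt ?_ hr3
    gcongr

end

end Pool.Agent.W882.Nip3
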